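import Pool.Agent.Helper87.UB.St
import Pool.Agent.Helper72.BAM.KE2
import Pool.Agent.Helper72.BAM.L9
import Pool.Agent.Helper72.BAM.LG

set_option autoImplicit false

open MeasureTheory Complex FourierTransform Filter Topology
open scoped ENNReal NNReal ComplexConjugate

noncomputable section

namespace Helper87.UB

open Helper72.BA

private lemma nrm_le_two_BD (k : ℕ) (hk : 2 ≤ k) (f : ℂ → ℂ) (hf : ∀ z, ‖f z‖ ≤ 1) :
    nrm (2 * k) f ≤ nrm 2 f := by
  refine lintegral_mono fun z => ?_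
  have h : ‖f z‖ₑ ≤ 1 := by
    rw [← ofReal_norm, ← ENNReal.ofReal_one]
    exact ENNReal.ofReal_le_ofReal (hf z)
  exact pow_le_pow_right_of_le_one' h (by omega)

private lemma shift_BD (n M m : ℕ) (hm : m ≤ M) (f : ℂ → ℂ) (z : ℂ) :
    gW n (Finset.Ico (-M + 2 * m : ℤ) M) f z =
      gW n (Finset.Ico (-((M - m : ℕ) : ℤ)) ((M - m : ℕ) : ℤ)) (fun w => f (w / ((2:ℝ) ^ m : ℝ)))
        (((2:ℝ) ^ m : ℝ) * z) := by
  rw [P.gW_scale, P.gW_scale n (-((M - m : ℕ) : ℤ))]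
  have e1 : ((M:ℤ) - (-M + 2 * m)) = ((M - m : ℕ) : ℤ) - (-((M - m : ℕ) : ℤ)) := by
    push_cast [Nat.cast_sub hm]
    ring
  have e2 : (-M + 2 * m : ℤ) = -((M - m : ℕ) : ℤ) + m := by
    push_cast [Nat.cast_sub hm]
    ring
  have h2 : (2:ℂ) ≠ 0 := two_ne_zero
  have e3 : (2:ℂ) ^ (-M + 2 * m : ℤ) = (2:ℂ) ^ (-((M - m : ℕ) : ℤ)) * (2:ℂ) ^ m := by
    rw [e2, zpow_add₀ h2, zpow_natCast]
  rw [e1]
  congr 1
  · funext w
    congr 1
    rw [e3]
    push_cast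
    rw [div_div]
  · rw [e3]
    push_cast
    ring

theorem hBD (hW : StWB) : StBD := by
  intro k hk
  obtain ⟨B, n1, h1⟩ := P.reduction k hk (1 / 10) (by norm_num)
  obtain ⟨n2, h2⟩ := hW k hk B
  refine ⟨max n1 n2, fun n hn M m hm f hf hf1 => ?_⟩
  have hn1 : n1 ≤ n := (le_max_left _ _).trans hn
  have hn2 : n2 ≤ n := (le_max_right _ _).trans hn
  set L : ℝ := (2:ℝ) ^ m with hL
  have hL0 : 0 < L := by positivity
  set f' : ℂ → ℂ := fun w => f (w / (L : ℂ)) with hf'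
  have hfn : Nice f' := P.LG_nice_scale L hL0 f hf
  have hfb : ∀ z, ‖f' z‖ ≤ 1 := fun z => hf1 _
  set M' : ℕ := M - m with hM'
  obtain ⟨N, a, b, hab, h3⟩ := h1 n hn1 M' f' hfn
  have h4 := h2 n hn2 N a b hab f' hfn hfb
  set S := ∑ l ∈ Finset.range N, nrm (2 * k) (gW n (Finset.Ico (a l) (b l)) f')
  have hk0 : (1:ℝ) ≤ k := by exact_mod_cast (by omega : 1 ≤ k)
  have hfac : (1:ℝ) ≤ ((2 * k).factorial : ℝ) := by exact_mod_cast Nat.factorial_pos (2 * k)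
  have key : nrm (2 * k) (gW n (Finset.Ico (-M' : ℤ) M') f') ≤
      ENNReal.ofReal (700 * k ^ 2 * (2 * k).factorial * (n:ℝ) ^ (2 * k - 2)) * nrm 2 f' := by
    calc nrm (2 * k) (gW n (Finset.Ico (-M' : ℤ) M') f')
        ≤ ENNReal.ofReal (1 + 1 / 10) * S +
          ENNReal.ofReal (1 / 10 * (n:ℝ) ^ (2 * k - 2)) * nrm (2 * k) f' := h3
      _ ≤ ENNReal.ofReal (1 + 1 / 10) *
            (ENNReal.ofReal (600 * k ^ 2 * (2 * k).factorial * (n:ℝ) ^ (2 * k - 2)) * nrm 2 f') +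
          ENNReal.ofReal (1 / 10 * (n:ℝ) ^ (2 * k - 2)) * nrm 2 f' := by
          gcongr
          exact nrm_le_two_BD k hk f' hfb
      _ = ENNReal.ofReal ((1 + 1 / 10) * (600 * k ^ 2 * (2 * k).factorial * (n:ℝ) ^ (2 * k - 2)) +
            1 / 10 * (n:ℝ) ^ (2 * k - 2)) * nrm 2 f' := by
          have e0 : ENNReal.ofReal ((1 + 1 / 10) * (600 * k ^ 2 * (2 * k).factorial *
              (n:ℝ) ^ (2 * k - 2)) + 1 / 10 * (n:ℝ) ^ (2 * k - 2)) =
              ENNReal.ofReal (1 + 1 / 10) *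
                ENNReal.ofReal (600 * k ^ 2 * (2 * k).factorial * (n:ℝ) ^ (2 * k - 2)) +
              ENNReal.ofReal (1 / 10 * (n:ℝ) ^ (2 * k - 2)) := by
            rw [← ENNReal.ofReal_mul (by norm_num : (0:ℝ) ≤ 1 + 1 / 10),
              ← ENNReal.ofReal_add (by positivity) (by positivity)]
          rw [e0]
          ring
      _ ≤ _ := by
          gcongr
          have hp : (0:ℝ) ≤ (n:ℝ) ^ (2 * k - 2) := by positivity
          have h5 : (1:ℝ) ≤ k ^ 2 * (2 * k).factorial := by nlinarith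
          nlinarith
  have e1 : nrm (2 * k) (gW n (Finset.Ico (-M' : ℤ) M') f') =
      ENNReal.ofReal (L ^ 2) * nrm (2 * k) (gW n (Finset.Ico (-M + 2 * m : ℤ) M) f) := by
    unfold nrm
    rw [← P.LG_lintegral_scale L hL0]
    refine lintegral_congr fun z => ?_
    rw [shift_BD n M m hm f]
    have hLc : (L : ℂ) ≠ 0 := by exact_mod_cast hL0.ne'
    rw [mul_div_cancel₀ _ hLc]
  have e2 : nrm 2 f' = ENNReal.ofReal (L ^ 2) * nrm 2 f := by
    unfold nrm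
    rw [← P.LG_lintegral_scale L hL0]
  rw [e1, e2] at key
  have hc0 : ENNReal.ofReal (L ^ 2) ≠ 0 := by
    rw [Ne, ENNReal.ofReal_eq_zero, not_le]
    positivity
  have key2 : ENNReal.ofReal (L ^ 2) * nrm (2 * k) (gW n (Finset.Ico (-M + 2 * m : ℤ) M) f) ≤
      ENNReal.ofReal (L ^ 2) *
      (ENNReal.ofReal (700 * k ^ 2 * (2 * k).factorial * (n:ℝ) ^ (2 * k - 2)) * nrm 2 f) := by
    refine key.trans (le_of_eq ?_)
    ring
  exact (ENNReal.mul_le_mul_iff_right hc0 ENNReal.ofReal_ne_top).1 key2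

end Helper87.UB
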