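import Pool.Agent.Helper87.UB.St
import Pool.Agent.Helper72.BAM.PT1

set_option autoImplicit false

open MeasureTheory Complex
open scoped ENNReal NNReal

noncomputable section

namespace Helper87.UB

open Helper72.BA Helper72.BA.P

private theorem lc_mono_CA {a a' c c' : ℂ → ℝ≥0∞} (h : ∀ z, a z ≤ a' z) (h' : ∀ z, c z ≤ c' z)
    (s : ℂ) : lc a c s ≤ lc a' c' s := by
  unfold lc
  exact lintegral_mono fun t => mul_le_mul' (h t) (h' _)

private theorem lcp_mono_CA {a a' : ℂ → ℝ≥0∞} (h : ∀ z, a z ≤ a' z) (j : ℕ) :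
    ∀ s, lcp a j s ≤ lcp a' j s := by
  induction j with
  | zero => exact h
  | succ j ih => exact fun s => lc_mono_CA ih h s

private theorem lc_add_left_CA {a b c : ℂ → ℝ≥0∞} (ha : Measurable a) (hc : Measurable c) (s : ℂ) :
    lc (fun z => a z + b z) c s = lc a c s + lc b c s := by
  unfold lc
  have e : ∀ t, (a t + b t) * c (s - t) = a t * c (s - t) + b t * c (s - t) := fun t => add_mul _ _ _
  simp_rw [e]
  rw [lintegral_add_left]
  fun_prop

private theorem lc_smul_left_CA {a c : ℂ → ℝ≥0∞} (ha : Measurable a) (hc : Measurable c)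
    (r : ℝ≥0∞) (s : ℂ) : lc (fun z => r * a z) c s = r * lc a c s := by
  unfold lc
  have e : ∀ t, r * a t * c (s - t) = r * (a t * c (s - t)) := fun t => mul_assoc _ _ _
  simp_rw [e]
  rw [lintegral_const_mul]
  fun_prop

/-- step (1) -/
private theorem step1_CA {x y x' : ℂ → ℝ≥0∞} (hx : Measurable x) (hy : Measurable y)
    (hx' : Measurable x') (e : ∀ z, x' z = x z + y z) (n : ℕ) :
    ∀ s, lcp x' (n + 1) s ≤ lcp x (n + 1) s + ((n : ℝ≥0∞) + 2) * lc y (lcp x' n) s := by
  have hyx' : ∀ z, y z ≤ x' z := fun z => by rw [e]; exact le_add_self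
  have hxx' : ∀ z, x z ≤ x' z := fun z => by rw [e]; exact le_self_add
  have e' : x' = fun z => x z + y z := funext e
  -- convolving with x' splits
  have split : ∀ (a : ℂ → ℝ≥0∞), Measurable a → ∀ s, lc a x' s = lc a x s + lc y a s := by
    intro a ha s
    rw [lc_comm' a x', lc_comm' a x, e']
    exact lc_add_left_CA hx ha s
  induction n with
  | zero =>
    intro s
    change lc x' x' s ≤ lc x x s + (((0:ℕ) : ℝ≥0∞) + 2) * lc y x' s
    rw [split x' hx' s, Nat.cast_zero, zero_add]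
    have h1 : lc x' x s = lc x x s + lc y x s := by
      rw [e']
      exact lc_add_left_CA hx hx s
    rw [h1, two_mul, ← add_assoc]
    gcongr
    exact lc_mono_CA (fun _ => le_rfl) hxx' s
  | succ n ih =>
    intro s
    have hl' : Measurable (lcp x' n) := measurable_lcp hx' n
    have hl1 : Measurable (lcp x (n + 1)) := measurable_lcp hx (n + 1)
    have hly : Measurable (lc y (lcp x' n)) := measurable_lc hy hl'
    change lc (lcp x' (n + 1)) x' s ≤ lc (lcp x (n + 1)) x s +
      (((n + 1 : ℕ) : ℝ≥0∞) + 2) * lc y (lcp x' (n + 1)) s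
    calc lc (lcp x' (n + 1)) x' s
        ≤ lc (fun z => lcp x (n + 1) z + ((n : ℝ≥0∞) + 2) * lc y (lcp x' n) z) x' s :=
          lc_mono_CA ih (fun _ => le_rfl) s
      _ = lc (lcp x (n + 1)) x' s + ((n : ℝ≥0∞) + 2) * lc (lc y (lcp x' n)) x' s := by
          rw [lc_add_left_CA (b := fun z => ((n : ℝ≥0∞) + 2) * lc y (lcp x' n) z) hl1 hx' s,
            lc_smul_left_CA hly hx']
      _ = lc (lcp x (n + 1)) x s + lc y (lcp x (n + 1)) s +
            ((n : ℝ≥0∞) + 2) * lc y (lcp x' (n + 1)) s := by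
          rw [split _ hl1 s, lc_assoc' hy hl' hx']
          rfl
      _ ≤ lc (lcp x (n + 1)) x s + lc y (lcp x' (n + 1)) s +
            ((n : ℝ≥0∞) + 2) * lc y (lcp x' (n + 1)) s := by
          gcongr
          exact lc_mono_CA (fun _ => le_rfl) (lcp_mono_CA hxx' (n + 1)) s
      _ = lc (lcp x (n + 1)) x s +
            (((n + 1 : ℕ) : ℝ≥0∞) + 2) * lc y (lcp x' (n + 1)) s := by
          push_cast
          ring

/-- step (2) -/
private theorem step2_CA {x y x' : ℂ → ℝ≥0∞} (hx : Measurable x) (hy : Measurable y)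
    (hx' : Measurable x') (e : ∀ z, x' z = x z + y z) (K : ℕ) :
    ∫⁻ s, lcp x' (K + 1) s ^ 2 ≤ (∫⁻ s, lcp x (K + 1) s ^ 2) +
      2 * ((K + 2 : ℕ) : ℝ≥0∞) * ∫⁻ ξ, y ξ * Tp x' (K + 2) ξ := by
  have hxx' : ∀ z, x z ≤ x' z := fun z => by rw [e]; exact le_self_add
  set A := lcp x' (K + 1) with hA
  set B := lcp x (K + 1) with hB
  have mA : Measurable A := measurable_lcp hx' _
  have mB : Measurable B := measurable_lcp hx _
  have ml : Measurable (lcp x' K) := measurable_lcp hx' _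
  have mly : Measurable (lc y (lcp x' K)) := measurable_lc hy ml
  have hBA : ∀ s, B s ≤ A s := lcp_mono_CA hxx' (K + 1)
  have hAB : ∀ s, A s ≤ B s + ((K : ℝ≥0∞) + 2) * lc y (lcp x' K) s := step1_CA hx hy hx' e K
  have hpt : ∀ s, A s ^ 2 ≤ B s ^ 2 + (2 * ((K : ℝ≥0∞) + 2)) * (lc y (lcp x' K) s * A s) := by
    intro s
    calc A s ^ 2 = A s * A s := sq _
      _ ≤ A s * (B s + ((K : ℝ≥0∞) + 2) * lc y (lcp x' K) s) := mul_le_mul' le_rfl (hAB s)
      _ = A s * B s + ((K : ℝ≥0∞) + 2) * (lc y (lcp x' K) s * A s) := by ring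
      _ ≤ (B s + ((K : ℝ≥0∞) + 2) * lc y (lcp x' K) s) * B s +
            ((K : ℝ≥0∞) + 2) * (lc y (lcp x' K) s * A s) := by
          gcongr
          exact hAB s
      _ = B s ^ 2 + ((K : ℝ≥0∞) + 2) * (lc y (lcp x' K) s * B s) +
            ((K : ℝ≥0∞) + 2) * (lc y (lcp x' K) s * A s) := by ring
      _ ≤ B s ^ 2 + ((K : ℝ≥0∞) + 2) * (lc y (lcp x' K) s * A s) +
            ((K : ℝ≥0∞) + 2) * (lc y (lcp x' K) s * A s) := by
          gcongr
          exact hBA s
      _ = B s ^ 2 + (2 * ((K : ℝ≥0∞) + 2)) * (lc y (lcp x' K) s * A s) := by ring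
  have hint : ∫⁻ s, lc y (lcp x' K) s * A s = ∫⁻ ξ, y ξ * Tp x' (K + 2) ξ := by
    have e1 : ∀ s, lc y (lcp x' K) s * A s = ∫⁻ ξ, y ξ * (lcp x' K (s - ξ) * A s) := by
      intro s
      unfold lc
      rw [← lintegral_mul_const _ (by fun_prop)]
      refine lintegral_congr fun ξ => ?_
      rw [mul_assoc]
    simp_rw [e1]
    rw [lintegral_lintegral_swap (by fun_prop)]
    refine lintegral_congr fun ξ => ?_
    rw [lintegral_const_mul _ (by fun_prop)]
    rfl
  calc ∫⁻ s, A s ^ 2 ≤ ∫⁻ s, (B s ^ 2 + (2 * ((K : ℝ≥0∞) + 2)) * (lc y (lcp x' K) s * A s)) :=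
        lintegral_mono hpt
    _ = (∫⁻ s, B s ^ 2) + (2 * ((K : ℝ≥0∞) + 2)) * ∫⁻ ξ, y ξ * Tp x' (K + 2) ξ := by
        rw [lintegral_add_left (by fun_prop), lintegral_const_mul _ (by fun_prop), hint]
    _ = _ := by
        push_cast
        rfl

private theorem tr_mono_CA (v : ℂ → ℝ≥0∞) {R R' : ℝ} (h : R ≤ R') (z : ℂ) : tr v R z ≤ tr v R' z :=
  Set.indicator_le_indicator_of_subset (Metric.closedBall_subset_closedBall h) (fun _ => zero_le) z

private theorem Tp_mono_CA {w w' : ℂ → ℝ≥0∞} (h : ∀ z, w z ≤ w' z) (k : ℕ) (ξ : ℂ) :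
    Tp w k ξ ≤ Tp w' k ξ := by
  unfold Tp
  exact lintegral_mono fun s => mul_le_mul' (lcp_mono_CA h _ _) (lcp_mono_CA h _ _)

theorem hCA : StCA := by
  intro k hk b r1 r2 hb hr1 v hv hsupp
  obtain ⟨K, rfl⟩ : ∃ K, k = K + 2 := ⟨k - 2, by omega⟩
  have hb0 : (0:ℝ) < b := by linarith
  have mtr : ∀ R, Measurable (tr v R) := fun R => hv.indicator Metric.isClosed_closedBall.measurableSet
  set H : ℂ → ℝ≥0∞ := fun ξ => Tp (tr v (b * ‖ξ‖)) (K + 2) ξ with hH
  have key : ∀ J : ℕ, ∫⁻ s, lcp (tr v (r1 / b * b ^ J)) (K + 1) s ^ 2 ≤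
      2 * ((K + 2 : ℕ) : ℝ≥0∞) * ∫⁻ ξ, tr v (r1 / b * b ^ J) ξ * H ξ := by
    intro J
    induction J with
    | zero =>
      have h0 : tr v (r1 / b * b ^ 0) = fun _ => 0 := by
        funext z
        unfold tr
        rw [Set.indicator_apply_eq_zero]
        intro hz
        by_contra hne
        have h1 := (hsupp z hne).1
        rw [mem_closedBall_zero_iff, pow_zero, mul_one, le_div_iff₀ hb0] at hz
        nlinarith
      have h1 : ∀ s, lcp (tr v (r1 / b * b ^ 0)) (K + 1) s = 0 := by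
        intro s
        rw [h0]
        change lc (lcp (fun _ => 0) K) (fun _ => 0) s = 0
        unfold lc
        simp
      simp_rw [h1]
      simp
    | succ J ih =>
      set R := r1 / b * b ^ J with hR
      have hRpos : 0 < R := by positivity
      have hR' : r1 / b * b ^ (J + 1) = b * R := by rw [hR]; ring
      rw [hR']
      have hRR : R ≤ b * R := by nlinarith
      set y : ℂ → ℝ≥0∞ := Set.indicator (Metric.closedBall (0:ℂ) (b * R) \ Metric.closedBall (0:ℂ) R) v
        with hy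
      have my : Measurable y := hv.indicator
        (Metric.isClosed_closedBall.measurableSet.diff Metric.isClosed_closedBall.measurableSet)
      have hsum : ∀ z, tr v (b * R) z = tr v R z + y z := by
        intro z
        by_cases h1 : z ∈ Metric.closedBall (0:ℂ) R
        · have h2 : z ∈ Metric.closedBall (0:ℂ) (b * R) := Metric.closedBall_subset_closedBall hRR h1
          simp [tr, hy, Set.indicator_of_mem h2, h1]
        · by_cases h2 : z ∈ Metric.closedBall (0:ℂ) (b * R)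
          · have h3 : z ∈ Metric.closedBall (0:ℂ) (b * R) \ Metric.closedBall (0:ℂ) R := ⟨h2, h1⟩
            simp only [tr, hy, Set.indicator_of_mem h2, Set.indicator_of_mem h3,
              Set.indicator_of_notMem h1, zero_add]
          · have h3 : z ∉ Metric.closedBall (0:ℂ) (b * R) \ Metric.closedBall (0:ℂ) R := fun h => h2 h.1
            simp only [tr, hy, Set.indicator_of_notMem h2, Set.indicator_of_notMem h3,
              Set.indicator_of_notMem h1, zero_add]
      have hyH : ∀ ξ, y ξ * Tp (tr v (b * R)) (K + 2) ξ ≤ y ξ * H ξ := by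
        intro ξ
        by_cases h3 : ξ ∈ Metric.closedBall (0:ℂ) (b * R) \ Metric.closedBall (0:ℂ) R
        · refine mul_le_mul' le_rfl (Tp_mono_CA (fun z => tr_mono_CA v ?_ z) _ _)
          have h4 : R < ‖ξ‖ := by
            have := h3.2
            rw [mem_closedBall_zero_iff, not_le] at this
            exact this
          nlinarith
        · have : y ξ = 0 := Set.indicator_of_notMem h3 _
          rw [this, zero_mul, zero_mul]
      calc ∫⁻ s, lcp (tr v (b * R)) (K + 1) s ^ 2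
          ≤ (∫⁻ s, lcp (tr v R) (K + 1) s ^ 2) +
            2 * ((K + 2 : ℕ) : ℝ≥0∞) * ∫⁻ ξ, y ξ * Tp (tr v (b * R)) (K + 2) ξ :=
            step2_CA (mtr R) my (mtr _) hsum K
        _ ≤ 2 * ((K + 2 : ℕ) : ℝ≥0∞) * (∫⁻ ξ, tr v R ξ * H ξ) +
            2 * ((K + 2 : ℕ) : ℝ≥0∞) * ∫⁻ ξ, y ξ * H ξ := by
            refine add_le_add ih (mul_le_mul' le_rfl (lintegral_mono hyH))
        _ = 2 * ((K + 2 : ℕ) : ℝ≥0∞) * ((∫⁻ ξ, tr v R ξ * H ξ) + ∫⁻ ξ, y ξ * H ξ) := by
            rw [mul_add]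
        _ ≤ 2 * ((K + 2 : ℕ) : ℝ≥0∞) * ∫⁻ ξ, tr v (b * R) ξ * H ξ := by
            refine mul_le_mul' le_rfl ?_
            refine (le_lintegral_add _ _).trans (le_of_eq ?_)
            refine lintegral_congr fun ξ => ?_
            rw [hsum ξ, add_mul]
  obtain ⟨J, hJ⟩ : ∃ J : ℕ, r2 ≤ r1 / b * b ^ J := by
    obtain ⟨J, hJ⟩ := pow_unbounded_of_one_lt (r2 / (r1 / b)) hb
    refine ⟨J, ?_⟩
    have h1 : 0 < r1 / b := by positivity
    rw [div_lt_iff₀ h1] at hJ
    linarith
  have hfull : tr v (r1 / b * b ^ J) = v := by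
    funext z
    unfold tr
    by_cases hz : z ∈ Metric.closedBall (0:ℂ) (r1 / b * b ^ J)
    · rw [Set.indicator_of_mem hz]
    · rw [Set.indicator_of_notMem hz]
      by_contra hne
      apply hz
      rw [mem_closedBall_zero_iff]
      exact ((hsupp z (fun h => hne h.symm)).2).trans hJ
  have := key J
  rw [hfull] at this
  exact this

end Helper87.UB
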