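import Pool.Agent.Helper87.UB.St
import Pool.Agent.Helper72.BAM.PT1
import Pool.Agent.Helper72.BAM.MT

/-!
# Project UB, module CB: bound of `Tp`
-/

set_option autoImplicit false

open MeasureTheory Complex FourierTransform
open scoped ENNReal NNReal

noncomputable section

namespace Helper87.UB

open Helper72.BA

private theorem lintegral_lcp_CB {a : ℂ → ℝ≥0∞} (ha : Measurable a) (m : ℕ) :
    ∫⁻ x, lcp a m x = (∫⁻ x, a x) ^ (m + 1) := by
  induction m with
  | zero => simp [lcp]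
  | succ m ih =>
    show ∫⁻ x, lc (lcp a m) a x = _
    rw [Helper72.BA.P.lintegral_lc (Helper72.BA.P.measurable_lcp ha m) ha, ih]
    ring

private theorem lc_bd_CB {u b : ℂ → ℝ≥0∞} (β : ℝ≥0∞) (hu : Measurable u) (hb : ∀ x, b x ≤ β) (x : ℂ) :
    lc u b x ≤ β * ∫⁻ t, u t := by
  unfold lc
  calc ∫⁻ t, u t * b (x - t) ≤ ∫⁻ t, u t * β := lintegral_mono fun t => by gcongr; exact hb _
    _ = β * ∫⁻ t, u t := by rw [lintegral_mul_const _ hu, mul_comm]

private theorem lcp_split_CB {w s b : ℂ → ℝ≥0∞} (hw : Measurable w) (hs : Measurable s) (hb : Measurable b)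
    (hwsb : ∀ x, w x = s x + b x) (β : ℝ≥0∞) (hβ : ∀ x, b x ≤ β) (m : ℕ) (x : ℂ) :
    lcp w m x ≤ lcp s m x + ((m : ℝ≥0∞) + 1) * β * (∫⁻ t, w t) ^ m := by
  have hsw : ∫⁻ t, s t ≤ ∫⁻ t, w t := lintegral_mono fun t => by rw [hwsb]; exact le_self_add
  induction m generalizing x with
  | zero =>
    simp only [lcp, hwsb]
    simp only [Nat.cast_zero, zero_add, one_mul, pow_zero, mul_one]
    gcongr
    exact hβ x
  | succ m ih =>
    set M := ∫⁻ t, w t with hM
    have m1 := Helper72.BA.P.measurable_lcp hs m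
    have m2 := Helper72.BA.P.measurable_lcp hw m
    show lc (lcp w m) w x ≤ lc (lcp s m) s x + _
    have h1 : lc (lcp w m) w x ≤ lc (lcp s m) w x + ((m : ℝ≥0∞) + 1) * β * M ^ m * M := by
      unfold lc
      calc ∫⁻ t, lcp w m t * w (x - t)
          ≤ ∫⁻ t, (lcp s m t * w (x - t) + ((m : ℝ≥0∞) + 1) * β * M ^ m * w (x - t)) := by
            refine lintegral_mono fun t => ?_
            rw [← add_mul]
            gcongr
            exact ih t
        _ = (∫⁻ t, lcp s m t * w (x - t)) + ∫⁻ t, ((m : ℝ≥0∞) + 1) * β * M ^ m * w (x - t) := by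
            rw [lintegral_add_left (by fun_prop)]
        _ = _ := by
            rw [lintegral_const_mul _ (by fun_prop), lintegral_sub_left_eq_self (fun t => w t) x, hM]
    have h2 : lc (lcp s m) w x ≤ lc (lcp s m) s x + β * M ^ (m + 1) := by
      have e : lc (lcp s m) w x = lc (lcp s m) s x + lc (lcp s m) b x := by
        unfold lc
        rw [← lintegral_add_left (by fun_prop)]
        refine lintegral_congr fun t => ?_
        rw [hwsb (x - t), mul_add]
      rw [e]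
      gcongr
      refine (lc_bd_CB β m1 hβ x).trans ?_
      rw [lintegral_lcp_CB hs]
      gcongr
    calc lc (lcp w m) w x ≤ lc (lcp s m) w x + ((m : ℝ≥0∞) + 1) * β * M ^ m * M := h1
      _ ≤ lc (lcp s m) s x + β * M ^ (m + 1) + ((m : ℝ≥0∞) + 1) * β * M ^ m * M := by gcongr
      _ = lc (lcp s m) s x + (((m + 1 : ℕ) : ℝ≥0∞) + 1) * β * M ^ (m + 1) := by
          push_cast
          ring

private theorem lcp_supp_CB {s : ℂ → ℝ≥0∞} {τ : ℝ} (hs : ∀ x, s x ≠ 0 → ‖x‖ < τ) (m : ℕ) (x : ℂ)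
    (hx : lcp s m x ≠ 0) : ‖x‖ < (m + 1) * τ := by
  induction m generalizing x with
  | zero => simpa using hs x hx
  | succ m ih =>
    have : ∃ t, lcp s m t * s (x - t) ≠ 0 := by
      by_contra h
      push Not at h
      apply hx
      show lc (lcp s m) s x = 0
      unfold lc
      simp [h]
    obtain ⟨t, ht⟩ := this
    have h1 := ih t (left_ne_zero_of_mul ht)
    have h2 := hs _ (right_ne_zero_of_mul ht)
    have h3 : ‖x‖ ≤ ‖t‖ + ‖x - t‖ := by
      have := norm_add_le t (x - t)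
      rwa [add_sub_cancel] at this
    push_cast
    linarith

theorem hCB : StCB := by
  intro k hk c w hw hc ξ hξ
  obtain ⟨j, rfl⟩ : ∃ j, k = j + 2 := ⟨k - 2, by omega⟩
  have hr : 0 < ‖ξ‖ := norm_pos_iff.mpr hξ
  set τ : ℝ := ‖ξ‖ / (2 * j + 3) with hτ
  have hj3 : (0 : ℝ) < 2 * j + 3 := by positivity
  have hτ0 : 0 < τ := by positivity
  set M := ∫⁻ η, w η with hM
  set β : ℝ≥0∞ := ((2 * j + 3 : ℕ) : ℝ≥0∞) ^ 2 * (c / ‖ξ‖ₑ ^ 2) with hβdef
  set A : Set ℂ := Metric.ball (0 : ℂ) τ with hA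
  have hAm : MeasurableSet A := Metric.isOpen_ball.measurableSet
  set s : ℂ → ℝ≥0∞ := A.indicator w with hs
  set b : ℂ → ℝ≥0∞ := Aᶜ.indicator w with hb
  have hsm : Measurable s := hw.indicator hAm
  have hbm : Measurable b := hw.indicator hAm.compl
  have hwsb : ∀ x, w x = s x + b x := by
    intro x
    have := Set.indicator_self_add_compl A w
    exact (congrFun this x).symm
  have hbβ : ∀ x, b x ≤ β := by
    intro x
    by_cases hx : x ∈ A
    · have : b x = 0 := by simp [hb, hx]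
      rw [this]
      exact bot_le
    · have e : b x = w x := by simp [hb, hx]
      rw [e]
      have hx' : τ ≤ ‖x‖ := by
        by_contra h
        apply hx
        rw [hA, mem_ball_zero_iff]
        exact not_le.mp h
      have hxi : ‖ξ‖ ≤ (2 * j + 3) * ‖x‖ := by
        rw [hτ, div_le_iff₀ hj3] at hx'
        linarith
      have hxe : ‖ξ‖ₑ ≤ ((2 * j + 3 : ℕ) : ℝ≥0∞) * ‖x‖ₑ := by
        rw [← ofReal_norm, ← ofReal_norm, ← ENNReal.ofReal_natCast, ← ENNReal.ofReal_mul (by positivity)]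
        apply ENNReal.ofReal_le_ofReal
        push_cast
        exact hxi
      have hξ0 : ‖ξ‖ₑ ^ 2 ≠ 0 := by simp [hξ]
      have hξt : ‖ξ‖ₑ ^ 2 ≠ ∞ := by simp
      rw [hβdef, ← mul_div_assoc, ENNReal.le_div_iff_mul_le (Or.inl hξ0) (Or.inl hξt)]
      calc w x * ‖ξ‖ₑ ^ 2 ≤ w x * (((2 * j + 3 : ℕ) : ℝ≥0∞) * ‖x‖ₑ) ^ 2 := by gcongr
        _ = ((2 * j + 3 : ℕ) : ℝ≥0∞) ^ 2 * (‖x‖ₑ ^ 2 * w x) := by ring
        _ ≤ ((2 * j + 3 : ℕ) : ℝ≥0∞) ^ 2 * c := by gcongr; exact hc x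
  have hsM : ∫⁻ t, s t ≤ M := lintegral_mono fun t => by rw [hwsb]; exact le_self_add
  have hssupp : ∀ x, s x ≠ 0 → ‖x‖ < τ := by
    intro x hx
    have : x ∈ A := by
      by_contra h
      exact hx (by simp [hs, h])
    simpa [hA] using this
  -- the product vanishes
  have hzero : ∫⁻ x, lcp s j (x - ξ) * lcp s (j + 1) x = 0 := by
    have : ∀ x, lcp s j (x - ξ) * lcp s (j + 1) x = 0 := by
      intro x
      by_contra h
      have h1 := lcp_supp_CB hssupp j _ (left_ne_zero_of_mul h)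
      have h2 := lcp_supp_CB hssupp (j + 1) _ (right_ne_zero_of_mul h)
      have h3 : ‖ξ‖ ≤ ‖x‖ + ‖x - ξ‖ := by
        have := norm_sub_le x (x - ξ)
        rwa [sub_sub_cancel] at this
      have h4 : ‖ξ‖ < (2 * j + 3) * τ := by
        push_cast at h2
        nlinarith
      rw [hτ, mul_div_cancel₀ _ hj3.ne'] at h4
      exact lt_irrefl _ h4
    simp [this]
  have mw := Helper72.BA.P.measurable_lcp hw j
  have mw1 := Helper72.BA.P.measurable_lcp hw (j + 1)
  have ms := Helper72.BA.P.measurable_lcp hsm j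
  have ms1 := Helper72.BA.P.measurable_lcp hsm (j + 1)
  have hIw : ∫⁻ x, lcp w j (x - ξ) = M ^ (j + 1) := by
    rw [lintegral_sub_right_eq_self (fun x => lcp w j x) ξ, lintegral_lcp_CB hw]
  have hIs : ∫⁻ x, lcp s (j + 1) x ≤ M ^ (j + 2) := by
    rw [lintegral_lcp_CB hsm]
    gcongr
  have step1 : Tp w (j + 2) ξ ≤ (∫⁻ x, lcp w j (x - ξ) * lcp s (j + 1) x) +
      ((j : ℝ≥0∞) + 2) * β * M ^ (j + 1) * M ^ (j + 1) := by
    unfold Tp
    have e1 : j + 2 - 2 = j := by omega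
    have e2 : j + 2 - 1 = j + 1 := by omega
    rw [e1, e2]
    calc ∫⁻ x, lcp w j (x - ξ) * lcp w (j + 1) x
        ≤ ∫⁻ x, (lcp w j (x - ξ) * lcp s (j + 1) x +
            ((j : ℝ≥0∞) + 2) * β * M ^ (j + 1) * lcp w j (x - ξ)) := by
          refine lintegral_mono fun x => ?_
          have h := lcp_split_CB hw hsm hbm hwsb β hbβ (j + 1) x
          calc lcp w j (x - ξ) * lcp w (j + 1) x ≤ lcp w j (x - ξ) *
                (lcp s (j + 1) x + (((j + 1 : ℕ) : ℝ≥0∞) + 1) * β * (∫⁻ t, w t) ^ (j + 1)) := by gcongr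
            _ = _ := by
              push_cast
              have : (j : ℝ≥0∞) + 1 + 1 = (j : ℝ≥0∞) + 2 := by ring
              rw [this]
              ring
      _ = _ := by
          rw [lintegral_add_left (by fun_prop), lintegral_const_mul _ (by fun_prop), hIw]
  have step2 : ∫⁻ x, lcp w j (x - ξ) * lcp s (j + 1) x ≤
      ((j : ℝ≥0∞) + 1) * β * M ^ j * M ^ (j + 2) := by
    calc ∫⁻ x, lcp w j (x - ξ) * lcp s (j + 1) x
        ≤ ∫⁻ x, (lcp s j (x - ξ) * lcp s (j + 1) x +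
            ((j : ℝ≥0∞) + 1) * β * M ^ j * lcp s (j + 1) x) := by
          refine lintegral_mono fun x => ?_
          rw [← add_mul]
          gcongr
          exact lcp_split_CB hw hsm hbm hwsb β hbβ j (x - ξ)
      _ = (∫⁻ x, lcp s j (x - ξ) * lcp s (j + 1) x) +
            ∫⁻ x, ((j : ℝ≥0∞) + 1) * β * M ^ j * lcp s (j + 1) x := by
          rw [lintegral_add_left (by fun_prop)]
      _ = ((j : ℝ≥0∞) + 1) * β * M ^ j * ∫⁻ x, lcp s (j + 1) x := by
          rw [hzero, zero_add, lintegral_const_mul _ (by fun_prop)]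
      _ ≤ _ := by gcongr
  have e3 : 2 * (j + 2) - 1 = 2 * j + 3 := by omega
  have e4 : 2 * (j + 2) - 2 = 2 * j + 2 := by omega
  rw [e3, e4]
  calc Tp w (j + 2) ξ ≤ (∫⁻ x, lcp w j (x - ξ) * lcp s (j + 1) x) +
      ((j : ℝ≥0∞) + 2) * β * M ^ (j + 1) * M ^ (j + 1) := step1
    _ ≤ ((j : ℝ≥0∞) + 1) * β * M ^ j * M ^ (j + 2) +
      ((j : ℝ≥0∞) + 2) * β * M ^ (j + 1) * M ^ (j + 1) := by gcongr
    _ = ((2 * j + 3 : ℕ) : ℝ≥0∞) * β * M ^ (2 * j + 2) := by
        push_cast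
        ring
    _ = ((2 * j + 3 : ℕ) : ℝ≥0∞) ^ 3 * (c / ‖ξ‖ₑ ^ 2) * M ^ (2 * j + 2) := by
        rw [hβdef]
        ring

end Helper87.UB
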