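import Pool.Agent.Helper87.UB.St

set_option autoImplicit false

open MeasureTheory Complex FourierTransform
open scoped ENNReal NNReal

noncomputable section

namespace Helper87.UB

open Helper72.BA

private theorem radial_CC (g : ℝ → ℝ≥0∞) (hg : Measurable g) :
    ∫⁻ z : ℂ, g ‖z‖ = ENNReal.ofReal (2 * Real.pi) * ∫⁻ r in Set.Ioi (0:ℝ), ENNReal.ofReal r * g r := by
  rw [← Complex.lintegral_comp_polarCoord_symm]
  have h1 : ∫⁻ p in polarCoord.target, ENNReal.ofReal p.1 • g ‖Complex.polarCoord.symm p‖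
      = ∫⁻ p in polarCoord.target, ENNReal.ofReal p.1 * g p.1 := by
    apply setLIntegral_congr_fun polarCoord.open_target.measurableSet
    intro p hp
    have : 0 < p.1 := hp.1
    simp [abs_of_pos this]
  rw [h1, polarCoord_target, Measure.volume_eq_prod, ← Measure.prod_restrict,
    lintegral_prod _ (by fun_prop)]
  simp only [lintegral_const, Measure.restrict_apply, MeasurableSet.univ, Set.univ_inter,
    Real.volume_Ioo]
  rw [lintegral_mul_const _ (by fun_prop), mul_comm]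
  congr 2
  ring

private theorem tail1_CC (s R : ℝ) (hs : 2 < s) (hR : 0 < R) :
    ∫⁻ r in Set.Ioi R, ENNReal.ofReal (r ^ (1 - s)) = ENNReal.ofReal (R ^ (2 - s) / (s - 2)) := by
  rw [← ofReal_integral_eq_lintegral_ofReal]
  · rw [integral_Ioi_rpow_of_lt (by linarith) hR]
    congr 1
    have h1 : (1 - s + 1 : ℝ) = 2 - s := by ring
    rw [h1]
    have h2 : (2 - s : ℝ) = - (s - 2) := by ring
    rw [h2, neg_div_neg_eq]
  · exact integrableOn_Ioi_rpow_of_lt (by linarith) hR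
  · filter_upwards [self_mem_ae_restrict measurableSet_Ioi] with r hr
    exact Real.rpow_nonneg (hR.le.trans (le_of_lt hr)) _

private theorem tail_CC (s R : ℝ) (hs : 2 < s) (hR : 0 < R) :
    ∫⁻ z : ℂ, (if R ≤ ‖z‖ then ENNReal.ofReal (‖z‖ ^ (-s)) else 0) =
      ENNReal.ofReal (2 * Real.pi * (R ^ (2 - s) / (s - 2))) := by
  have hm : Measurable (fun r : ℝ => if R ≤ r then ENNReal.ofReal (r ^ (-s)) else 0) :=
    Measurable.ite measurableSet_Ici (by fun_prop) measurable_const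
  rw [radial_CC (fun r : ℝ => if R ≤ r then ENNReal.ofReal (r ^ (-s)) else 0) hm]
  rw [ENNReal.ofReal_mul (p := 2 * Real.pi) (by positivity), ← tail1_CC s R hs hR]
  congr 1
  have h0 : ∀ r : ℝ, ENNReal.ofReal r * (if R ≤ r then ENNReal.ofReal (r ^ (-s)) else 0) =
      (Set.Ici R).indicator (fun r => ENNReal.ofReal (r ^ (1 - s))) r := by
    intro r
    by_cases h : R ≤ r
    · have hr : 0 < r := hR.trans_le h
      rw [if_pos h, Set.indicator_of_mem (Set.mem_Ici.2 h), ← ENNReal.ofReal_mul hr.le]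
      congr 1
      rw [sub_eq_add_neg, Real.rpow_add hr, Real.rpow_one]
    · rw [if_neg h, Set.indicator_of_notMem (s := Set.Ici R) (fun h' => h h'), mul_zero]
  simp_rw [h0]
  have hsub : Set.Ici R ∩ Set.Ioi 0 = Set.Ici R :=
    Set.inter_eq_self_of_subset_left (fun r (hr : R ≤ r) => hR.trans_le hr)
  rw [lintegral_indicator measurableSet_Ici, Measure.restrict_restrict measurableSet_Ici, hsub]
  exact setLIntegral_congr Ioi_ae_eq_Ici.symm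

private theorem ball_CC (R : ℝ) :
    ∫⁻ z : ℂ, (if ‖z‖ ≤ R then ‖z‖ₑ⁻¹ else 0) = ENNReal.ofReal (2 * Real.pi * R) := by
  have h0 : ∀ z : ℂ, (if ‖z‖ ≤ R then ‖z‖ₑ⁻¹ else 0) =
      (fun r : ℝ => if r ≤ R then (ENNReal.ofReal r)⁻¹ else 0) ‖z‖ := by
    intro z
    simp only [ofReal_norm]
  simp_rw [h0]
  have hm : Measurable (fun r : ℝ => if r ≤ R then (ENNReal.ofReal r)⁻¹ else 0) :=
    Measurable.ite measurableSet_Iic (by fun_prop) measurable_const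
  rw [radial_CC _ hm, ENNReal.ofReal_mul (p := 2 * Real.pi) (by positivity)]
  congr 1
  have h1 : ∫⁻ r in Set.Ioi (0:ℝ), ENNReal.ofReal r * (if r ≤ R then (ENNReal.ofReal r)⁻¹ else 0) =
      ∫⁻ r in Set.Ioi (0:ℝ), (Set.Iic R).indicator (fun _ => 1) r := by
    apply setLIntegral_congr_fun measurableSet_Ioi
    intro r hr
    have hr' : 0 < r := hr
    by_cases h : r ≤ R
    · simp only [if_pos h]
      rw [Set.indicator_of_mem (Set.mem_Iic.2 h)]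
      exact ENNReal.mul_inv_cancel (by simpa using hr') ENNReal.ofReal_ne_top
    · simp only [if_neg h]
      rw [Set.indicator_of_notMem (s := Set.Iic R) (fun h' => h h'), mul_zero]
  rw [h1, lintegral_indicator measurableSet_Iic, Measure.restrict_restrict measurableSet_Iic]
  simp [Set.Iic_inter_Ioi]

/-! ### the recursion -/

private theorem binom_CC (x y : ℝ≥0∞) (m : ℕ) (hm : 1 ≤ m) :
    (x + y) ^ m ≤ x ^ m + m * (y * (x + y) ^ (m - 1)) := by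
  induction m, hm using Nat.le_induction with
  | base => simp
  | succ n hn ih =>
    calc (x + y) ^ (n + 1) = (x + y) ^ n * (x + y) := pow_succ _ _
      _ ≤ (x ^ n + n * (y * (x + y) ^ (n - 1))) * (x + y) := by gcongr
      _ = x ^ (n + 1) + x ^ n * y + n * (y * ((x + y) ^ (n - 1) * (x + y))) := by ring
      _ = x ^ (n + 1) + x ^ n * y + n * (y * (x + y) ^ n) := by
          rw [← pow_succ, Nat.sub_add_cancel hn]
      _ ≤ x ^ (n + 1) + (x + y) ^ n * y + n * (y * (x + y) ^ n) := by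
          gcongr
          exact le_self_add
      _ = x ^ (n + 1) + ((n + 1 : ℕ) : ℝ≥0∞) * (y * (x + y) ^ (n + 1 - 1)) := by
          rw [Nat.add_sub_cancel]
          push_cast
          ring

/-- `G v R = ∫ tr v R` -/
private def G_CC (v : ℂ → ℝ≥0∞) (R : ℝ) : ℝ≥0∞ := ∫⁻ η, tr v R η

private theorem G_mono_CC (v : ℂ → ℝ≥0∞) : Monotone (G_CC v) := by
  intro R R' h
  apply lintegral_mono
  intro η
  exact Set.indicator_le_indicator_of_subset (Metric.closedBall_subset_closedBall h)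
    (fun _ => zero_le) η

private theorem G_meas_CC (v : ℂ → ℝ≥0∞) : Measurable (G_CC v) := (G_mono_CC v).measurable

private theorem tr_eq_CC (v : ℂ → ℝ≥0∞) (R : ℝ) (η : ℂ) :
    tr v R η = if ‖η‖ ≤ R then v η else 0 := by
  unfold tr
  by_cases h : ‖η‖ ≤ R
  · rw [if_pos h, Set.indicator_of_mem]
    simpa using h
  · rw [if_neg h, Set.indicator_of_notMem]
    simpa using h

private theorem step_CC (b : ℝ) (hb : 1 < b) (v : ℂ → ℝ≥0∞) (hv : Measurable v) (m : ℕ)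
    (hm : 1 ≤ m) (R : ℝ) (hR : 0 ≤ R) (J : ℕ) :
    G_CC v R ^ m ≤ G_CC v (R / b ^ J) ^ m +
      m * ∫⁻ η, (if ‖η‖ ≤ R ∧ R / b ^ J < ‖η‖ then v η * G_CC v (b * ‖η‖) ^ (m - 1) else 0) := by
  have hb0 : 0 < b := by linarith
  have hG : Measurable (G_CC v) := G_meas_CC v
  induction J with
  | zero => simp
  | succ J ih =>
    set R1 := R / b ^ J with hR1
    set R2 := R / b ^ (J + 1) with hR2
    have hRR : R1 = b * R2 := by
      rw [hR1, hR2, pow_succ]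
      field_simp
    have hR20 : 0 ≤ R2 := by positivity
    have h21 : R2 ≤ R1 := by rw [hRR]; nlinarith
    have h1R : R1 ≤ R := by
      rw [hR1]
      exact div_le_self hR (one_le_pow₀ hb.le)
    have hmeas : ∀ (A B : ℝ), MeasurableSet {η : ℂ | ‖η‖ ≤ A ∧ B < ‖η‖} := by
      intro A B
      exact (measurableSet_le measurable_norm measurable_const).inter
        (measurableSet_lt measurable_const measurable_norm)
    have hy : G_CC v R1 = G_CC v R2 + ∫⁻ η, (if ‖η‖ ≤ R1 ∧ R2 < ‖η‖ then v η else 0) := by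
      unfold G_CC
      rw [← lintegral_add_left]
      · apply lintegral_congr
        intro η
        rw [tr_eq_CC, tr_eq_CC]
        by_cases h2 : ‖η‖ ≤ R2
        · rw [if_pos h2, if_pos (h2.trans h21), if_neg (fun h => absurd h.2 (not_lt.2 h2)), add_zero]
        · by_cases h1 : ‖η‖ ≤ R1
          · rw [if_pos h1, if_neg h2, if_pos ⟨h1, not_le.1 h2⟩, zero_add]
          · rw [if_neg h1, if_neg h2, if_neg (fun h => h1 h.1), zero_add]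
      · exact hv.indicator Metric.isClosed_closedBall.measurableSet
    have h3 : (∫⁻ η, (if ‖η‖ ≤ R1 ∧ R2 < ‖η‖ then v η else 0)) * G_CC v R1 ^ (m - 1) ≤
        ∫⁻ η, (if ‖η‖ ≤ R1 ∧ R2 < ‖η‖ then v η * G_CC v (b * ‖η‖) ^ (m - 1) else 0) := by
      rw [← lintegral_mul_const _ (Measurable.ite (hmeas R1 R2) hv measurable_const)]
      apply lintegral_mono
      intro η
      dsimp only
      by_cases h : ‖η‖ ≤ R1 ∧ R2 < ‖η‖
      · rw [if_pos h, if_pos h]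
        gcongr
        apply G_mono_CC v
        rw [hRR]
        exact mul_le_mul_of_nonneg_left h.2.le hb0.le
      · rw [if_neg h, if_neg h, zero_mul]
    have h4 : (∫⁻ η, (if ‖η‖ ≤ R1 ∧ R2 < ‖η‖ then v η * G_CC v (b * ‖η‖) ^ (m - 1) else 0)) +
        ∫⁻ η, (if ‖η‖ ≤ R ∧ R1 < ‖η‖ then v η * G_CC v (b * ‖η‖) ^ (m - 1) else 0) =
        ∫⁻ η, (if ‖η‖ ≤ R ∧ R2 < ‖η‖ then v η * G_CC v (b * ‖η‖) ^ (m - 1) else 0) := by
      rw [← lintegral_add_left]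
      · apply lintegral_congr
        intro η
        by_cases h2 : R2 < ‖η‖
        · by_cases h1 : ‖η‖ ≤ R1
          · have h5 : ¬ (‖η‖ ≤ R ∧ R1 < ‖η‖) := fun h => absurd h.2 (not_lt.2 h1)
            rw [if_pos ⟨h1, h2⟩, if_neg h5, if_pos ⟨h1.trans h1R, h2⟩, add_zero]
          · rw [if_neg (fun h => h1 h.1), zero_add]
            by_cases h0 : ‖η‖ ≤ R
            · rw [if_pos ⟨h0, not_le.1 h1⟩, if_pos ⟨h0, h2⟩]
            · rw [if_neg (fun h => h0 h.1), if_neg (fun h => h0 h.1)]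
        · rw [if_neg (fun h => h2 h.2), if_neg (fun h => h2 (h21.trans_lt h.2)),
            if_neg (fun h => h2 h.2), zero_add]
      · exact Measurable.ite (hmeas R1 R2) (by fun_prop) measurable_const
    calc G_CC v R ^ m ≤ G_CC v R1 ^ m + m * ∫⁻ η, (if ‖η‖ ≤ R ∧ R1 < ‖η‖ then
          v η * G_CC v (b * ‖η‖) ^ (m - 1) else 0) := ih
      _ ≤ (G_CC v R2 ^ m + m * ((∫⁻ η, (if ‖η‖ ≤ R1 ∧ R2 < ‖η‖ then v η else 0)) *
            G_CC v R1 ^ (m - 1))) + m * ∫⁻ η, (if ‖η‖ ≤ R ∧ R1 < ‖η‖ then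
          v η * G_CC v (b * ‖η‖) ^ (m - 1) else 0) := by
          gcongr
          have := binom_CC (G_CC v R2) (∫⁻ η, (if ‖η‖ ≤ R1 ∧ R2 < ‖η‖ then v η else 0)) m hm
          rw [← hy] at this
          exact this
      _ ≤ (G_CC v R2 ^ m + m * (∫⁻ η, (if ‖η‖ ≤ R1 ∧ R2 < ‖η‖ then
            v η * G_CC v (b * ‖η‖) ^ (m - 1) else 0))) + m * ∫⁻ η, (if ‖η‖ ≤ R ∧ R1 < ‖η‖ then
          v η * G_CC v (b * ‖η‖) ^ (m - 1) else 0) := by gcongr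
      _ = _ := by rw [← h4]; ring

private theorem pow_CC (b : ℝ) (hb : 1 < b) (r1 : ℝ) (hr1 : 0 < r1) (v : ℂ → ℝ≥0∞)
    (hv : Measurable v) (hv1 : ∀ ξ, v ξ ≠ 0 → r1 ≤ ‖ξ‖) (m : ℕ)
    (hm : 1 ≤ m) (R : ℝ) (hR : 0 ≤ R) :
    G_CC v R ^ m ≤
      m * ∫⁻ η, (if ‖η‖ ≤ R then v η * G_CC v (b * ‖η‖) ^ (m - 1) else 0) := by
  obtain ⟨J, hJ⟩ : ∃ J : ℕ, R / b ^ J < r1 := by
    obtain ⟨J, hJ⟩ := pow_unbounded_of_one_lt (R / r1) hb
    refine ⟨J, ?_⟩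
    have : 0 < b ^ J := by positivity
    rw [div_lt_iff₀ hr1] at hJ
    rw [div_lt_iff₀ this]
    linarith
  refine (step_CC b hb v hv m hm R hR J).trans ?_
  have h0 : G_CC v (R / b ^ J) = 0 := by
    unfold G_CC
    have hm0 : Measurable (tr v (R / b ^ J)) :=
      hv.indicator Metric.isClosed_closedBall.measurableSet
    rw [lintegral_eq_zero_iff hm0]
    apply Filter.Eventually.of_forall
    intro η
    rw [tr_eq_CC]
    by_cases h : ‖η‖ ≤ R / b ^ J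
    · rw [if_pos h]
      by_contra h'
      have := hv1 η h'
      linarith
    · rw [if_neg h]
      rfl
  rw [h0, zero_pow (by omega), zero_add]
  gcongr with η
  by_cases h : ‖η‖ ≤ R ∧ R / b ^ J < ‖η‖
  · rw [if_pos h, if_pos h.1]
  · rw [if_neg h]
    exact zero_le

/-! ### the integrals -/

private theorem ton_CC (b : ℝ) (hb : 0 < b) (k F : ℂ → ℝ≥0∞) (hk : Measurable k)
    (hF : Measurable F) :
    ∫⁻ ξ, k ξ * ∫⁻ η, (if ‖η‖ ≤ b * ‖ξ‖ then F η else 0) =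
      ∫⁻ η, F η * ∫⁻ ξ, (if ‖η‖ / b ≤ ‖ξ‖ then k ξ else 0) := by
  have hE : MeasurableSet {p : ℂ × ℂ | ‖p.2‖ ≤ b * ‖p.1‖} :=
    measurableSet_le measurable_snd.norm (measurable_fst.norm.const_mul b)
  have hm : Measurable (Function.uncurry (fun ξ η : ℂ =>
      (if ‖η‖ ≤ b * ‖ξ‖ then k ξ * F η else 0))) :=
    Measurable.ite hE ((hk.comp measurable_fst).mul (hF.comp measurable_snd)) measurable_const
  have h1 : ∀ ξ, k ξ * ∫⁻ η, (if ‖η‖ ≤ b * ‖ξ‖ then F η else 0) =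
      ∫⁻ η, (if ‖η‖ ≤ b * ‖ξ‖ then k ξ * F η else 0) := by
    intro ξ
    rw [← lintegral_const_mul]
    · apply lintegral_congr
      intro η
      split_ifs
      · rfl
      · rw [mul_zero]
    · exact Measurable.ite (measurableSet_le measurable_norm measurable_const) hF measurable_const
  have h2 : ∀ η, F η * ∫⁻ ξ, (if ‖η‖ / b ≤ ‖ξ‖ then k ξ else 0) =
      ∫⁻ ξ, (if ‖η‖ ≤ b * ‖ξ‖ then k ξ * F η else 0) := by
    intro η
    rw [← lintegral_const_mul]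
    · apply lintegral_congr
      intro ξ
      have h3 : ‖η‖ / b ≤ ‖ξ‖ ↔ ‖η‖ ≤ b * ‖ξ‖ := by
        rw [div_le_iff₀ hb, mul_comm]
      by_cases h : ‖η‖ ≤ b * ‖ξ‖
      · rw [if_pos (h3.2 h), if_pos h, mul_comm]
      · rw [if_neg (fun h' => h (h3.1 h')), if_neg h, mul_zero]
    · exact Measurable.ite (measurableSet_le measurable_const measurable_norm) hk measurable_const
  simp_rw [h1, h2]
  exact lintegral_lintegral_swap hm.aemeasurable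

private theorem ofReal_rpow_CC (ξ : ℂ) (hξ : ξ ≠ 0) (n : ℕ) :
    ENNReal.ofReal (‖ξ‖ ^ (-(n : ℝ))) = (‖ξ‖ₑ ^ n)⁻¹ := by
  have h : 0 < ‖ξ‖ := norm_pos_iff.2 hξ
  rw [Real.rpow_neg h.le, Real.rpow_natCast, ENNReal.ofReal_inv_of_pos (by positivity),
    ENNReal.ofReal_pow h.le, ofReal_norm]

private theorem recur_CC (b : ℝ) (hb : 1 < b) (c : ℝ) (r1 : ℝ) (hr1 : 0 < r1) (v : ℂ → ℝ≥0∞)
    (hv : Measurable v) (hvc : ∀ ξ, ‖ξ‖ₑ ^ 2 * v ξ ≤ ENNReal.ofReal c)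
    (hv1 : ∀ ξ, v ξ ≠ 0 → r1 ≤ ‖ξ‖) (m : ℕ) (hm : 1 ≤ m) :
    ∫⁻ ξ, v ξ / ‖ξ‖ₑ ^ 2 * G_CC v (b * ‖ξ‖) ^ (m + 1) ≤
      ENNReal.ofReal c * ((m + 1 : ℕ) : ℝ≥0∞) * ENNReal.ofReal (Real.pi * b ^ 2) *
        ∫⁻ ξ, v ξ / ‖ξ‖ₑ ^ 2 * G_CC v (b * ‖ξ‖) ^ m := by
  have hb0 : 0 < b := by linarith
  have hG : Measurable (G_CC v) := G_meas_CC v
  have h0 : v 0 = 0 := by
    by_contra h
    have := hv1 0 h
    rw [norm_zero] at this
    linarith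
  set k : ℂ → ℝ≥0∞ := fun ξ => ENNReal.ofReal (‖ξ‖ ^ (-(4 : ℝ))) with hk
  have hkm : Measurable k := by
    rw [hk]
    fun_prop
  have h1 : ∀ ξ, v ξ / ‖ξ‖ₑ ^ 2 ≤ ENNReal.ofReal c * k ξ := by
    intro ξ
    by_cases hξ : ξ = 0
    · rw [hξ, h0]
      simp
    · have hx0 : ‖ξ‖ₑ ≠ 0 := enorm_ne_zero.2 hξ
      have hxt : ‖ξ‖ₑ ≠ ∞ := enorm_ne_top
      have h4 : k ξ = (‖ξ‖ₑ ^ 4)⁻¹ := by
        have := ofReal_rpow_CC ξ hξ 4
        simpa [hk] using this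
      rw [h4, ENNReal.div_eq_inv_mul]
      have h5 : ‖ξ‖ₑ ^ 2 * (‖ξ‖ₑ ^ 4)⁻¹ = (‖ξ‖ₑ ^ 2)⁻¹ := by
        rw [show (4 : ℕ) = 2 + 2 from rfl, pow_add, ENNReal.mul_inv (by simp [hx0]) (by simp [hx0]),
          ← mul_assoc, ENNReal.mul_inv_cancel (by simp [hx0]) (by simp), one_mul]
      calc (‖ξ‖ₑ ^ 2)⁻¹ * v ξ = (‖ξ‖ₑ ^ 2 * v ξ) * (‖ξ‖ₑ ^ 4)⁻¹ := by
            rw [mul_right_comm, h5]
        _ ≤ ENNReal.ofReal c * (‖ξ‖ₑ ^ 4)⁻¹ := by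
            gcongr
            exact hvc ξ
  calc ∫⁻ ξ, v ξ / ‖ξ‖ₑ ^ 2 * G_CC v (b * ‖ξ‖) ^ (m + 1)
      ≤ ∫⁻ ξ, (ENNReal.ofReal c * ((m + 1 : ℕ) : ℝ≥0∞)) * (k ξ *
          ∫⁻ η, (if ‖η‖ ≤ b * ‖ξ‖ then v η * G_CC v (b * ‖η‖) ^ m else 0)) := by
        apply lintegral_mono
        intro ξ
        dsimp only
        have h2 := pow_CC b hb r1 hr1 v hv hv1 (m + 1) (by omega) (b * ‖ξ‖) (by positivity)
        rw [Nat.add_sub_cancel] at h2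
        calc v ξ / ‖ξ‖ₑ ^ 2 * G_CC v (b * ‖ξ‖) ^ (m + 1)
            ≤ (ENNReal.ofReal c * k ξ) * (((m + 1 : ℕ) : ℝ≥0∞) *
              ∫⁻ η, (if ‖η‖ ≤ b * ‖ξ‖ then v η * G_CC v (b * ‖η‖) ^ m else 0)) := by
              gcongr
              exact h1 ξ
          _ = _ := by ring
    _ = (ENNReal.ofReal c * ((m + 1 : ℕ) : ℝ≥0∞)) * ∫⁻ ξ, k ξ *
          ∫⁻ η, (if ‖η‖ ≤ b * ‖ξ‖ then v η * G_CC v (b * ‖η‖) ^ m else 0) := by
        rw [lintegral_const_mul' _ _ (by finiteness)]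
    _ = (ENNReal.ofReal c * ((m + 1 : ℕ) : ℝ≥0∞)) * ∫⁻ η, (v η * G_CC v (b * ‖η‖) ^ m) *
          ∫⁻ ξ, (if ‖η‖ / b ≤ ‖ξ‖ then k ξ else 0) := by
        rw [ton_CC b hb0 k _ hkm (by fun_prop)]
    _ ≤ (ENNReal.ofReal c * ((m + 1 : ℕ) : ℝ≥0∞)) * ∫⁻ η, ENNReal.ofReal (Real.pi * b ^ 2) *
          (v η / ‖η‖ₑ ^ 2 * G_CC v (b * ‖η‖) ^ m) := by
        refine mul_le_mul_right (lintegral_mono fun η => ?_) _
        dsimp only
        by_cases hη : η = 0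
        · rw [hη, h0]
          simp
        · have hn : 0 < ‖η‖ := norm_pos_iff.2 hη
          rw [hk]
          dsimp only
          rw [tail_CC 4 (‖η‖ / b) (by norm_num) (by positivity)]
          have h6 : 2 * Real.pi * ((‖η‖ / b) ^ ((2:ℝ) - 4) / (4 - 2)) =
              Real.pi * b ^ 2 * ‖η‖ ^ (-((2:ℕ):ℝ)) := by
            have h7 : ((2:ℝ) - 4) = -((2:ℕ):ℝ) := by norm_num
            rw [h7, Real.div_rpow hn.le hb0.le, Real.rpow_neg hb0.le, Real.rpow_natCast]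
            field_simp
            norm_num
          rw [h6, ENNReal.ofReal_mul (by positivity), ofReal_rpow_CC η hη 2,
            ENNReal.div_eq_inv_mul]
          apply le_of_eq
          ring
    _ = _ := by
        rw [lintegral_const_mul' _ _ (by finiteness)]
        ring

private theorem amgm_CC (x y : ℝ≥0∞) : 2 * (x * y) ≤ x ^ 2 + y ^ 2 := by
  rcases le_total x y with h | h
  · obtain ⟨d, rfl⟩ := exists_add_of_le h
    calc 2 * (x * (x + d)) ≤ 2 * (x * (x + d)) + d ^ 2 := le_self_add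
      _ = _ := by ring
  · obtain ⟨d, rfl⟩ := exists_add_of_le h
    calc 2 * ((y + d) * y) ≤ 2 * ((y + d) * y) + d ^ 2 := le_self_add
      _ = _ := by ring

private theorem base_CC (b : ℝ) (hb : 1 < b) (r1 : ℝ) (hr1 : 0 < r1) (v : ℂ → ℝ≥0∞)
    (hv : Measurable v) (hv1 : ∀ ξ, v ξ ≠ 0 → r1 ≤ ‖ξ‖) :
    ∫⁻ ξ, v ξ / ‖ξ‖ₑ ^ 2 * G_CC v (b * ‖ξ‖) ≤
      ENNReal.ofReal (2 * Real.pi * b) * ∫⁻ ξ, v ξ ^ 2 := by
  have hb0 : 0 < b := by linarith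
  have h0 : v 0 = 0 := by
    by_contra h
    have := hv1 0 h
    rw [norm_zero] at this
    linarith
  set k : ℂ → ℝ≥0∞ := fun ξ => ENNReal.ofReal (‖ξ‖ ^ (-(3 : ℝ))) with hk
  have hkm : Measurable k := by
    rw [hk]
    fun_prop
  have hI : ∀ (R : ℝ) (F : ℂ → ℝ≥0∞), Measurable F →
      Measurable (fun η : ℂ => if ‖η‖ ≤ R then F η else 0) := by
    intro R F hF
    exact Measurable.ite (measurableSet_le measurable_norm measurable_const) hF measurable_const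
  have key : ∀ ξ : ℂ, 2 * (v ξ / ‖ξ‖ₑ ^ 2 * G_CC v (b * ‖ξ‖)) ≤
      (v ξ ^ 2 * ‖ξ‖ₑ⁻¹) * (∫⁻ η : ℂ, (if ‖η‖ ≤ b * ‖ξ‖ then ‖η‖ₑ⁻¹ else 0)) +
      k ξ * ∫⁻ η, (if ‖η‖ ≤ b * ‖ξ‖ then v η ^ 2 * ‖η‖ₑ else 0) := by
    intro ξ
    by_cases hξ : ξ = 0
    · rw [hξ, h0]
      simp
    have hx0 : ‖ξ‖ₑ ≠ 0 := enorm_ne_zero.2 hξ
    have hxt : ‖ξ‖ₑ ≠ ∞ := enorm_ne_top
    have hk3 : k ξ = (‖ξ‖ₑ⁻¹) ^ 3 := by
      have := ofReal_rpow_CC ξ hξ 3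
      rw [← ENNReal.inv_pow, ← this]
      simp [hk]
    rw [hk3, ENNReal.div_eq_inv_mul, ENNReal.inv_pow]
    set u := ‖ξ‖ₑ⁻¹ with hu
    have hxu : ‖ξ‖ₑ * u = 1 := ENNReal.mul_inv_cancel hx0 hxt
    have hut : u ≠ ∞ := ENNReal.inv_ne_top.2 hx0
    unfold G_CC
    have htm : Measurable (tr v (b * ‖ξ‖)) := hv.indicator Metric.isClosed_closedBall.measurableSet
    rw [← lintegral_const_mul _ (hI _ _ (by fun_prop)), ← lintegral_const_mul _ (hI _ _ (by fun_prop)),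
      ← mul_assoc, ← lintegral_const_mul _ htm,
      ← lintegral_add_left ((hI _ _ (by fun_prop)).const_mul _)]
    apply lintegral_mono
    intro η
    dsimp only
    rw [tr_eq_CC]
    by_cases h : ‖η‖ ≤ b * ‖ξ‖
    · rw [if_pos h, if_pos h, if_pos h]
      by_cases hη : η = 0
      · rw [hη, h0]
        simp
      have hy0 : ‖η‖ₑ ≠ 0 := enorm_ne_zero.2 hη
      have hyt : ‖η‖ₑ ≠ ∞ := enorm_ne_top
      have hyw : ‖η‖ₑ * ‖η‖ₑ⁻¹ = 1 := ENNReal.mul_inv_cancel hy0 hyt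
      calc 2 * (u ^ 2 * v ξ) * v η = 2 * (u ^ 2 * v ξ) * v η * (‖ξ‖ₑ * u) * (‖η‖ₑ * ‖η‖ₑ⁻¹) := by
            rw [hxu, hyw, mul_one, mul_one]
        _ = (2 * ((v ξ * ‖ξ‖ₑ) * (v η * ‖η‖ₑ))) * (u ^ 3 * ‖η‖ₑ⁻¹) := by ring
        _ ≤ ((v ξ * ‖ξ‖ₑ) ^ 2 + (v η * ‖η‖ₑ) ^ 2) * (u ^ 3 * ‖η‖ₑ⁻¹) := by
            gcongr
            exact amgm_CC _ _
        _ = v ξ ^ 2 * u * ‖η‖ₑ⁻¹ * ((‖ξ‖ₑ * u) * (‖ξ‖ₑ * u)) +
              u ^ 3 * (v η ^ 2 * ‖η‖ₑ) * (‖η‖ₑ * ‖η‖ₑ⁻¹) := by ring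
        _ = _ := by rw [hxu, hyw]; ring
    · rw [if_neg h]
      simp
  have h2 : ∫⁻ ξ, (v ξ ^ 2 * ‖ξ‖ₑ⁻¹) * (∫⁻ η : ℂ, (if ‖η‖ ≤ b * ‖ξ‖ then ‖η‖ₑ⁻¹ else 0)) ≤
      ENNReal.ofReal (2 * Real.pi * b) * ∫⁻ ξ, v ξ ^ 2 := by
    rw [← lintegral_const_mul _ (by fun_prop)]
    apply lintegral_mono
    intro ξ
    dsimp only
    rw [ball_CC]
    by_cases hξ : ξ = 0
    · rw [hξ, h0]
      simp
    have hx0 : ‖ξ‖ₑ ≠ 0 := enorm_ne_zero.2 hξ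
    have hxt : ‖ξ‖ₑ ≠ ∞ := enorm_ne_top
    have hxu : ‖ξ‖ₑ⁻¹ * ‖ξ‖ₑ = 1 := ENNReal.inv_mul_cancel hx0 hxt
    rw [show 2 * Real.pi * (b * ‖ξ‖) = (2 * Real.pi * b) * ‖ξ‖ by ring,
      ENNReal.ofReal_mul (by positivity), ofReal_norm]
    apply le_of_eq
    calc v ξ ^ 2 * ‖ξ‖ₑ⁻¹ * (ENNReal.ofReal (2 * Real.pi * b) * ‖ξ‖ₑ)
        = ENNReal.ofReal (2 * Real.pi * b) * v ξ ^ 2 * (‖ξ‖ₑ⁻¹ * ‖ξ‖ₑ) := by ring
      _ = _ := by rw [hxu, mul_one]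
  have h3 : ∫⁻ ξ, k ξ * ∫⁻ η, (if ‖η‖ ≤ b * ‖ξ‖ then v η ^ 2 * ‖η‖ₑ else 0) ≤
      ENNReal.ofReal (2 * Real.pi * b) * ∫⁻ ξ, v ξ ^ 2 := by
    rw [ton_CC b hb0 k _ hkm (by fun_prop), ← lintegral_const_mul _ (by fun_prop)]
    apply lintegral_mono
    intro η
    dsimp only
    by_cases hη : η = 0
    · rw [hη, h0]
      simp
    have hn : 0 < ‖η‖ := norm_pos_iff.2 hη
    rw [tail_CC 3 (‖η‖ / b) (by norm_num) (by positivity)]
    have hy0 : ‖η‖ₑ ≠ 0 := enorm_ne_zero.2 hη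
    have hyt : ‖η‖ₑ ≠ ∞ := enorm_ne_top
    have hyw : ‖η‖ₑ * ‖η‖ₑ⁻¹ = 1 := ENNReal.mul_inv_cancel hy0 hyt
    have h6 : 2 * Real.pi * ((‖η‖ / b) ^ ((2:ℝ) - 3) / (3 - 2)) =
        2 * Real.pi * b * ‖η‖⁻¹ := by
      have h7 : ((2:ℝ) - 3) = -1 := by norm_num
      rw [h7, Real.rpow_neg_one]
      field_simp
      norm_num
    rw [h6, ENNReal.ofReal_mul (by positivity), ENNReal.ofReal_inv_of_pos hn, ofReal_norm]
    apply le_of_eq
    calc v η ^ 2 * ‖η‖ₑ * (ENNReal.ofReal (2 * Real.pi * b) * ‖η‖ₑ⁻¹)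
        = ENNReal.ofReal (2 * Real.pi * b) * v η ^ 2 * (‖η‖ₑ * ‖η‖ₑ⁻¹) := by ring
      _ = _ := by rw [hyw, mul_one]
  have h4 : 2 * ∫⁻ ξ, v ξ / ‖ξ‖ₑ ^ 2 * G_CC v (b * ‖ξ‖) ≤
      2 * (ENNReal.ofReal (2 * Real.pi * b) * ∫⁻ ξ, v ξ ^ 2) := by
    rw [← lintegral_const_mul' _ _ (by finiteness)]
    calc ∫⁻ ξ, 2 * (v ξ / ‖ξ‖ₑ ^ 2 * G_CC v (b * ‖ξ‖))
        ≤ ∫⁻ ξ, ((v ξ ^ 2 * ‖ξ‖ₑ⁻¹) * (∫⁻ η : ℂ, (if ‖η‖ ≤ b * ‖ξ‖ then ‖η‖ₑ⁻¹ else 0)) +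
          k ξ * ∫⁻ η, (if ‖η‖ ≤ b * ‖ξ‖ then v η ^ 2 * ‖η‖ₑ else 0)) := lintegral_mono key
      _ = (∫⁻ ξ, ((v ξ ^ 2 * ‖ξ‖ₑ⁻¹) * (∫⁻ η : ℂ, (if ‖η‖ ≤ b * ‖ξ‖ then ‖η‖ₑ⁻¹ else 0)))) +
          ∫⁻ ξ, k ξ * ∫⁻ η, (if ‖η‖ ≤ b * ‖ξ‖ then v η ^ 2 * ‖η‖ₑ else 0) := by
          rw [lintegral_add_left]
          simp_rw [ball_CC]
          fun_prop
      _ ≤ _ := by
          rw [two_mul]
          exact add_le_add h2 h3
  exact (ENNReal.mul_le_mul_iff_right (by norm_num) (by norm_num)).1 h4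

theorem hCC : StCC := by
  intro b c r1 hb hc hr1 v hv hvc hv1 m hm
  change ∫⁻ ξ, v ξ / ‖ξ‖ₑ ^ 2 * G_CC v (b * ‖ξ‖) ^ m ≤ _
  have hb0 : 0 < b := by linarith
  induction m, hm using Nat.le_induction with
  | base =>
    have := base_CC b hb r1 hr1 v hv hv1
    simpa using this
  | succ n hn ih =>
    refine (recur_CC b hb c r1 hr1 v hv hvc hv1 n hn).trans ?_
    calc ENNReal.ofReal c * ((n + 1 : ℕ) : ℝ≥0∞) * ENNReal.ofReal (Real.pi * b ^ 2) *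
        ∫⁻ ξ, v ξ / ‖ξ‖ₑ ^ 2 * G_CC v (b * ‖ξ‖) ^ n ≤
        ENNReal.ofReal c * ((n + 1 : ℕ) : ℝ≥0∞) * ENNReal.ofReal (Real.pi * b ^ 2) *
          (ENNReal.ofReal (2 * Real.pi * b * n.factorial * (Real.pi * c * b ^ 2) ^ (n - 1)) *
            ∫⁻ ξ, v ξ ^ 2) := by gcongr
      _ = ENNReal.ofReal (2 * Real.pi * b * (n + 1).factorial *
            (Real.pi * c * b ^ 2) ^ (n + 1 - 1)) * ∫⁻ ξ, v ξ ^ 2 := by
          rw [← mul_assoc, ← ENNReal.ofReal_natCast, ← ENNReal.ofReal_mul hc,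
            ← ENNReal.ofReal_mul (by positivity), ← ENNReal.ofReal_mul (by positivity)]
          congr 2
          obtain ⟨k, rfl⟩ : ∃ k, n = k + 1 := ⟨n - 1, by omega⟩
          simp only [Nat.add_sub_cancel]
          rw [Nat.factorial_succ (k + 1)]
          push_cast
          ring

end Helper87.UB
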