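import Pool.Agent.Helper87.UB.St
import Pool.Agent.Helper72.BAM.PT1

/-!
# Project UB, module CD: assembly of CA, CB, CC
-/

set_option autoImplicit false

open MeasureTheory Complex FourierTransform
open scoped ENNReal NNReal

noncomputable section

namespace Helper87.UB

open Helper72.BA

private theorem iSup_mul_CD {f g : ℕ → ℝ≥0∞} (hf : Monotone f) (hg : Monotone g) :
    (⨆ n, f n) * (⨆ n, g n) = ⨆ n, f n * g n := by
  apply le_antisymm
  · rw [ENNReal.iSup_mul]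
    refine iSup_le fun i => ?_
    rw [ENNReal.mul_iSup]
    refine iSup_le fun j => ?_
    refine le_trans ?_ (le_iSup _ (max i j))
    exact mul_le_mul' (hf (le_max_left _ _)) (hg (le_max_right _ _))
  · refine iSup_le fun n => ?_
    exact mul_le_mul' (le_iSup f n) (le_iSup g n)

private theorem lc_ae_CD {a a' b b' : ℂ → ℝ≥0∞} (ha : a =ᵐ[volume] a') (hb : b =ᵐ[volume] b') :
    lc a b = lc a' b' := by
  funext s
  unfold lc
  apply lintegral_congr_ae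
  have h : ∀ᵐ t : ℂ, b (s - t) = b' (s - t) :=
    (Measure.measurePreserving_sub_left (volume : Measure ℂ) s).quasiMeasurePreserving.ae hb
  filter_upwards [ha, h] with t h1 h2
  rw [h1, h2]

/-- truncation to the annulus -/
private def vN_CD (v : ℂ → ℝ≥0∞) (N : ℕ) : ℂ → ℝ≥0∞ :=
  Set.indicator {ξ : ℂ | 1 / ((N : ℝ) + 1) ≤ ‖ξ‖ ∧ ‖ξ‖ ≤ N + 1} v

private theorem setN_meas_CD (N : ℕ) : MeasurableSet {ξ : ℂ | 1 / ((N : ℝ) + 1) ≤ ‖ξ‖ ∧ ‖ξ‖ ≤ N + 1} := by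
  apply MeasurableSet.inter
  · exact measurableSet_le measurable_const measurable_norm
  · exact measurableSet_le measurable_norm measurable_const

private theorem vN_meas_CD {v : ℂ → ℝ≥0∞} (hv : Measurable v) (N : ℕ) : Measurable (vN_CD v N) :=
  hv.indicator (setN_meas_CD N)

private theorem vN_mono_CD (v : ℂ → ℝ≥0∞) : Monotone (vN_CD v) := by
  intro N N' h ξ
  unfold vN_CD
  apply Set.indicator_le_indicator_of_subset
  · intro ξ hξ
    have hc : (N : ℝ) ≤ N' := by exact_mod_cast h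
    refine ⟨le_trans ?_ hξ.1, hξ.2.trans (by linarith)⟩
    apply one_div_le_one_div_of_le (by positivity)
    linarith
  · intro x
    exact bot_le

private theorem vN_le_CD (v : ℂ → ℝ≥0∞) (N : ℕ) (ξ : ℂ) : vN_CD v N ξ ≤ v ξ :=
  Set.indicator_le_self _ _ _

private theorem iSup_vN_CD (v : ℂ → ℝ≥0∞) (ξ : ℂ) (hξ : ξ ≠ 0) : ⨆ N, vN_CD v N ξ = v ξ := by
  apply le_antisymm (iSup_le fun N => vN_le_CD v N ξ)
  have h0 : 0 < ‖ξ‖ := norm_pos_iff.mpr hξ
  obtain ⟨n1, hn1⟩ := exists_nat_one_div_lt h0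
  obtain ⟨n2, hn2⟩ := exists_nat_gt ‖ξ‖
  refine le_trans ?_ (le_iSup _ (max n1 n2))
  unfold vN_CD
  rw [Set.indicator_of_mem]
  have hc1 : (n1 : ℝ) ≤ (max n1 n2 : ℕ) := by exact_mod_cast le_max_left _ _
  have hc2 : (n2 : ℝ) ≤ (max n1 n2 : ℕ) := by exact_mod_cast le_max_right _ _
  refine ⟨?_, by linarith⟩
  refine le_trans ?_ hn1.le
  apply one_div_le_one_div_of_le (by positivity)
  linarith

/-- `v` off `0` -/
private def v0_CD (v : ℂ → ℝ≥0∞) : ℂ → ℝ≥0∞ := fun ξ => ⨆ N, vN_CD v N ξ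

private theorem v0_ae_CD (v : ℂ → ℝ≥0∞) : v0_CD v =ᵐ[volume] v := by
  have h1 : ∀ᵐ ξ : ℂ, ξ ≠ 0 := by simp [ae_iff, measure_singleton]
  filter_upwards [h1] with ξ hξ
  exact iSup_vN_CD v ξ hξ

private theorem lcp_mono_CD {v : ℂ → ℝ≥0∞} (j : ℕ) : Monotone (fun N => lcp (vN_CD v N) j) := by
  induction j with
  | zero => exact vN_mono_CD v
  | succ j ih =>
    intro N N' h s
    show lc (lcp (vN_CD v N) j) (vN_CD v N) s ≤ lc (lcp (vN_CD v N') j) (vN_CD v N') s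
    unfold lc
    exact lintegral_mono fun t => mul_le_mul' (ih h t) (vN_mono_CD v h _)

private theorem lcp_iSup_CD {v : ℂ → ℝ≥0∞} (hv : Measurable v) (j : ℕ) (s : ℂ) :
    lcp (v0_CD v) j s = ⨆ N, lcp (vN_CD v N) j s := by
  induction j generalizing s with
  | zero => rfl
  | succ j ih =>
    show lc (lcp (v0_CD v) j) (v0_CD v) s = ⨆ N, lc (lcp (vN_CD v N) j) (vN_CD v N) s
    unfold lc
    have e : ∀ t, lcp (v0_CD v) j t * v0_CD v (s - t) =
        ⨆ N, lcp (vN_CD v N) j t * vN_CD v N (s - t) := by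
      intro t
      rw [ih t]
      exact iSup_mul_CD (fun N N' h => lcp_mono_CD j h t) (fun N N' h => vN_mono_CD v h _)
    simp_rw [e]
    rw [lintegral_iSup]
    · intro N
      have m1 := Helper72.BA.P.measurable_lcp (vN_meas_CD hv N) j
      have m2 := vN_meas_CD hv N
      fun_prop
    · intro N N' h t
      exact mul_le_mul' (lcp_mono_CD j h t) (vN_mono_CD v h _)

private theorem lcp_v0_CD (v : ℂ → ℝ≥0∞) (j : ℕ) : lcp (v0_CD v) (j + 1) = lcp v (j + 1) := by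
  induction j with
  | zero => exact lc_ae_CD (v0_ae_CD v) (v0_ae_CD v)
  | succ j ih =>
    show lc (lcp (v0_CD v) (j + 1)) (v0_CD v) = lc (lcp v (j + 1)) v
    rw [ih]
    exact lc_ae_CD (Filter.EventuallyEq.refl _ _) (v0_ae_CD v)

private theorem const_CD (k : ℕ) (hk : 2 ≤ k) (c : ℝ) (hc : 0 ≤ c) :
    2 * (k : ℝ) * ((2 * k - 1 : ℕ) : ℝ) ^ 3 * c *
      (2 * Real.pi * (1 + 1 / (k : ℝ)) * ((2 * k - 2 : ℕ).factorial : ℝ) *
        (Real.pi * c * (1 + 1 / (k : ℝ)) ^ 2) ^ (2 * k - 2 - 1)) ≤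
      500 * k ^ 2 * (2 * k).factorial * (Real.pi * c) ^ (2 * k - 2) := by
  obtain ⟨j, rfl⟩ : ∃ j, k = j + 2 := ⟨k - 2, by omega⟩
  have e1 : 2 * (j + 2) - 1 = 2 * j + 3 := by omega
  have e2 : 2 * (j + 2) - 2 = 2 * j + 2 := by omega
  have e3 : 2 * (j + 2) - 2 - 1 = 2 * j + 1 := by omega
  rw [e1, e2, show 2 * j + 2 - 1 = 2 * j + 1 by omega]
  set K : ℝ := ((j + 2 : ℕ) : ℝ) with hK
  have hK2 : (2 : ℝ) ≤ K := by rw [hK]; push_cast; linarith [(Nat.cast_nonneg j : (0:ℝ) ≤ j)]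
  set b : ℝ := 1 + 1 / K with hb
  have hb1 : 0 < b := by rw [hb]; positivity
  have hfac : (((2 * (j + 2) : ℕ)).factorial : ℝ) = (2 * K) * (2 * K - 1) * ((2 * j + 2).factorial : ℝ) := by
    have : (2 * (j + 2)) = (2 * j + 2) + 1 + 1 := by ring
    rw [this, Nat.factorial_succ, Nat.factorial_succ]
    push_cast
    rw [hK]
    push_cast
    ring
  have h21 : ((2 * j + 3 : ℕ) : ℝ) = 2 * K - 1 := by rw [hK]; push_cast; ring
  rw [hfac, h21]
  -- the power of b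
  have hbp : b ^ (4 * j + 3) ≤ 55 := by
    have h1 : b ≤ Real.exp (1 / K) := by
      rw [hb, add_comm]; exact Real.add_one_le_exp _
    have h2 : b ^ (4 * j + 3) ≤ Real.exp (1 / K) ^ (4 * j + 3) := by gcongr
    have h3 : Real.exp (1 / K) ^ (4 * j + 3) ≤ Real.exp 4 := by
      rw [← Real.exp_nat_mul]
      apply Real.exp_le_exp.mpr
      rw [mul_one_div, div_le_iff₀ (by positivity)]
      rw [hK]
      push_cast
      linarith
    have h4 : Real.exp 4 ≤ 55 := by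
      have h5 : Real.exp 4 = Real.exp 1 ^ 4 := by rw [← Real.exp_nat_mul]; norm_num
      rw [h5]
      have := Real.exp_one_lt_d9
      have h6 : Real.exp 1 ^ 4 ≤ (2.7182818286 : ℝ) ^ 4 := by
        gcongr
      refine h6.trans ?_
      norm_num
    exact (h2.trans h3).trans h4
  have hpc : 0 ≤ Real.pi * c := by positivity
  have eq1 : 2 * K * (2 * K - 1) ^ 3 * c *
      (2 * Real.pi * b * ((2 * j + 2).factorial : ℝ) * (Real.pi * c * b ^ 2) ^ (2 * j + 1)) =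
      (2 * (2 * K - 1) ^ 2 * b ^ (4 * j + 3)) *
        ((2 * K) * (2 * K - 1) * ((2 * j + 2).factorial : ℝ)) * (Real.pi * c) ^ (2 * j + 2) := by
    rw [mul_pow (Real.pi * c), ← pow_mul]
    have : b ^ (2 * (2 * j + 1)) * b = b ^ (4 * j + 3) := by
      rw [← pow_succ]; congr 1; ring
    rw [← this, show 2 * j + 2 = (2 * j + 1) + 1 by ring, pow_succ (Real.pi * c)]
    ring
  rw [eq1]
  have h7 : 2 * (2 * K - 1) ^ 2 * b ^ (4 * j + 3) ≤ 500 * K ^ 2 := by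
    have h8 : (2 * K - 1) ^ 2 ≤ 4 * K ^ 2 := by nlinarith
    calc 2 * (2 * K - 1) ^ 2 * b ^ (4 * j + 3) ≤ 2 * (4 * K ^ 2) * 55 := by gcongr
      _ ≤ 500 * K ^ 2 := by nlinarith [sq_nonneg K]
  have h9 : 0 ≤ 2 * K - 1 := by linarith
  gcongr

theorem hCD (hA : StCA) (hB : StCB) (hC : StCC) : StCD := by
  intro k hk c hc v hv hvc
  have hk0 : (0 : ℝ) < k := by positivity
  -- the truncated functions
  have key : ∀ N : ℕ, ∫⁻ s, lcp (vN_CD v N) (k - 1) s ^ 2 ≤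
      ENNReal.ofReal (500 * k ^ 2 * (2 * k).factorial * (Real.pi * c) ^ (2 * k - 2)) * ∫⁻ ξ, v ξ ^ 2 := by
    intro N
    set w := vN_CD v N with hw
    have hwm : Measurable w := vN_meas_CD hv N
    set b : ℝ := 1 + 1 / (k : ℝ) with hb
    have hb1 : 1 < b := by rw [hb]; linarith [one_div_pos.mpr hk0]
    have hr1 : 0 < 1 / ((N : ℝ) + 1) := by positivity
    have hsupp : ∀ ξ, w ξ ≠ 0 → 1 / ((N : ℝ) + 1) ≤ ‖ξ‖ ∧ ‖ξ‖ ≤ N + 1 := by
      intro ξ hξ
      have := Set.mem_of_indicator_ne_zero (s := {ξ : ℂ | 1 / ((N : ℝ) + 1) ≤ ‖ξ‖ ∧ ‖ξ‖ ≤ N + 1}) (f := v) hξ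
      exact this
    have hwc : ∀ ξ, ‖ξ‖ₑ ^ 2 * w ξ ≤ ENNReal.ofReal c := fun ξ =>
      le_trans (by gcongr; exact vN_le_CD v N ξ) (hvc ξ)
    have h1 := hA k hk b (1 / ((N : ℝ) + 1)) (N + 1) hb1 hr1 w hwm hsupp
    have h2 : ∫⁻ ξ, w ξ * Tp (tr w (b * ‖ξ‖)) k ξ ≤
        ((2 * k - 1 : ℕ) : ℝ≥0∞) ^ 3 * ENNReal.ofReal c *
          ∫⁻ ξ, w ξ / ‖ξ‖ₑ ^ 2 * (∫⁻ η, tr w (b * ‖ξ‖) η) ^ (2 * k - 2) := by
      rw [← lintegral_const_mul' _ _ (by finiteness)]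
      refine lintegral_mono fun ξ => ?_
      by_cases hξ : ξ = 0
      · have : w ξ = 0 := by
          by_contra h
          have := (hsupp ξ h).1
          rw [hξ, norm_zero] at this
          linarith
        simp [this]
      · have hm : Measurable (tr w (b * ‖ξ‖)) := hwm.indicator Metric.isClosed_closedBall.measurableSet
        have hcc : ∀ η, ‖η‖ₑ ^ 2 * tr w (b * ‖ξ‖) η ≤ ENNReal.ofReal c := fun η =>
          le_trans (by gcongr; exact Set.indicator_le_self _ _ _) (hwc η)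
        have h3 := hB k hk (ENNReal.ofReal c) (tr w (b * ‖ξ‖)) hm hcc ξ hξ
        calc w ξ * Tp (tr w (b * ‖ξ‖)) k ξ ≤ w ξ * (((2 * k - 1 : ℕ) : ℝ≥0∞) ^ 3 *
              (ENNReal.ofReal c / ‖ξ‖ₑ ^ 2) * (∫⁻ η, tr w (b * ‖ξ‖) η) ^ (2 * k - 2)) := by gcongr
          _ = ((2 * k - 1 : ℕ) : ℝ≥0∞) ^ 3 * ENNReal.ofReal c *
              (w ξ / ‖ξ‖ₑ ^ 2 * (∫⁻ η, tr w (b * ‖ξ‖) η) ^ (2 * k - 2)) := by
            simp only [div_eq_mul_inv]
            ring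
    have h3 := hC b c (1 / ((N : ℝ) + 1)) hb1 hc hr1 w hwm hwc (fun ξ hξ => (hsupp ξ hξ).1)
      (2 * k - 2) (by omega)
    have hcon := const_CD k hk c hc
    have hb0 : 0 < b := by linarith
    calc ∫⁻ s, lcp w (k - 1) s ^ 2 ≤ 2 * (k : ℝ≥0∞) * ∫⁻ ξ, w ξ * Tp (tr w (b * ‖ξ‖)) k ξ := h1
      _ ≤ 2 * (k : ℝ≥0∞) * (((2 * k - 1 : ℕ) : ℝ≥0∞) ^ 3 * ENNReal.ofReal c *
          (ENNReal.ofReal (2 * Real.pi * b * (2 * k - 2).factorial *
            (Real.pi * c * b ^ 2) ^ (2 * k - 2 - 1)) * ∫⁻ ξ, w ξ ^ 2)) := by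
          gcongr
          exact h2.trans (by gcongr)
      _ = ENNReal.ofReal (2 * (k : ℝ) * ((2 * k - 1 : ℕ) : ℝ) ^ 3 * c *
            (2 * Real.pi * b * ((2 * k - 2 : ℕ).factorial : ℝ) *
            (Real.pi * c * b ^ 2) ^ (2 * k - 2 - 1))) * ∫⁻ ξ, w ξ ^ 2 := by
          set X : ℝ := 2 * Real.pi * b * ((2 * k - 2 : ℕ).factorial : ℝ) *
            (Real.pi * c * b ^ 2) ^ (2 * k - 2 - 1) with hX
          have hX0 : 0 ≤ X := by rw [hX]; positivity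
          have e1 : ENNReal.ofReal (2 * (k : ℝ) * ((2 * k - 1 : ℕ) : ℝ) ^ 3 * c * X) =
              2 * (k : ℝ≥0∞) * (((2 * k - 1 : ℕ) : ℝ≥0∞) ^ 3 * ENNReal.ofReal c * ENNReal.ofReal X) := by
            rw [ENNReal.ofReal_mul (by positivity), ENNReal.ofReal_mul (by positivity),
              ENNReal.ofReal_mul (by positivity), ENNReal.ofReal_mul (by positivity),
              ENNReal.ofReal_pow (by positivity), ENNReal.ofReal_natCast, ENNReal.ofReal_natCast]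
            have : ENNReal.ofReal 2 = 2 := by simp
            rw [this]
            ring
          rw [e1]
          ring
      _ ≤ ENNReal.ofReal (500 * k ^ 2 * (2 * k).factorial * (Real.pi * c) ^ (2 * k - 2)) *
            ∫⁻ ξ, v ξ ^ 2 := by
          gcongr
          exact vN_le_CD v N _
  -- monotone convergence
  obtain ⟨j, rfl⟩ : ∃ j, k = j + 2 := ⟨k - 2, by omega⟩
  have e1 : j + 2 - 1 = j + 1 := by omega
  rw [e1] at key ⊢
  have h4 : ∀ s, lcp v (j + 1) s ^ 2 = ⨆ N, lcp (vN_CD v N) (j + 1) s ^ 2 := by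
    intro s
    rw [← lcp_v0_CD v j, lcp_iSup_CD hv (j + 1) s, sq,
      iSup_mul_CD (fun N N' h => lcp_mono_CD (j + 1) h s) (fun N N' h => lcp_mono_CD (j + 1) h s)]
    simp_rw [sq]
  simp_rw [h4]
  rw [lintegral_iSup]
  · exact iSup_le key
  · intro N
    exact (Helper72.BA.P.measurable_lcp (vN_meas_CD hv N) (j + 1)).pow_const 2
  · intro N N' h s
    exact pow_le_pow_left' (lcp_mono_CD (j + 1) h s) 2

end Helper87.UB
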