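import Pool.Agent.Helper87.UB.St
import Pool.Agent.Helper72.BAM.KE4

set_option autoImplicit false

open MeasureTheory Complex
open scoped ENNReal NNReal

noncomputable section

namespace Helper87.UB

open Helper72.BA

/-- bound of one annulus, where `f` may be nonzero only on the displacement set `S` -/
private theorem gj_le_FA {n : ℕ} {j : ℤ} {f : ℂ → ℂ} (hf1 : ∀ z, ‖f z‖ ≤ 1) (y : ℂ) (S : Set ℂ)
    (hS : MeasurableSet S) (h : ∀ w, f w ≠ 0 → y - w ∈ S) :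
    ‖gj n j f y‖ₑ ≤ ∫⁻ u in S, ‖KK n j u‖ₑ := by
  calc ‖gj n j f y‖ₑ = ‖∫ w, KK n j (y - w) * f w‖ₑ := rfl
    _ ≤ ∫⁻ w, ‖KK n j (y - w) * f w‖ₑ := enorm_integral_le_lintegral_enorm _
    _ ≤ ∫⁻ w, S.indicator (fun u => ‖KK n j u‖ₑ) (y - w) := by
        refine lintegral_mono fun w => ?_
        by_cases hw : f w = 0
        · simp [hw]
        · rw [Set.indicator_of_mem (h w hw), enorm_mul]
          calc ‖KK n j (y - w)‖ₑ * ‖f w‖ₑ ≤ ‖KK n j (y - w)‖ₑ * 1 := by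
                refine mul_le_mul_right ?_ _
                rw [← ofReal_norm, ← ENNReal.ofReal_one]
                exact ENNReal.ofReal_le_ofReal (hf1 w)
            _ = ‖KK n j (y - w)‖ₑ := mul_one _
    _ = ∫⁻ u, S.indicator (fun u => ‖KK n j u‖ₑ) u :=
        lintegral_sub_left_eq_self (fun u => S.indicator (fun u => ‖KK n j u‖ₑ) u) y
    _ = ∫⁻ u in S, ‖KK n j u‖ₑ := lintegral_indicator hS _

private theorem norm_le_of_enorm_FA {z : ℂ} {c : ℝ} (hc : 0 ≤ c) (h : ‖z‖ₑ ≤ ENNReal.ofReal c) :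
    ‖z‖ ≤ c := by
  rw [← ofReal_norm] at h
  exact (ENNReal.ofReal_le_ofReal_iff hc).1 h

private theorem sum_geom_FA (a : ℤ) (N : ℕ) :
    ∑ j ∈ Finset.Ico a (a + N), (2:ℝ) ^ (a - j) ≤ 2 - 2 * (2:ℝ) ^ (-(N:ℤ)) := by
  induction N with
  | zero => simp
  | succ N ih =>
    have e : Finset.Ico a (a + ((N + 1 : ℕ) : ℤ)) = insert (a + N) (Finset.Ico a (a + N)) := by
      ext x
      simp only [Finset.mem_Ico, Finset.mem_insert]
      push_cast
      omega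
    rw [e, Finset.sum_insert (by simp)]
    have h1 : (2:ℝ) ^ (a - (a + N)) = (2:ℝ) ^ (-(N:ℤ)) := by congr 1; ring
    have h2 : (2:ℝ) ^ (-((N + 1 : ℕ) : ℤ)) = (2:ℝ) ^ (-(N:ℤ)) / 2 := by
      rw [show (-((N + 1 : ℕ) : ℤ)) = -(N:ℤ) - 1 by push_cast; ring, zpow_sub_one₀ (by norm_num)]
      rfl
    rw [h1, h2]
    linarith

private theorem sum_geom_le_FA (a b : ℤ) : ∑ j ∈ Finset.Ico a b, (2:ℝ) ^ (a - j) ≤ 2 := by
  rcases le_or_gt b a with h | h
  · rw [Finset.Ico_eq_empty (by omega)]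
    simp
  · obtain ⟨N, rfl⟩ : ∃ N : ℕ, b = a + N := ⟨(b - a).toNat, by omega⟩
    refine (sum_geom_FA a N).trans ?_
    have : (0:ℝ) < (2:ℝ) ^ (-(N:ℤ)) := by positivity
    linarith

theorem hFA : StFA := by
  obtain ⟨C1, hC1, h1⟩ := kernel_L1
  obtain ⟨C2, hC2, h2⟩ := kernel_tail
  refine ⟨C1 + 2 * C2, by positivity, fun n hn f _ hf1 => ⟨?_, ?_⟩⟩
  · intro a b x0 hx0 y hy
    have hn0 : (1:ℝ) ≤ n := by exact_mod_cast hn
    have hj : ∀ j : ℤ, ‖gj n j f y‖ ≤ C2 * n * (2:ℝ) ^ (a - j) := by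
      intro j
      have hL : (0:ℝ) < (2:ℝ) ^ (j - a) := by positivity
      have hS : MeasurableSet {z : ℂ | (2:ℝ) ^ (j - a) * n * (2:ℝ) ^ (-j) < ‖z‖} :=
        measurableSet_lt measurable_const measurable_norm
      have hLe : (2:ℝ) ^ (j - a) * n * (2:ℝ) ^ (-j) = n * (2:ℝ) ^ (-a) := by
        rw [mul_comm ((2:ℝ) ^ (j - a)) (n:ℝ), mul_assoc, ← zpow_add₀ (by norm_num)]
        congr 2
        ring
      have hmem : ∀ w, f w ≠ 0 → y - w ∈ {z : ℂ | (2:ℝ) ^ (j - a) * n * (2:ℝ) ^ (-j) < ‖z‖} := by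
        intro w hw
        have h3 : 4 * n * (2:ℝ) ^ (-a) < ‖w - x0‖ := by
          by_contra hcon
          exact hw (hx0 w (not_lt.1 hcon))
        have h4 : ‖w - x0‖ ≤ ‖y - w‖ + ‖y - x0‖ := by
          have := norm_sub_le (y - x0) (y - w)
          rw [show y - x0 - (y - w) = w - x0 by ring] at this
          linarith
        have h5 : (0:ℝ) < (2:ℝ) ^ (-a) := by positivity
        show (2:ℝ) ^ (j - a) * n * (2:ℝ) ^ (-j) < ‖y - w‖
        rw [hLe]
        nlinarith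
      have h6 := (gj_le_FA (n := n) (j := j) hf1 y _ hS hmem).trans (h2 n hn j _ hL)
      refine (norm_le_of_enorm_FA (by positivity) h6).trans (le_of_eq ?_)
      rw [div_eq_mul_inv, ← zpow_neg, neg_sub]
    calc ‖gW n (Finset.Ico a b) f y‖ = ‖∑ j ∈ Finset.Ico a b, gj n j f y‖ := rfl
      _ ≤ ∑ j ∈ Finset.Ico a b, ‖gj n j f y‖ := norm_sum_le _ _
      _ ≤ ∑ j ∈ Finset.Ico a b, C2 * n * (2:ℝ) ^ (a - j) := Finset.sum_le_sum fun j _ => hj j
      _ = C2 * n * ∑ j ∈ Finset.Ico a b, (2:ℝ) ^ (a - j) := by rw [Finset.mul_sum]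
      _ ≤ C2 * n * 2 := by
          refine mul_le_mul_of_nonneg_left (sum_geom_le_FA a b) (by positivity)
      _ ≤ (C1 + 2 * C2) * n := by nlinarith
  · intro j y
    have hn0 : (1:ℝ) ≤ n := by exact_mod_cast hn
    have h3 := (gj_le_FA (n := n) (j := j) hf1 y Set.univ MeasurableSet.univ
      (fun _ _ => Set.mem_univ _))
    rw [Measure.restrict_univ] at h3
    refine (norm_le_of_enorm_FA (by positivity) (h3.trans (h1 n hn j))).trans ?_
    nlinarith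

end Helper87.UB
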