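import Pool.Agent.Helper87.UB.St
import Pool.Agent.Helper72.BAM.EB
import Pool.Agent.Helper72.BAM.LM
import Pool.Agent.Helper72.BAM.Fin
import Pool.Agent.Helper72.BQM.Main

set_option autoImplicit false

open MeasureTheory Complex FourierTransform Filter Topology
open scoped ENNReal NNReal ComplexConjugate

noncomputable section

namespace Helper87.UB

open Helper72.BA

/-- `m! ≤ m^(m+1) e^(1-m)` -/
private lemma fact_FN : ∀ m : ℕ, 1 ≤ m →
    (m.factorial : ℝ) ≤ (m:ℝ) ^ (m + 1) * Real.exp (1 - m) := by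
  intro m hm
  induction m, hm using Nat.le_induction with
  | base => simp
  | succ m hm ih =>
    have hm0 : (0:ℝ) < m := by exact_mod_cast hm
    have h1 : Real.exp 1 ≤ (((m:ℝ) + 1) / m) ^ (m + 1) := by
      have h2 : 1 / ((m:ℝ) + 1) ≤ Real.log (((m:ℝ) + 1) / m) := by
        have h3 := Real.one_sub_inv_le_log_of_pos (by positivity : 0 < ((m:ℝ) + 1) / m)
        refine le_trans (le_of_eq ?_) h3
        field_simp
        ring
      have h4 : 1 ≤ ((m + 1 : ℕ) : ℝ) * Real.log (((m:ℝ) + 1) / m) := by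
        have := mul_le_mul_of_nonneg_left h2 (by positivity : (0:ℝ) ≤ ((m + 1 : ℕ) : ℝ))
        refine le_trans (le_of_eq ?_) this
        push_cast
        field_simp
      calc Real.exp 1 ≤ Real.exp (((m + 1 : ℕ) : ℝ) * Real.log (((m:ℝ) + 1) / m)) :=
            Real.exp_le_exp.2 h4
        _ = (((m:ℝ) + 1) / m) ^ (m + 1) := by
            rw [Real.exp_nat_mul, Real.exp_log (by positivity)]
    have h5 : (m:ℝ) ^ (m + 1) * Real.exp 1 ≤ ((m:ℝ) + 1) ^ (m + 1) := by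
      have := mul_le_mul_of_nonneg_left h1 (by positivity : (0:ℝ) ≤ (m:ℝ) ^ (m + 1))
      refine this.trans (le_of_eq ?_)
      rw [div_pow]
      field_simp
    rw [Nat.factorial_succ]
    push_cast
    calc ((m:ℝ) + 1) * (m.factorial : ℝ)
        ≤ ((m:ℝ) + 1) * ((m:ℝ) ^ (m + 1) * Real.exp (1 - m)) := by gcongr
      _ = ((m:ℝ) + 1) * ((m:ℝ) ^ (m + 1) * Real.exp 1 * Real.exp (1 - (m + 1))) := by
          rw [mul_assoc ((m:ℝ) ^ (m + 1)), ← Real.exp_add]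
          congr 3
          ring
      _ ≤ ((m:ℝ) + 1) * (((m:ℝ) + 1) ^ (m + 1) * Real.exp (1 - (m + 1))) := by
          gcongr
      _ = ((m:ℝ) + 1) ^ (m + 1 + 1) * Real.exp (1 - (m + 1)) := by ring

/-- the small constant -/
private lemma rho_FN (C ε : ℝ) (hC : 0 < C) (hε : 0 < ε) (hε1 : ε ≤ 1 / 6) : ∃ k : ℕ, 2 ≤ k ∧
    72000 * (k:ℝ) ^ 2 * (2 * k).factorial / (2 * k : ℝ) ^ (2 * k) *
      Real.exp (2 + (2 * k + C) / (1 + 6 * ε) + 1) ≤ 1 / 2 := by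
  have ht : Tendsto (fun x : ℝ => x ^ 3 * Real.exp (-x)) atTop (𝓝 0) :=
    Real.tendsto_pow_mul_exp_neg_atTop_nhds_zero 3
  have ht2 : Tendsto (fun k : ℕ => (6 * ε * (k:ℝ)) ^ 3 * Real.exp (-(6 * ε * (k:ℝ)))) atTop (𝓝 0) := by
    refine ht.comp ?_
    exact (tendsto_natCast_atTop_atTop).const_mul_atTop (by positivity)
  set c : ℝ := 144000 * Real.exp (4 + C) / (6 * ε) ^ 3 with hc
  have hc0 : 0 < c := by positivity
  have hev := (ht2.eventually (gt_mem_nhds (show (0:ℝ) < 1 / 2 / c by positivity))).and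
    (eventually_ge_atTop 2)
  obtain ⟨k, hk1, hk2⟩ := hev.exists
  refine ⟨k, hk2, ?_⟩
  have hk0 : (0:ℝ) < k := by exact_mod_cast (by omega : 0 < k)
  have hf := fact_FN (2 * k) (by omega)
  push_cast at hf
  have hpow : (0:ℝ) < (2 * k : ℝ) ^ (2 * k) := by positivity
  have h1 : 72000 * (k:ℝ) ^ 2 * (2 * k).factorial / (2 * k : ℝ) ^ (2 * k) ≤
      144000 * (k:ℝ) ^ 3 * Real.exp (1 - 2 * k) := by
    rw [div_le_iff₀ hpow]
    calc 72000 * (k:ℝ) ^ 2 * ((2 * k).factorial : ℝ)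
        ≤ 72000 * (k:ℝ) ^ 2 * ((2 * k : ℝ) ^ (2 * k + 1) * Real.exp (1 - 2 * k)) := by gcongr
      _ = 144000 * (k:ℝ) ^ 3 * Real.exp (1 - 2 * k) * (2 * k : ℝ) ^ (2 * k) := by
          rw [pow_succ]; ring
  have h2 : (2 * k + C) / (1 + 6 * ε) ≤ C + 2 * k - 6 * ε * k := by
    rw [div_le_iff₀ (by positivity)]
    have : 0 ≤ (k:ℝ) * (6 * ε - 36 * ε ^ 2) := by
      apply mul_nonneg hk0.le
      nlinarith
    nlinarith [mul_pos hC hε]
  calc 72000 * (k:ℝ) ^ 2 * (2 * k).factorial / (2 * k : ℝ) ^ (2 * k) *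
      Real.exp (2 + (2 * k + C) / (1 + 6 * ε) + 1)
      ≤ 144000 * (k:ℝ) ^ 3 * Real.exp (1 - 2 * k) *
        Real.exp (2 + (C + 2 * k - 6 * ε * k) + 1) := by
        gcongr
    _ = c * ((6 * ε * (k:ℝ)) ^ 3 * Real.exp (-(6 * ε * (k:ℝ)))) := by
        rw [mul_assoc, ← Real.exp_add, hc]
        have e1 : (1 - 2 * (k:ℝ) + (2 + (C + 2 * k - 6 * ε * k) + 1)) =
          (4 + C) + (-(6 * ε * (k:ℝ))) := by ring
        rw [e1, Real.exp_add]
        field_simp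
    _ ≤ c * (1 / 2 / c) := by
        have := hk1.le
        gcongr
    _ = 1 / 2 := by field_simp

/-- `(1-δ)^(-p) ≤ exp (p δ + 1)` -/
private lemma rpow_FN (K0 p : ℝ) (hK : 1 ≤ K0) (hp : 2 * K0 ^ 2 ≤ p) :
    (1 - K0 / p) ^ (-p) ≤ Real.exp (K0 + 1) := by
  have hp0 : 0 < p := by nlinarith
  have hK0 : 0 < K0 := by linarith
  set δ : ℝ := K0 / p with hδ
  have hδ0 : 0 < δ := by positivity
  have hδ1 : δ ≤ 1 / 2 := by
    rw [hδ, div_le_iff₀ hp0]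
    nlinarith
  have hpos : 0 < 1 - δ := by linarith
  rw [Real.rpow_def_of_pos hpos]
  apply Real.exp_le_exp.2
  have h1 : -(δ + 2 * δ ^ 2) ≤ Real.log (1 - δ) := by
    have h2 := Real.one_sub_inv_le_log_of_pos hpos
    have h4 : (1 - δ)⁻¹ ≤ 1 + δ + 2 * δ ^ 2 := by
      rw [inv_le_iff_one_le_mul₀ hpos]
      nlinarith [mul_nonneg hδ0.le hδ0.le, mul_nonneg (mul_nonneg hδ0.le hδ0.le)
        (by linarith : 0 ≤ 1 - 2 * δ)]
    linarith
  have h8 : Real.log (1 - δ) * (-p) ≤ (δ + 2 * δ ^ 2) * p := by nlinarith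
  have h9 : δ * p = K0 := by rw [hδ]; field_simp
  have h10 : 2 * δ ^ 2 * p ≤ 1 := by
    have : 2 * δ ^ 2 * p = 2 * K0 ^ 2 / p := by rw [hδ]; field_simp
    rw [this, div_le_one hp0]
    linarith
  nlinarith

/-- all large exponents at once, for the truncated operators -/
theorem large_FN (hS : StSP) (hG : StGL) (ε : ℝ) (hε : 0 < ε) (hε1 : ε ≤ 1) :
    ∃ (p1 : ℝ) (N : ℕ), ∀ n : ℕ, N ≤ n → ∀ p : ℝ, p1 ≤ p → ∀ (M : ℕ) (f : ℂ → ℂ), Nice f →
      ∫⁻ z, ‖gW n (Finset.Ico (-M : ℤ) M) f z‖ₑ ^ p ≤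
        ENNReal.ofReal (((1 + ε) * (n:ℝ) ^ (1 - 2 / p) * p) ^ p) * ∫⁻ z, ‖f z‖ₑ ^ p := by
  obtain ⟨C, hC, hSP⟩ := hS
  set e : ℝ := ε / 12 with he
  have he0 : 0 < e := by positivity
  have he1 : e ≤ 1 / 6 := by rw [he]; linarith
  obtain ⟨k, hk, hρ⟩ := rho_FN C e hC he0 he1
  set ρ : ℝ := 72000 * (k:ℝ) ^ 2 * (2 * k).factorial / (2 * k : ℝ) ^ (2 * k) with hρdef
  have hρ0 : 0 ≤ ρ := by positivity
  obtain ⟨n0, hn0⟩ := hSP k hk
  obtain ⟨n1, hn1⟩ := P.even_bound k hk 1 one_pos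
  set K0 : ℝ := 2 + (2 * k + C) / (1 + 6 * e) with hK0
  have hk0 : (0:ℝ) < k := by exact_mod_cast (by omega : 0 < k)
  have hK1 : 1 ≤ K0 := by
    have : 0 < (2 * k + C) / (1 + 6 * e) := by positivity
    linarith
  have hρ1 : ρ ≤ 1 := by
    have h1 : 1 ≤ Real.exp (K0 + 1) := Real.one_le_exp (by linarith)
    have h2 : ρ * 1 ≤ ρ * Real.exp (K0 + 1) := mul_le_mul_of_nonneg_left h1 hρ0
    have h3 : ρ * Real.exp (K0 + 1) ≤ 1 / 2 := hρ
    linarith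
  -- the last constant
  have hAk : 0 < Ak k := P.Ak_pos k (by omega)
  set B : ℝ := 16 * Ak k ^ (2 * k) with hB
  have hB0 : 0 < B := by positivity
  have hratio : 1 < (1 + ε) / (1 + 6 * e) := by
    rw [one_lt_div (by positivity)]
    rw [he]; linarith
  obtain ⟨m, hm⟩ := pow_unbounded_of_one_lt B hratio
  refine ⟨max (max (2 * K0 ^ 2) (4 * k)) (max m 3), max (max n0 n1) 1, fun n hn p hp M f hf => ?_⟩
  have hnn0 : n0 ≤ n := (le_trans (le_max_left _ _) (le_max_left _ _)).trans hn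
  have hnn1 : n1 ≤ n := (le_trans (le_max_right _ _) (le_max_left _ _)).trans hn
  have hn1' : 1 ≤ n := (le_max_right _ _).trans hn
  have hnpos : (0:ℝ) < n := by exact_mod_cast hn1'
  have hp1 : 2 * K0 ^ 2 ≤ p := (le_trans (le_max_left _ _) (le_max_left _ _)).trans hp
  have hp2 : 4 * (k:ℝ) ≤ p := (le_trans (le_max_right _ _) (le_max_left _ _)).trans hp
  have hp3 : (m:ℝ) ≤ p := (le_trans (le_max_left _ _) (le_max_right _ _)).trans hp
  have hp4 : (3:ℝ) ≤ p := (le_trans (le_max_right _ _) (le_max_right _ _)).trans hp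
  have hp0 : 0 < p := by linarith
  set T : (ℂ → ℂ) → ℂ → ℂ := fun f => gW n (Finset.Ico (-M : ℤ) M) f with hT
  set σ : ℝ := (2 * k + C) * n with hσ
  set θ : ℝ := (1 + 6 * e) * n * p with hθ
  have hσ0 : 0 < σ := by positivity
  have hθ0 : 0 < θ := by positivity
  have hδ : 2 / p + σ / θ = K0 / p := by
    rw [hσ, hθ, hK0]
    field_simp
  have hδ1 : K0 / p < 1 := by
    rw [div_lt_one hp0]
    nlinarith
  have hsmall : ρ * (1 - (2 / p + σ / θ)) ^ (-p) ≤ 1 / 2 := by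
    rw [hδ]
    refine le_trans ?_ hρ
    exact mul_le_mul_of_nonneg_left (rpow_FN K0 p hK1 hp1) hρ0
  have hTn := P.nice_gW n (Finset.Ico (-M : ℤ) M) hf
  have hfin : ∫⁻ z, ‖T f z‖ₑ ^ p ≠ ∞ := by
    obtain ⟨D, hD⟩ := hTn.bdd
    have hD0 : 0 ≤ D := (norm_nonneg _).trans (hD 0)
    have h1 : ∫⁻ z, ‖T f z‖ₑ ^ p ≤ ∫⁻ z, ENNReal.ofReal D ^ (p - 1) * ‖T f z‖ₑ := by
      refine lintegral_mono fun z => ?_
      have h2 : ‖T f z‖ₑ ^ p = ‖T f z‖ₑ ^ (p - 1) * ‖T f z‖ₑ := by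
        rcases eq_or_ne (‖T f z‖ₑ) 0 with h0 | h0
        · rw [h0, ENNReal.zero_rpow_of_pos hp0, mul_zero]
        · have h3 : ‖T f z‖ₑ ^ (p - 1) * ‖T f z‖ₑ = ‖T f z‖ₑ ^ (p - 1) * ‖T f z‖ₑ ^ (1:ℝ) := by
            rw [ENNReal.rpow_one]
          rw [h3, ← ENNReal.rpow_add _ _ h0 (by finiteness)]
          congr 1
          ring
      rw [h2]
      refine mul_le_mul_left (ENNReal.rpow_le_rpow ?_ (by linarith)) _
      rw [← ofReal_norm]
      exact ENNReal.ofReal_le_ofReal (hD z)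
    refine ne_top_of_le_ne_top ?_ h1
    rw [lintegral_const_mul _ hTn.meas.enorm]
    refine ENNReal.mul_ne_top ?_ ?_
    · exact ENNReal.rpow_ne_top_of_nonneg (by linarith) ENNReal.ofReal_ne_top
    · exact hTn.int.hasFiniteIntegral.ne
  have key := hG T (fun f hf => (P.nice_gW n _ hf).meas)
    (fun f g hf hg => P.gW_add n _ hf hg) (fun c f _ => P.gW_smul n _ f c)
    (2 * k) σ ρ ((1 + 1) * Ak k ^ (2 * k) * (n:ℝ) ^ (2 * k - 2)) (by omega) hσ0 hρ0 hρ1 (by positivity)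
    (fun f hf hf1 t ht => hn0 n hnn0 M f hf hf1 t ht)
    (fun f hf => hn1 n hnn1 M f hf)
    p θ (by push_cast; linarith) hθ0 (by rw [hδ]; exact hδ1) hsmall f hf hfin
  refine key.trans ?_
  gcongr
  push_cast
  -- numbers
  have e1 : θ ^ (p - 2 * k) ≤ (1 + 6 * e) ^ p * ((n:ℝ) ^ (p - 2 * k) * p ^ (p - 2 * k)) := by
    rw [hθ, Real.mul_rpow (by positivity) hp0.le, Real.mul_rpow (by positivity) hnpos.le, mul_assoc]
    gcongr
    · linarith
    · linarith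
  have e2 : (n:ℝ) ^ (2 * k - 2) * (n:ℝ) ^ (p - 2 * k) = (n:ℝ) ^ (p - 2) := by
    have : ((n:ℝ) ^ (2 * k - 2) : ℝ) = (n:ℝ) ^ ((2 * k - 2 : ℕ) : ℝ) := (Real.rpow_natCast _ _).symm
    rw [this, ← Real.rpow_add hnpos]
    congr 1
    push_cast [Nat.cast_sub (by omega : 2 ≤ 2 * k)]
    ring
  have e3 : p ^ (2 * k) * p ^ (p - 2 * k) = p ^ p := by
    have : (p ^ (2 * k) : ℝ) = p ^ ((2 * k : ℕ) : ℝ) := (Real.rpow_natCast _ _).symm
    rw [this, ← Real.rpow_add hp0]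
    congr 1
    push_cast
    ring
  have e4 : ((1 + ε) * (n:ℝ) ^ (1 - 2 / p) * p) ^ p = (1 + ε) ^ p * (n:ℝ) ^ (p - 2) * p ^ p := by
    rw [Real.mul_rpow (by positivity) hp0.le, Real.mul_rpow (by positivity) (by positivity),
      ← Real.rpow_mul hnpos.le]
    congr 3
    field_simp
  have e5 : B * (1 + 6 * e) ^ p ≤ (1 + ε) ^ p := by
    have h1 : ((1 + ε) / (1 + 6 * e)) ^ p = (1 + ε) ^ p / (1 + 6 * e) ^ p :=
      Real.div_rpow (by positivity) (by positivity) p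
    have h2 : B ≤ ((1 + ε) / (1 + 6 * e)) ^ p := by
      refine hm.le.trans ?_
      rw [← Real.rpow_natCast]
      exact Real.rpow_le_rpow_of_exponent_le hratio.le hp3
    rw [h1, le_div_iff₀ (by positivity)] at h2
    exact h2
  calc 8 * ((1 + 1) * Ak k ^ (2 * k) * (n:ℝ) ^ (2 * k - 2)) * p ^ (2 * k) * θ ^ (p - 2 * k)
      ≤ 8 * ((1 + 1) * Ak k ^ (2 * k) * (n:ℝ) ^ (2 * k - 2)) * p ^ (2 * k) *
        ((1 + 6 * e) ^ p * ((n:ℝ) ^ (p - 2 * k) * p ^ (p - 2 * k))) := by gcongr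
    _ = (B * (1 + 6 * e) ^ p) * ((n:ℝ) ^ (2 * k - 2) * (n:ℝ) ^ (p - 2 * k)) *
        (p ^ (2 * k) * p ^ (p - 2 * k)) := by rw [hB]; ring
    _ ≤ (1 + ε) ^ p * (n:ℝ) ^ (p - 2) * p ^ p := by
        rw [e2, e3]
        gcongr
    _ = _ := e4.symm

end Helper87.UB
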