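import Pool.Agent.Helper87.UB.St

/-!
# Project UB, module GL (good lambda inequality), helper72
-/

set_option autoImplicit false

open MeasureTheory Complex FourierTransform
open scoped ENNReal NNReal

noncomputable section

namespace Helper87.UB

open Helper72.BA

private theorem nice_ind_GL {f : ℂ → ℂ} (hf : Nice f) {S : Set ℂ} (hS : MeasurableSet S) :
    Nice (S.indicator f) := by
  obtain ⟨C, hC⟩ := hf.bdd
  refine ⟨hf.meas.indicator hS, hf.int.indicator hS, max C 0, fun z => ?_⟩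
  by_cases h : z ∈ S
  · rw [Set.indicator_of_mem h]
    exact le_max_of_le_left (hC z)
  · rw [Set.indicator_of_notMem h, norm_zero]
    exact le_max_right _ _

private theorem nice_smul_GL {f : ℂ → ℂ} (hf : Nice f) (c : ℂ) : Nice (c • f) := by
  obtain ⟨C, hC⟩ := hf.bdd
  refine ⟨hf.meas.const_smul c, hf.int.smul c, ‖c‖ * C, fun z => ?_⟩
  rw [Pi.smul_apply, norm_smul]
  exact mul_le_mul_of_nonneg_left (hC z) (norm_nonneg _)

/-- layer cake for `‖g‖^p` -/
private theorem cake_GL {g : ℂ → ℂ} (hg : Measurable g) {p : ℝ} (hp : 0 < p) (μ : Measure ℂ)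
    {c : ℝ} (hc : 0 ≤ c) :
    ENNReal.ofReal (c ^ p) * ∫⁻ z, ‖g z‖ₑ ^ p ∂μ =
      ENNReal.ofReal p * ∫⁻ t in Set.Ioi (0:ℝ), μ {z | t < c * ‖g z‖} * ENNReal.ofReal (t ^ (p - 1)) := by
  rw [← lintegral_rpow_eq_lintegral_meas_lt_mul μ (f := fun z => c * ‖g z‖)
    (Filter.Eventually.of_forall fun z => mul_nonneg hc (norm_nonneg _))
    ((hg.norm.const_mul c).aemeasurable) hp,
    ← lintegral_const_mul _ (hg.enorm.pow_const p)]
  refine lintegral_congr fun z => ?_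
  rw [Real.mul_rpow hc (norm_nonneg _), ENNReal.ofReal_mul (Real.rpow_nonneg hc _),
    ← ENNReal.ofReal_rpow_of_nonneg (norm_nonneg _) hp.le, ofReal_norm]

/-- Chebyshev -/
private theorem cheb_GL {g : ℂ → ℂ} (hg : Measurable g) (q : ℕ) {a : ℝ} (ha : 0 < a) :
    volume {z | a < ‖g z‖} ≤ ENNReal.ofReal (a⁻¹ ^ q) * nrm q g := by
  have h1 := mul_meas_ge_le_lintegral (μ := (volume : Measure ℂ)) (hg.enorm.pow_const (q:ℕ))
    (ENNReal.ofReal (a ^ q))
  have h2 : volume {z | a < ‖g z‖} ≤ volume {z | ENNReal.ofReal (a ^ q) ≤ ‖g z‖ₑ ^ q} := by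
    refine measure_mono fun z hz => ?_
    rw [Set.mem_ofPred_eq] at hz ⊢
    rw [← ofReal_norm, ← ENNReal.ofReal_pow (norm_nonneg _)]
    exact ENNReal.ofReal_le_ofReal (pow_le_pow_left₀ ha.le hz.le q)
  calc volume {z | a < ‖g z‖} = ENNReal.ofReal (a⁻¹ ^ q) * (ENNReal.ofReal (a ^ q) *
        volume {z | a < ‖g z‖}) := by
        rw [← mul_assoc, ← ENNReal.ofReal_mul (by positivity), ← mul_pow, inv_mul_cancel₀ ha.ne',
          one_pow, ENNReal.ofReal_one, one_mul]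
    _ ≤ ENNReal.ofReal (a⁻¹ ^ q) * (ENNReal.ofReal (a ^ q) *
        volume {z | ENNReal.ofReal (a ^ q) ≤ ‖g z‖ₑ ^ q}) := by gcongr
    _ ≤ _ := by
        unfold nrm
        gcongr

/-- the pointwise good lambda inequality -/
private theorem point_GL (T : (ℂ → ℂ) → ℂ → ℂ) (hTm : ∀ f, Nice f → Measurable (T f))
    (hTa : ∀ f g, Nice f → Nice g → T (f + g) = T f + T g)
    (hTs : ∀ (c : ℂ) (f : ℂ → ℂ), Nice f → T (c • f) = c • T f)
    (q : ℕ) (σ ρ C1 : ℝ) (hq : 2 ≤ q) (hρ1 : ρ ≤ 1)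
    (hD : ∀ f, Nice f → (∀ z, ‖f z‖ ≤ 1) → ∀ t : ℝ, 0 ≤ t →
      volume {z : ℂ | t + σ < ‖T f z‖} ≤ ENNReal.ofReal ρ * volume {z : ℂ | t < ‖T f z‖})
    (hN : ∀ f, Nice f → nrm q (T f) ≤ ENNReal.ofReal C1 * nrm q f)
    (p θ : ℝ) (hp : 2 * q ≤ p) (hθ : 0 < θ) (hδ : 2 / p + σ / θ < 1)
    (f : ℂ → ℂ) (hf : Nice f) (l : ℝ) (hl : 0 < l) :
    volume {z | l < ‖T f z‖} ≤
      2 * (ENNReal.ofReal (C1 * p ^ q * (l⁻¹) ^ q) *
        ∫⁻ z in {z | l < θ * ‖f z‖}, ‖f z‖ₑ ^ q) +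
      ENNReal.ofReal ρ * volume {z | l < (1 - (2 / p + σ / θ))⁻¹ * ‖T f z‖} := by
  have hqr : (2:ℝ) ≤ q := by exact_mod_cast hq
  have hp0 : 0 < p := by linarith
  set δ : ℝ := 2 / p + σ / θ with hδd
  have hd0 : 0 < 1 - δ := by linarith
  set a : ℝ := l / θ with ha
  have ha0 : 0 < a := div_pos hl hθ
  set S : Set ℂ := {z | l < θ * ‖f z‖} with hS
  have hSm : MeasurableSet S := measurableSet_lt measurable_const (hf.meas.norm.const_mul θ)
  have hfp : Nice (S.indicator f) := nice_ind_GL hf hSm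
  have hfm : Nice (Sᶜ.indicator f) := nice_ind_GL hf hSm.compl
  set fp := S.indicator f with hfpd
  set fm := Sᶜ.indicator f with hfmd
  have hsum : f = fm + fp := by
    rw [hfpd, hfmd]; exact (Set.indicator_compl_add_self S f).symm
  have hT : T f = T fm + T fp := by
    conv_lhs => rw [hsum]
    exact hTa _ _ hfm hfp
  -- the normalised lower part
  set g : ℂ → ℂ := ((a⁻¹ : ℝ) : ℂ) • fm with hgd
  have hg : Nice g := nice_smul_GL hfm _
  have hg1 : ∀ z, ‖g z‖ ≤ 1 := by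
    intro z
    rw [hgd, Pi.smul_apply, norm_smul, Complex.norm_real, Real.norm_of_nonneg (by positivity)]
    by_cases h : z ∈ S
    · rw [hfmd, Set.indicator_of_notMem (by simpa using h), norm_zero, mul_zero]; norm_num
    · rw [hfmd, Set.indicator_of_mem (by simpa using h)]
      rw [hS, Set.mem_ofPred_eq, not_lt] at h
      rw [inv_mul_le_iff₀ ha0, mul_one, ha, le_div_iff₀ hθ]
      linarith
  have hTg : ∀ z, ‖T fm z‖ = a * ‖T g z‖ := by
    intro z
    have : T g = ((a⁻¹ : ℝ) : ℂ) • T fm := hTs _ _ hfm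
    rw [this, Pi.smul_apply, norm_smul, Complex.norm_real, Real.norm_of_nonneg (by positivity)]
    field_simp
  have ht : 0 ≤ θ * (1 - 1 / p) - σ := by
    have h1 : σ / θ < 1 - 2 / p := by linarith
    rw [div_lt_iff₀ hθ] at h1
    have h2 : (1 - 2 / p) * θ ≤ (1 - 1 / p) * θ := by
      apply mul_le_mul_of_nonneg_right _ hθ.le
      have : 1 / p ≤ 2 / p := by gcongr; norm_num
      linarith
    linarith
  have hDg := hD g hg hg1 _ ht
  -- the set inclusions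
  have i1 : {z | l < ‖T f z‖} ⊆ {z | l * p⁻¹ < ‖T fp z‖} ∪
      {z | θ * (1 - 1 / p) - σ + σ < ‖T g z‖} := by
    intro z hz
    rw [Set.mem_union, Set.mem_ofPred_eq, Set.mem_ofPred_eq]
    by_contra hcon
    push Not at hcon
    obtain ⟨h1, h2⟩ := hcon
    rw [Set.mem_ofPred_eq, hT, Pi.add_apply] at hz
    have h3 := norm_add_le (T fm z) (T fp z)
    rw [hTg z] at h3
    have h4 : a * ‖T g z‖ ≤ a * (θ * (1 - 1 / p)) := by
      apply mul_le_mul_of_nonneg_left _ ha0.le; linarith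
    have h5 : a * (θ * (1 - 1 / p)) = l - l * p⁻¹ := by
      rw [ha]; field_simp
    linarith
  have i2 : {z | θ * (1 - 1 / p) - σ < ‖T g z‖} ⊆ {z | l * p⁻¹ < ‖T fp z‖} ∪
      {z | l < (1 - δ)⁻¹ * ‖T f z‖} := by
    intro z hz
    rw [Set.mem_union, Set.mem_ofPred_eq, Set.mem_ofPred_eq]
    by_contra hcon
    push Not at hcon
    obtain ⟨h1, h2⟩ := hcon
    rw [Set.mem_ofPred_eq] at hz
    rw [inv_mul_le_iff₀ hd0] at h2
    have h3 : ‖T fm z‖ ≤ ‖T f z‖ + ‖T fp z‖ := by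
      have : T fm z = T f z - T fp z := by rw [hT, Pi.add_apply]; ring
      rw [this]; exact norm_sub_le _ _
    rw [hTg z] at h3
    have h4 : a * (θ * (1 - 1 / p) - σ) < a * ‖T g z‖ := by
      apply mul_lt_mul_of_pos_left hz ha0
    have h5 : a * (θ * (1 - 1 / p) - σ) = l * p⁻¹ + (1 - δ) * l := by
      rw [ha, hδd]; field_simp; ring
    linarith
  -- Chebyshev for the upper part
  have hV : volume {z | l * p⁻¹ < ‖T fp z‖} ≤ ENNReal.ofReal (C1 * p ^ q * (l⁻¹) ^ q) *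
      ∫⁻ z in S, ‖f z‖ₑ ^ q := by
    have h1 := cheb_GL (hTm fp hfp) q (a := l * p⁻¹) (by positivity)
    have h2 : nrm q fp = ∫⁻ z in S, ‖f z‖ₑ ^ q := by
      unfold nrm
      rw [← lintegral_indicator hSm]
      refine lintegral_congr fun z => ?_
      by_cases h : z ∈ S
      · rw [hfpd, Set.indicator_of_mem h, Set.indicator_of_mem h]
      · rw [hfpd, Set.indicator_of_notMem h, Set.indicator_of_notMem h, enorm_zero,
          zero_pow (by omega)]
    calc _ ≤ ENNReal.ofReal ((l * p⁻¹)⁻¹ ^ q) * nrm q (T fp) := h1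
      _ ≤ ENNReal.ofReal ((l * p⁻¹)⁻¹ ^ q) * (ENNReal.ofReal C1 * nrm q fp) := by
          gcongr; exact hN fp hfp
      _ = _ := by
          rw [h2, ← mul_assoc, ← ENNReal.ofReal_mul (by positivity)]
          congr 2
          rw [mul_inv, inv_inv, mul_pow]; ring
  set V := ENNReal.ofReal (C1 * p ^ q * (l⁻¹) ^ q) * ∫⁻ z in S, ‖f z‖ₑ ^ q with hVd
  calc volume {z | l < ‖T f z‖} ≤ volume {z | l * p⁻¹ < ‖T fp z‖} +
        volume {z | θ * (1 - 1 / p) - σ + σ < ‖T g z‖} :=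
        (measure_mono i1).trans (measure_union_le _ _)
    _ ≤ V + ENNReal.ofReal ρ * volume {z | θ * (1 - 1 / p) - σ < ‖T g z‖} := by
        gcongr
    _ ≤ V + ENNReal.ofReal ρ * (volume {z | l * p⁻¹ < ‖T fp z‖} +
        volume {z | l < (1 - δ)⁻¹ * ‖T f z‖}) := by
        gcongr
        exact (measure_mono i2).trans (measure_union_le _ _)
    _ ≤ V + (1 * V + ENNReal.ofReal ρ * volume {z | l < (1 - δ)⁻¹ * ‖T f z‖}) := by
        rw [mul_add]
        gcongr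
        rw [ENNReal.ofReal_le_one]; exact hρ1
    _ = _ := by rw [one_mul, ← add_assoc, two_mul]

theorem hGL : StGL := by
  intro T hTm hTa hTs q σ ρ C1 hq hσ hρ0 hρ1 hC1 hD hN p θ hp hθ hδ hρδ f hf hfin
  have hqr : (2:ℝ) ≤ q := by exact_mod_cast hq
  have hp0 : 0 < p := by linarith
  have hpq : 0 < p - q := by linarith
  set δ : ℝ := 2 / p + σ / θ with hδd
  have hd0 : 0 < 1 - δ := by linarith
  have hTf := hTm f hf
  set I := ∫⁻ z, ‖T f z‖ₑ ^ p with hI
  set ν : Measure ℂ := volume.withDensity fun z => ‖f z‖ₑ ^ q with hν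
  have hνS : ∀ l : ℝ, ∫⁻ z in {z | l < θ * ‖f z‖}, ‖f z‖ₑ ^ q = ν {z | l < θ * ‖f z‖} := by
    intro l
    rw [hν, withDensity_apply _ (measurableSet_lt measurable_const (hf.meas.norm.const_mul θ))]
  -- measurability of level functions
  have hmono : ∀ (μ : Measure ℂ) (g : ℂ → ℝ), Measurable fun l : ℝ => μ {z | l < g z} := by
    intro μ g
    refine Antitone.measurable fun s t hst => measure_mono fun z hz => ?_
    exact lt_of_le_of_lt hst hz
  have c1 := cake_GL hTf hp0 volume (c := 1) (by norm_num)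
  have c2 := cake_GL hTf hp0 volume (c := (1 - δ)⁻¹) (by positivity)
  have c3 := cake_GL hf.meas hpq ν (c := θ) hθ.le
  rw [Real.one_rpow, ENNReal.ofReal_one, one_mul] at c1
  simp only [one_mul] at c1
  have hνp : ∫⁻ z, ‖f z‖ₑ ^ (p - q) ∂ν = ∫⁻ z, ‖f z‖ₑ ^ p := by
    rw [hν, lintegral_withDensity_eq_lintegral_mul _ (hf.meas.enorm.pow_const q)
      (hf.meas.enorm.pow_const _)]
    refine lintegral_congr fun z => ?_
    rw [Pi.mul_apply, ← ENNReal.rpow_natCast, ← ENNReal.rpow_add_of_nonneg _ _ (by positivity) hpq.le]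
    congr 1; ring
  rw [hνp] at c3
  have key : I ≤ ENNReal.ofReal p * (∫⁻ l in Set.Ioi (0:ℝ),
      (2 * (ENNReal.ofReal (C1 * p ^ q * (l⁻¹) ^ q) * ν {z | l < θ * ‖f z‖}) +
      ENNReal.ofReal ρ * volume {z | l < (1 - δ)⁻¹ * ‖T f z‖}) * ENNReal.ofReal (l ^ (p - 1))) := by
    rw [hI, c1]
    gcongr ENNReal.ofReal p * ?_
    refine setLIntegral_mono' measurableSet_Ioi fun l hl => ?_
    gcongr
    have := point_GL T hTm hTa hTs q σ ρ C1 hq hρ1 hD hN p θ hp hθ hδ f hf l hl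
    rw [hνS l] at this
    exact this
  have split : ∫⁻ l in Set.Ioi (0:ℝ),
      (2 * (ENNReal.ofReal (C1 * p ^ q * (l⁻¹) ^ q) * ν {z | l < θ * ‖f z‖}) +
      ENNReal.ofReal ρ * volume {z | l < (1 - δ)⁻¹ * ‖T f z‖}) * ENNReal.ofReal (l ^ (p - 1)) =
      2 * ENNReal.ofReal (C1 * p ^ q) * (∫⁻ l in Set.Ioi (0:ℝ), ν {z | l < θ * ‖f z‖} *
        ENNReal.ofReal (l ^ (p - q - 1))) +
      ENNReal.ofReal ρ * ∫⁻ l in Set.Ioi (0:ℝ), volume {z | l < (1 - δ)⁻¹ * ‖T f z‖} *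
        ENNReal.ofReal (l ^ (p - 1)) := by
    have m1 : Measurable fun l : ℝ => ν {z | l < θ * ‖f z‖} * ENNReal.ofReal (l ^ (p - q - 1)) :=
      (hmono ν _).mul (by fun_prop)
    have m2 : Measurable fun l : ℝ => volume {z | l < (1 - δ)⁻¹ * ‖T f z‖} *
        ENNReal.ofReal (l ^ (p - 1)) := (hmono volume _).mul (by fun_prop)
    rw [← lintegral_const_mul _ m1, ← lintegral_const_mul _ m2,
      ← lintegral_add_left (m1.const_mul _)]
    refine setLIntegral_congr_fun measurableSet_Ioi fun l hl => ?_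
    have hl0 : 0 < l := hl
    have e1 : ENNReal.ofReal (C1 * p ^ q * (l⁻¹) ^ q) * ENNReal.ofReal (l ^ (p - 1)) =
        ENNReal.ofReal (C1 * p ^ q) * ENNReal.ofReal (l ^ (p - q - 1)) := by
      rw [← ENNReal.ofReal_mul (by positivity), ← ENNReal.ofReal_mul (by positivity)]
      congr 1
      rw [mul_assoc]
      congr 1
      rw [show p - q - 1 = (p - 1) - q by ring, Real.rpow_sub hl0 (p - 1) q, Real.rpow_natCast,
        inv_pow, div_eq_mul_inv, mul_comm]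
    calc _ = 2 * (ENNReal.ofReal (C1 * p ^ q * (l⁻¹) ^ q) * ENNReal.ofReal (l ^ (p - 1))) *
          ν {z | l < θ * ‖f z‖} + ENNReal.ofReal ρ * (volume {z | l < (1 - δ)⁻¹ * ‖T f z‖} *
          ENNReal.ofReal (l ^ (p - 1))) := by ring
      _ = _ := by rw [e1]; ring
  rw [split, mul_add] at key
  have t2 : ENNReal.ofReal p * (ENNReal.ofReal ρ * ∫⁻ l in Set.Ioi (0:ℝ),
      volume {z | l < (1 - δ)⁻¹ * ‖T f z‖} * ENNReal.ofReal (l ^ (p - 1))) ≤ I / 2 := by
    calc _ = ENNReal.ofReal ρ * (ENNReal.ofReal (((1 - δ)⁻¹) ^ p) * I) := by rw [c2]; ring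
      _ = ENNReal.ofReal (ρ * (1 - δ) ^ (-p)) * I := by
          rw [← mul_assoc, ← ENNReal.ofReal_mul hρ0, Real.inv_rpow hd0.le, Real.rpow_neg hd0.le]
      _ ≤ ENNReal.ofReal (1 / 2) * I := by gcongr
      _ = I / 2 := by
          rw [ENNReal.ofReal_div_of_pos (by norm_num), ENNReal.ofReal_one, ENNReal.ofReal_ofNat,
            ENNReal.div_eq_inv_mul, ENNReal.div_eq_inv_mul, mul_one]
  have t1 : ENNReal.ofReal p * (2 * ENNReal.ofReal (C1 * p ^ q) *
      (∫⁻ l in Set.Ioi (0:ℝ), ν {z | l < θ * ‖f z‖} * ENNReal.ofReal (l ^ (p - q - 1)))) ≤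
      ENNReal.ofReal (4 * C1 * p ^ q * θ ^ (p - q)) * ∫⁻ z, ‖f z‖ₑ ^ p := by
    calc _ = ENNReal.ofReal (2 * C1 * p ^ q * (p / (p - q))) * (ENNReal.ofReal (p - q) *
          (∫⁻ l in Set.Ioi (0:ℝ), ν {z | l < θ * ‖f z‖} * ENNReal.ofReal (l ^ (p - q - 1)))) := by
          have e2 : ENNReal.ofReal p * (2 * ENNReal.ofReal (C1 * p ^ q)) =
              ENNReal.ofReal (2 * C1 * p ^ q * (p / (p - q))) * ENNReal.ofReal (p - q) := by
            have e3 : (2:ℝ≥0∞) = ENNReal.ofReal 2 := by simp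
            rw [e3, ← ENNReal.ofReal_mul (by norm_num), ← ENNReal.ofReal_mul (by positivity),
              ← ENNReal.ofReal_mul (by positivity)]
            congr 1
            field_simp
          rw [← mul_assoc, e2, mul_assoc]
      _ = ENNReal.ofReal (2 * C1 * p ^ q * (p / (p - q))) * (ENNReal.ofReal (θ ^ (p - q)) *
          ∫⁻ z, ‖f z‖ₑ ^ p) := by rw [c3]
      _ = ENNReal.ofReal (2 * C1 * p ^ q * (p / (p - q)) * θ ^ (p - q)) * ∫⁻ z, ‖f z‖ₑ ^ p := by
          rw [← mul_assoc, ← ENNReal.ofReal_mul (by positivity)]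
      _ ≤ _ := by
          gcongr ENNReal.ofReal ?_ * _
          have : p / (p - q) ≤ 2 := by
            rw [div_le_iff₀ hpq]; linarith
          calc 2 * C1 * p ^ q * (p / (p - q)) * θ ^ (p - q) ≤ 2 * C1 * p ^ q * 2 * θ ^ (p - q) := by
                gcongr
            _ = _ := by ring
  have key2 : I ≤ ENNReal.ofReal (4 * C1 * p ^ q * θ ^ (p - q)) * (∫⁻ z, ‖f z‖ₑ ^ p) + I / 2 :=
    key.trans (add_le_add t1 t2)
  have hI2 : I / 2 ≠ ∞ := ENNReal.div_ne_top hfin (by norm_num)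
  have key3 : I / 2 ≤ ENNReal.ofReal (4 * C1 * p ^ q * θ ^ (p - q)) * (∫⁻ z, ‖f z‖ₑ ^ p) := by
    have : I / 2 + I / 2 ≤ ENNReal.ofReal (4 * C1 * p ^ q * θ ^ (p - q)) *
        (∫⁻ z, ‖f z‖ₑ ^ p) + I / 2 := by
      rw [ENNReal.add_halves]; exact key2
    exact (ENNReal.add_le_add_iff_right hI2).1 this
  calc I = 2 * (I / 2) := by
        rw [two_mul, ENNReal.add_halves]
    _ ≤ 2 * (ENNReal.ofReal (4 * C1 * p ^ q * θ ^ (p - q)) * (∫⁻ z, ‖f z‖ₑ ^ p)) := by gcongr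
    _ = _ := by
        have e3 : (2:ℝ≥0∞) = ENNReal.ofReal 2 := by simp
        rw [← mul_assoc, e3, ← ENNReal.ofReal_mul (by norm_num)]
        congr 2
        ring

end Helper87.UB
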