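import Pool.Agent.Helper87.UB.St
import Pool.Agent.Helper72.BAM.PC0
import Pool.Agent.Helper72.BAM.L2

/-!
# Project UB, module HF
-/

set_option autoImplicit false

open MeasureTheory Complex FourierTransform
open scoped ENNReal NNReal

noncomputable section

namespace Helper87.UB

open Helper72.BA

private lemma nice_ind_HF {f : ℂ → ℂ} (hf : Nice f) {B : Set ℂ} (hB : MeasurableSet B) :
    Nice (B.indicator f) := by
  obtain ⟨C, hC⟩ := hf.bdd
  refine ⟨hf.meas.indicator hB, hf.int.indicator hB, C, fun z => ?_⟩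
  exact (norm_indicator_le_norm_self _ _).trans (hC z)

theorem hHF (hF : StFA) : StHF := by
  obtain ⟨C, hC, hF⟩ := hF
  refine ⟨C + 11, by linarith, ?_⟩
  intro n hn f hf hf1 a b x0 Q hQ hQB hQv
  have hn0 : (0:ℝ) < n := by exact_mod_cast hn
  set B : Set ℂ := Metric.closedBall x0 (4 * n * (2:ℝ) ^ (-a)) with hBdef
  have hB : MeasurableSet B := Metric.isClosed_closedBall.measurableSet
  set W : Finset ℤ := Finset.Ico a b with hW
  have hg1 : Nice (B.indicator f) := nice_ind_HF hf hB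
  have hg2 : Nice (Bᶜ.indicator f) := nice_ind_HF hf hB.compl
  have hfs : f = B.indicator f + Bᶜ.indicator f := (Set.indicator_self_add_compl B f).symm
  have hadd : gW n W f = gW n W (B.indicator f) + gW n W (Bᶜ.indicator f) := by
    conv_lhs => rw [hfs]
    exact P.gW_add n W hg1 hg2
  -- the far part
  have hfar : ∀ y : ℂ, ‖y - x0‖ ≤ 2 * (2:ℝ) ^ (-a) → ‖gW n W (Bᶜ.indicator f) y‖ ≤ C * n := by
    refine (hF n hn (Bᶜ.indicator f) hg2 ?_).1 a b x0 ?_
    · intro z
      exact (norm_indicator_le_norm_self _ _).trans (hf1 z)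
    · intro w hw
      apply Set.indicator_of_notMem
      simp only [Set.mem_compl_iff, not_not, hBdef, Metric.mem_closedBall, dist_eq_norm]
      exact hw
  -- the near part
  have hnear : nrm 2 (gW n W (B.indicator f)) ≤ volume B := by
    have h1 := sum_nrm_two_windows n (Finset.univ : Finset Unit) (fun _ => W)
      (by intro i _ j _ hij; exact absurd (Subsingleton.elim i j) hij) (B.indicator f) hg1
    simp only [Finset.univ_unique, Finset.sum_const, Finset.card_singleton, one_smul] at h1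
    refine h1.trans ?_
    unfold nrm
    calc ∫⁻ z, ‖B.indicator f z‖ₑ ^ 2 ≤ ∫⁻ z, B.indicator (1 : ℂ → ℝ≥0∞) z := by
          refine lintegral_mono fun z => ?_
          by_cases hz : z ∈ B
          · rw [Set.indicator_of_mem hz, Set.indicator_of_mem hz]
            have h2 : ‖f z‖ₑ ≤ 1 := by
              rw [← ofReal_norm, ← ENNReal.ofReal_one]
              exact ENNReal.ofReal_le_ofReal (hf1 z)
            calc ‖f z‖ₑ ^ 2 ≤ 1 ^ 2 := by gcongr
              _ = (1 : ℂ → ℝ≥0∞) z := by simp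
          · rw [Set.indicator_of_notMem hz, Set.indicator_of_notMem hz]
            simp
      _ = volume B := lintegral_indicator_one hB
  -- Chebyshev
  set ε : ℝ≥0∞ := ENNReal.ofReal ((11 * n) ^ 2) with hε
  have hε0 : ε ≠ 0 := by
    rw [hε, Ne, ENNReal.ofReal_eq_zero, not_le]
    positivity
  have hεt : ε ≠ ∞ := ENNReal.ofReal_ne_top
  have hmeas : Measurable fun z => ‖gW n W (B.indicator f) z‖ₑ ^ 2 :=
    ((P.nice_gW n W hg1).meas.enorm).pow_const 2
  have hcheb := meas_ge_le_lintegral_div (μ := volume) hmeas.aemeasurable hε0 hεt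
  have hsub : {z : ℂ | z ∈ Q ∧ (C + 11) * n < ‖gW n W f z‖} ⊆
      {z : ℂ | ε ≤ ‖gW n W (B.indicator f) z‖ₑ ^ 2} := by
    rintro z ⟨hz, hz2⟩
    have h1 : ‖z - x0‖ ≤ 2 * (2:ℝ) ^ (-a) := by
      have := hQB hz
      rwa [Metric.mem_closedBall, dist_eq_norm] at this
    have h2 := hfar z h1
    have h3 : ‖gW n W f z‖ ≤ ‖gW n W (B.indicator f) z‖ + ‖gW n W (Bᶜ.indicator f) z‖ := by
      rw [hadd]
      exact norm_add_le _ _
    have h4 : 11 * (n:ℝ) ≤ ‖gW n W (B.indicator f) z‖ := by linarith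
    show ε ≤ ‖gW n W (B.indicator f) z‖ₑ ^ 2
    rw [hε, ← ofReal_norm, ← ENNReal.ofReal_pow (norm_nonneg _)]
    apply ENNReal.ofReal_le_ofReal
    gcongr
  have hvB : volume B = ENNReal.ofReal (16 * Real.pi * n ^ 2 * ((2:ℝ) ^ (-a)) ^ 2) := by
    have hr : 0 ≤ 4 * n * (2:ℝ) ^ (-a) := by positivity
    rw [hBdef, Complex.volume_closedBall, ← ENNReal.ofReal_pow hr,
      show ((NNReal.pi : ℝ≥0) : ℝ≥0∞) = ENNReal.ofReal Real.pi by
        rw [← ENNReal.ofReal_coe_nnreal]; rfl,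
      ← ENNReal.ofReal_mul (by positivity)]
    congr 1
    ring
  have hvol : volume {z : ℂ | z ∈ Q ∧ (C + 11) * n < ‖gW n W f z‖} ≤
      ENNReal.ofReal (16 * Real.pi * n ^ 2 * ((2:ℝ) ^ (-a)) ^ 2 / (11 * n) ^ 2) := by
    calc volume {z : ℂ | z ∈ Q ∧ (C + 11) * n < ‖gW n W f z‖} ≤
          volume {z : ℂ | ε ≤ ‖gW n W (B.indicator f) z‖ₑ ^ 2} := measure_mono hsub
      _ ≤ (∫⁻ z, ‖gW n W (B.indicator f) z‖ₑ ^ 2) / ε := hcheb
      _ ≤ volume B / ε := ENNReal.div_le_div_right hnear ε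
      _ = _ := by
          rw [hvB, hε, ← ENNReal.ofReal_div_of_pos (by positivity)]
  calc 2 * volume {z : ℂ | z ∈ Q ∧ (C + 11) * n < ‖gW n W f z‖} ≤
        2 * ENNReal.ofReal (16 * Real.pi * n ^ 2 * ((2:ℝ) ^ (-a)) ^ 2 / (11 * n) ^ 2) := by
        gcongr
    _ = ENNReal.ofReal (2 * (16 * Real.pi * n ^ 2 * ((2:ℝ) ^ (-a)) ^ 2 / (11 * n) ^ 2)) := by
        rw [ENNReal.ofReal_mul (by norm_num)]
        simp
    _ ≤ ENNReal.ofReal (((2:ℝ) ^ (-a)) ^ 2) := by
        apply ENNReal.ofReal_le_ofReal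
        have hpi : Real.pi ≤ 3.15 := by linarith [Real.pi_lt_d2]
        have e : 2 * (16 * Real.pi * n ^ 2 * ((2:ℝ) ^ (-a)) ^ 2 / (11 * n) ^ 2) =
            (32 * Real.pi / 121) * ((2:ℝ) ^ (-a)) ^ 2 := by
          field_simp
          ring
        rw [e]
        have h0 : (0:ℝ) ≤ ((2:ℝ) ^ (-a)) ^ 2 := by positivity
        have h1 : 32 * Real.pi / 121 ≤ 1 := by
          rw [div_le_one (by norm_num)]
          linarith
        nlinarith
    _ = volume Q := hQv.symm

end Helper87.UB
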