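import Pool.Agent.Helper87.UB.St
import Pool.Agent.Helper72.BAM.PC0

/-!
# Project UB (MP_3dd6d4_an), module LG : large values on a square
-/

set_option autoImplicit false

open MeasureTheory Complex FourierTransform
open scoped ENNReal NNReal

noncomputable section

namespace Helper87.UB

open Helper72.BA

/-- restriction of a nice function to a measurable set is nice -/
private lemma nice_ind_LG {f : ℂ → ℂ} (hf : Nice f) {B : Set ℂ} (hB : MeasurableSet B) :
    Nice (B.indicator f) := by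
  obtain ⟨D, hD⟩ := hf.bdd
  refine ⟨hf.meas.indicator hB, hf.int.indicator hB, D, fun z => ?_⟩
  by_cases hz : z ∈ B
  · rw [Set.indicator_of_mem hz]
    exact hD z
  · rw [Set.indicator_of_notMem hz, norm_zero]
    exact (norm_nonneg _).trans (hD z)

theorem hLG (hF : StFA) (hB : StBD) : StLG := by
  obtain ⟨C, hC, hFA⟩ := hF
  refine ⟨C, hC, fun k hk => ?_⟩
  obtain ⟨n0, hn0⟩ := hB k hk
  refine ⟨max n0 1, fun n hn f hf hf1 M m hmM x0 Q hQm hQs hQv => ?_⟩
  have hnn0 : n0 ≤ n := (le_max_left _ _).trans hn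
  have hn1 : 1 ≤ n := (le_max_right _ _).trans hn
  set a : ℤ := (-M + 2 * m : ℤ) with ha
  set t : ℝ := (2:ℝ) ^ (-a) with ht
  have ht0 : 0 < t := by positivity
  set r : ℝ := 4 * n * t with hr
  have hr0 : 0 ≤ r := by positivity
  set B : Set ℂ := Metric.closedBall x0 r with hBdef
  have hBm : MeasurableSet B := Metric.isClosed_closedBall.measurableSet
  set f1 : ℂ → ℂ := B.indicator f with hf1d
  set f2 : ℂ → ℂ := Bᶜ.indicator f with hf2d
  have nf1 : Nice f1 := nice_ind_LG hf hBm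
  have nf2 : Nice f2 := nice_ind_LG hf hBm.compl
  have hsum : f1 + f2 = f := Set.indicator_self_add_compl B f
  have b1 : ∀ z, ‖f1 z‖ ≤ 1 := by
    intro z
    by_cases hz : z ∈ B
    · rw [hf1d, Set.indicator_of_mem hz]
      exact hf1 z
    · rw [hf1d, Set.indicator_of_notMem hz, norm_zero]
      exact zero_le_one
  have b2 : ∀ z, ‖f2 z‖ ≤ 1 := by
    intro z
    by_cases hz : z ∈ Bᶜ
    · rw [hf2d, Set.indicator_of_mem hz]
      exact hf1 z
    · rw [hf2d, Set.indicator_of_notMem hz, norm_zero]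
      exact zero_le_one
  have hfar : ∀ y : ℂ, ‖y - x0‖ ≤ 2 * t → ‖gW n (Finset.Ico a M) f2 y‖ ≤ C * n := by
    refine (hFA n hn1 f2 nf2 b2).1 a M x0 ?_
    intro w hw
    have : w ∉ Bᶜ := by
      rw [Set.notMem_compl_iff, hBdef, Metric.mem_closedBall, dist_eq_norm]
      exact hw
    rw [hf2d, Set.indicator_of_notMem this]
  have hk0 : (0:ℝ) < 2 * k := by positivity
  have hn0' : (0:ℝ) < n := by exact_mod_cast hn1
  have hsub : {z : ℂ | z ∈ Q ∧ (2 * k + C) * n < ‖gW n (Finset.Ico a M) f z‖} ⊆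
      {z : ℂ | ENNReal.ofReal ((2 * k * n) ^ (2 * k)) ≤ ‖gW n (Finset.Ico a M) f1 z‖ₑ ^ (2 * k)} := by
    rintro z ⟨hzQ, hz⟩
    have h1 := hfar z (by
      have := hQs hzQ
      rwa [Metric.mem_closedBall, dist_eq_norm] at this)
    have h2 : ‖gW n (Finset.Ico a M) f z‖ ≤
        ‖gW n (Finset.Ico a M) f1 z‖ + ‖gW n (Finset.Ico a M) f2 z‖ := by
      rw [← hsum, P.gW_add n _ nf1 nf2, Pi.add_apply]
      exact norm_add_le _ _
    have h3 : 2 * k * n ≤ ‖gW n (Finset.Ico a M) f1 z‖ := by nlinarith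
    rw [Set.mem_ofPred_eq, ← ofReal_norm, ← ENNReal.ofReal_pow (norm_nonneg _)]
    exact ENNReal.ofReal_le_ofReal (pow_le_pow_left₀ (by positivity) h3 _)
  have hmeas : Measurable fun z => ‖gW n (Finset.Ico a M) f1 z‖ₑ ^ (2 * k) :=
    (P.nice_gW n _ nf1).meas.enorm.pow_const _
  have hcheb := mul_meas_ge_le_lintegral (μ := (volume : Measure ℂ)) hmeas
    (ENNReal.ofReal ((2 * k * n) ^ (2 * k)))
  have hBD : nrm (2 * k) (gW n (Finset.Ico a M) f1) ≤
      ENNReal.ofReal (700 * k ^ 2 * (2 * k).factorial * (n:ℝ) ^ (2 * k - 2)) * nrm 2 f1 :=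
    hn0 n hnn0 M m hmM f1 nf1 b1
  have h2 : nrm 2 f1 ≤ ENNReal.ofReal (Real.pi * r ^ 2) := by
    have h3 : nrm 2 f1 ≤ ∫⁻ z, B.indicator (fun _ => (1:ℝ≥0∞)) z := by
      refine lintegral_mono fun z => ?_
      by_cases hz : z ∈ B
      · rw [Set.indicator_of_mem hz]
        have : ‖f1 z‖ₑ ≤ 1 := by
          rw [← ofReal_norm]
          exact (ENNReal.ofReal_le_ofReal (b1 z)).trans (by simp)
        exact pow_le_one' this 2
      · rw [Set.indicator_of_notMem hz, hf1d, Set.indicator_of_notMem hz]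
        simp
    refine h3.trans ?_
    rw [lintegral_indicator hBm, setLIntegral_one, hBdef, Complex.volume_closedBall,
      ← ENNReal.ofReal_pow hr0, mul_comm Real.pi, ENNReal.ofReal_mul (by positivity)]
    gcongr
    rw [← NNReal.coe_real_pi, ENNReal.ofReal_coe_nnreal]
  have hP : (0:ℝ) < (2 * k * n) ^ (2 * k) := by positivity
  have hfin : ENNReal.ofReal ((2 * k * n) ^ (2 * k)) *
      volume {z : ℂ | z ∈ Q ∧ (2 * k + C) * n < ‖gW n (Finset.Ico a M) f z‖} ≤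
      ENNReal.ofReal (700 * k ^ 2 * (2 * k).factorial * (n:ℝ) ^ (2 * k - 2) * (Real.pi * r ^ 2)) := by
    calc _ ≤ ENNReal.ofReal ((2 * k * n) ^ (2 * k)) * volume {z : ℂ |
          ENNReal.ofReal ((2 * k * n) ^ (2 * k)) ≤ ‖gW n (Finset.Ico a M) f1 z‖ₑ ^ (2 * k)} := by
          gcongr
      _ ≤ nrm (2 * k) (gW n (Finset.Ico a M) f1) := hcheb
      _ ≤ _ := hBD
      _ ≤ ENNReal.ofReal (700 * k ^ 2 * (2 * k).factorial * (n:ℝ) ^ (2 * k - 2)) *
          ENNReal.ofReal (Real.pi * r ^ 2) := by gcongr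
      _ = _ := (ENNReal.ofReal_mul (by positivity)).symm
  have hdiv : volume {z : ℂ | z ∈ Q ∧ (2 * k + C) * n < ‖gW n (Finset.Ico a M) f z‖} ≤
      ENNReal.ofReal (700 * k ^ 2 * (2 * k).factorial * (n:ℝ) ^ (2 * k - 2) * (Real.pi * r ^ 2)) /
        ENNReal.ofReal ((2 * k * n) ^ (2 * k)) := by
    rw [ENNReal.le_div_iff_mul_le (Or.inl (by simpa using hP)) (Or.inl ENNReal.ofReal_ne_top),
      mul_comm]
    exact hfin
  refine hdiv.trans ?_
  rw [hQv, ← ENNReal.ofReal_div_of_pos hP, ← ENNReal.ofReal_mul (by positivity)]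
  apply ENNReal.ofReal_le_ofReal
  rw [div_le_iff₀ hP]
  have hpow : (n:ℝ) ^ (2 * k) = (n:ℝ) ^ (2 * k - 2) * (n:ℝ) ^ 2 := by
    rw [← pow_add]
    congr 1
    omega
  have hkk : (0:ℝ) < (2 * k : ℝ) ^ (2 * k) := by positivity
  have e1 : 36000 * k ^ 2 * (2 * k).factorial / (2 * k : ℝ) ^ (2 * k) * t ^ 2 * (2 * k * n) ^ (2 * k) =
      36000 * (k ^ 2 * (2 * k).factorial * (n:ℝ) ^ (2 * k - 2) * (n:ℝ) ^ 2 * t ^ 2) := by
    rw [mul_pow (2 * (k:ℝ)) (n:ℝ), hpow]
    field_simp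
  have e2 : 700 * k ^ 2 * (2 * k).factorial * (n:ℝ) ^ (2 * k - 2) * (Real.pi * r ^ 2) =
      (11200 * Real.pi) * (k ^ 2 * (2 * k).factorial * (n:ℝ) ^ (2 * k - 2) * (n:ℝ) ^ 2 * t ^ 2) := by
    rw [hr]
    ring
  rw [e1, e2]
  have hpi : 11200 * Real.pi ≤ 36000 := by
    have := Real.pi_lt_d2
    linarith
  gcongr

end Helper87.UB
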