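import Pool.Agent.Helper87.UB.St
import Pool.Agent.Helper72.BAM.KE1
import Pool.Agent.Helper72.BAM.KE2
import Pool.Agent.Helper72.BAM.KE4
import Pool.Agent.Helper72.BAM.NL
import Pool.Agent.Helper85.BPM.R4b

/-!
# Project UB, module OS: oscillation of a low frequency window
-/

set_option autoImplicit false

open MeasureTheory Complex FourierTransform Filter Topology
open scoped ENNReal NNReal ComplexConjugate

noncomputable section

namespace Helper87.UB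

open Helper72.BA

private theorem sup_gj_OS : ∃ C : ℝ, 0 < C ∧ ∀ n : ℕ, 1 ≤ n → ∀ j : ℤ, ∀ f : ℂ → ℂ,
    (∀ z, ‖f z‖ ≤ 1) → ∀ y : ℂ, ‖gj n j f y‖ ≤ C * n := by
  obtain ⟨C, hC, h⟩ := P.kernel_L1
  refine ⟨C, hC, fun n hn j f hf y => ?_⟩
  have h1 : ‖gj n j f y‖ₑ ≤ ENNReal.ofReal (C * n) := by
    calc ‖gj n j f y‖ₑ ≤ ∫⁻ w, ‖KK n j (y - w) * f w‖ₑ := enorm_integral_le_lintegral_enorm _
      _ ≤ ∫⁻ w, ‖KK n j (y - w)‖ₑ := by
          refine lintegral_mono fun w => ?_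
          rw [enorm_mul]
          have h2 : ‖f w‖ₑ ≤ 1 := by
            rw [← ofReal_norm]
            exact ENNReal.ofReal_le_one.2 (hf w)
          calc ‖KK n j (y - w)‖ₑ * ‖f w‖ₑ ≤ ‖KK n j (y - w)‖ₑ * 1 := by gcongr
            _ = _ := mul_one _
      _ = ∫⁻ w, ‖KK n j w‖ₑ := lintegral_sub_left_eq_self (fun w => ‖KK n j w‖ₑ) y
      _ ≤ _ := h n hn j
  rw [← ofReal_norm] at h1
  exact (ENNReal.ofReal_le_ofReal_iff (by positivity)).1 h1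

private theorem kap_diff_OS : ∃ C : ℝ, 0 < C ∧ ∀ i : ℤ, ∀ x y : ℂ, (2:ℝ) ^ i * ‖x - y‖ ≤ 2 →
    ∫⁻ w, ‖kap i (x - w) - kap i (y - w)‖ₑ ≤ ENNReal.ofReal (C * ((2:ℝ) ^ i * ‖x - y‖)) := by
  obtain ⟨C, hC, h⟩ := Helper85.BP.P.kap_decay 2
  obtain ⟨G, hG, hm⟩ := P.NL.gam_mass
  refine ⟨C * 25 * G, by positivity, fun i x y hxy => ?_⟩
  have h0 : (0:ℝ) ≤ (2:ℝ) ^ i * ‖x - y‖ := by positivity
  have hb : ∀ w : ℂ, ‖kap i (x - w) - kap i (y - w)‖ₑ ≤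
      ENNReal.ofReal (C * 25 * ((2:ℝ) ^ i * ‖x - y‖)) *
        ENNReal.ofReal (gam ((2:ℝ) ^ (-i)) (x - w)) := by
    intro w
    have h1 := (h i (x - w) (x - y)).2
    rw [show x - w - (x - y) = y - w by ring] at h1
    rw [← ofReal_norm, ← ENNReal.ofReal_mul (by positivity)]
    refine ENNReal.ofReal_le_ofReal (h1.trans ?_)
    have h2 : Helper85.BP.gamN 2 ((2:ℝ) ^ (-i)) (x - w) = gam ((2:ℝ) ^ (-i)) (x - w) := rfl
    rw [h2]
    have h3 : 0 ≤ gam ((2:ℝ) ^ (-i)) (x - w) := P.NL.gam_nonneg _ _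
    have h4 : (1 + ((2:ℝ) ^ i * ‖x - y‖) ^ 2) ^ 2 ≤ 25 := by
      have : ((2:ℝ) ^ i * ‖x - y‖) ^ 2 ≤ 4 := by nlinarith
      nlinarith [sq_nonneg ((2:ℝ) ^ i * ‖x - y‖)]
    refine mul_le_mul_of_nonneg_right ?_ h3
    calc C * ((2:ℝ) ^ i * ‖x - y‖) * (1 + ((2:ℝ) ^ i * ‖x - y‖) ^ 2) ^ 2
        ≤ C * ((2:ℝ) ^ i * ‖x - y‖) * 25 := by gcongr
      _ = _ := by ring
  calc ∫⁻ w, ‖kap i (x - w) - kap i (y - w)‖ₑ
      ≤ ∫⁻ w, ENNReal.ofReal (C * 25 * ((2:ℝ) ^ i * ‖x - y‖)) *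
        ENNReal.ofReal (gam ((2:ℝ) ^ (-i)) (x - w)) := lintegral_mono hb
    _ = ENNReal.ofReal (C * 25 * ((2:ℝ) ^ i * ‖x - y‖)) *
        ∫⁻ w, ENNReal.ofReal (gam ((2:ℝ) ^ (-i)) (x - w)) := by
        rw [lintegral_const_mul]
        exact ((P.NL.continuous_gam _).measurable.comp
          (measurable_const.sub measurable_id)).ennreal_ofReal
    _ ≤ ENNReal.ofReal (C * 25 * ((2:ℝ) ^ i * ‖x - y‖)) * ENNReal.ofReal G := by
        gcongr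
        exact hm _ (by positivity) x
    _ = _ := by
        rw [← ENNReal.ofReal_mul (by positivity)]
        congr 1
        ring

private theorem ker_int_OS {K f : ℂ → ℂ} (hK : Ker K) (hf : Nice f) (z : ℂ) :
    Integrable (fun w => K (z - w) * f w) := by
  obtain ⟨s, rfl⟩ := hK
  obtain ⟨B, hB⟩ := s.decay 0 0
  simp only [pow_zero, one_mul, norm_iteratedFDeriv_zero] at hB
  refine hf.int.bdd_mul (c := B) ?_ (ae_of_all _ fun w => hB.2 _)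
  exact (s.continuous.comp (by fun_prop : Continuous fun w : ℂ => z - w)).aestronglyMeasurable

private theorem diff_gj_OS : ∃ C : ℝ, 0 < C ∧ ∀ n : ℕ, 1 ≤ n → ∀ j : ℤ, ∀ f : ℂ → ℂ, Nice f →
    (∀ z, ‖f z‖ ≤ 1) → ∀ x y : ℂ, (2:ℝ) ^ (j + 1) * ‖x - y‖ ≤ 2 →
    ‖gj n j f x - gj n j f y‖ ≤ C * n * ((2:ℝ) ^ (j + 1) * ‖x - y‖) := by
  obtain ⟨C1, hC1, h1⟩ := sup_gj_OS
  obtain ⟨C2, hC2, h2⟩ := kap_diff_OS
  refine ⟨C1 * C2, by positivity, fun n hn j f hf hf1 x y hxy => ?_⟩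
  have hg : Nice (gj n j f) := nice_cv (P.ker_KK n j) hf
  have e : gj n j f x - gj n j f y =
      ∫ w, (kap (j + 1) (x - w) - kap (j + 1) (y - w)) * gj n j f w := by
    have hx : gj n j f x = cv (kap (j + 1)) (gj n j f) x := by rw [P.NL.kap_gj n j hf]
    have hy : gj n j f y = cv (kap (j + 1)) (gj n j f) y := by rw [P.NL.kap_gj n j hf]
    rw [hx, hy]
    unfold cv
    rw [← integral_sub (ker_int_OS (P.ker_kap _) hg x) (ker_int_OS (P.ker_kap _) hg y)]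
    refine integral_congr_ae (Eventually.of_forall fun w => ?_)
    dsimp only
    ring
  have h3 : ‖gj n j f x - gj n j f y‖ₑ ≤
      ENNReal.ofReal (C1 * C2 * n * ((2:ℝ) ^ (j + 1) * ‖x - y‖)) := by
    rw [e]
    calc ‖∫ w, (kap (j + 1) (x - w) - kap (j + 1) (y - w)) * gj n j f w‖ₑ
        ≤ ∫⁻ w, ‖(kap (j + 1) (x - w) - kap (j + 1) (y - w)) * gj n j f w‖ₑ :=
          enorm_integral_le_lintegral_enorm _
      _ ≤ ∫⁻ w, ‖kap (j + 1) (x - w) - kap (j + 1) (y - w)‖ₑ * ENNReal.ofReal (C1 * n) := by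
          refine lintegral_mono fun w => ?_
          rw [enorm_mul]
          gcongr
          rw [← ofReal_norm]
          exact ENNReal.ofReal_le_ofReal (h1 n hn j f hf1 w)
      _ = (∫⁻ w, ‖kap (j + 1) (x - w) - kap (j + 1) (y - w)‖ₑ) * ENNReal.ofReal (C1 * n) := by
          rw [lintegral_mul_const']
          exact ENNReal.ofReal_ne_top
      _ ≤ ENNReal.ofReal (C2 * ((2:ℝ) ^ (j + 1) * ‖x - y‖)) * ENNReal.ofReal (C1 * n) := by
          gcongr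
          exact h2 _ x y hxy
      _ = _ := by
          rw [← ENNReal.ofReal_mul (by positivity)]
          congr 1
          ring
  rw [← ofReal_norm] at h3
  exact (ENNReal.ofReal_le_ofReal_iff (by positivity)).1 h3

private theorem geom_OS (a : ℤ) (m : ℕ) :
    ∑ j ∈ Finset.Ico a (a + m), (2:ℝ) ^ (j + 1) ≤ 2 * (2:ℝ) ^ (a + m) := by
  induction m with
  | zero => simp; positivity
  | succ m ih =>
    have h1 : Finset.Ico a (a + ((m + 1 : ℕ) : ℤ)) = insert (a + m) (Finset.Ico a (a + m)) := by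
      ext j
      simp only [Finset.mem_Ico, Finset.mem_insert]
      push_cast
      omega
    rw [h1, Finset.sum_insert (by simp)]
    have h2 : (2:ℝ) ^ (a + ((m + 1 : ℕ) : ℤ)) = (2:ℝ) ^ (a + m + 1) := by
      congr 1
      push_cast
      ring
    rw [h2]
    have h3 : (2:ℝ) ^ (a + m + 1) = (2:ℝ) ^ (a + m) * 2 := zpow_add_one₀ (by norm_num) _
    rw [h3]
    linarith

theorem hOS : StOS := by
  obtain ⟨C, hC, h⟩ := diff_gj_OS
  refine ⟨4 * C, by positivity, fun n hn a b f hf hf1 x y hxy => ?_⟩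
  have hb0 : (2:ℝ) ^ b * (2:ℝ) ^ (-b) = 1 := by
    rw [← zpow_add₀ (by norm_num), add_neg_cancel, zpow_zero]
  have hx0 : 0 ≤ ‖x - y‖ := norm_nonneg _
  have hpb : 0 < (2:ℝ) ^ b := by positivity
  have hbx : (2:ℝ) ^ b * ‖x - y‖ ≤ 2 := by
    calc (2:ℝ) ^ b * ‖x - y‖ ≤ (2:ℝ) ^ b * (2 * (2:ℝ) ^ (-b)) := by gcongr
      _ = 2 * ((2:ℝ) ^ b * (2:ℝ) ^ (-b)) := by ring
      _ = 2 := by rw [hb0, mul_one]
  unfold gW
  rw [← Finset.sum_sub_distrib]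
  have hterm : ∀ j ∈ Finset.Ico a b, ‖gj n j f x - gj n j f y‖ ≤
      C * n * ((2:ℝ) ^ (j + 1) * ‖x - y‖) := by
    intro j hj
    rw [Finset.mem_Ico] at hj
    refine h n hn j f hf hf1 x y ?_
    have : (2:ℝ) ^ (j + 1) ≤ (2:ℝ) ^ b := zpow_le_zpow_right₀ (by norm_num) (by omega)
    calc (2:ℝ) ^ (j + 1) * ‖x - y‖ ≤ (2:ℝ) ^ b * ‖x - y‖ := by gcongr
      _ ≤ 2 := hbx
  have hsum : ∑ j ∈ Finset.Ico a b, (2:ℝ) ^ (j + 1) ≤ 2 * (2:ℝ) ^ b := by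
    rcases le_or_gt a b with hab | hab
    · obtain ⟨m, rfl⟩ : ∃ m : ℕ, b = a + m := ⟨(b - a).toNat, by omega⟩
      exact geom_OS a m
    · rw [Finset.Ico_eq_empty (by omega), Finset.sum_empty]
      positivity
  calc ‖∑ j ∈ Finset.Ico a b, (gj n j f x - gj n j f y)‖
      ≤ ∑ j ∈ Finset.Ico a b, ‖gj n j f x - gj n j f y‖ := norm_sum_le _ _
    _ ≤ ∑ j ∈ Finset.Ico a b, C * n * ((2:ℝ) ^ (j + 1) * ‖x - y‖) := Finset.sum_le_sum hterm
    _ = C * n * ‖x - y‖ * ∑ j ∈ Finset.Ico a b, (2:ℝ) ^ (j + 1) := by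
        rw [Finset.mul_sum]
        refine Finset.sum_congr rfl fun j _ => ?_
        ring
    _ ≤ C * n * ‖x - y‖ * (2 * (2:ℝ) ^ b) := by gcongr
    _ = 2 * C * n * ((2:ℝ) ^ b * ‖x - y‖) := by ring
    _ ≤ 2 * C * n * 2 := by gcongr
    _ = 4 * C * n := by ring

end Helper87.UB
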