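import Pool.Agent.Helper87.UB.St
import Pool.Agent.Helper72.BAM.FL

/-!
# Project UB, module SP (stopping squares), helper72
-/

set_option autoImplicit false

open MeasureTheory Complex FourierTransform
open scoped ENNReal NNReal

noncomputable section

namespace Helper87.UB

open Helper72.BA

/-- the square of generation `i` with index `q` -/
private def sq_SP (i : ℤ) (q : ℤ × ℤ) : Set ℂ := {z : ℂ | cub 1 i z = q}

private theorem sq_meas_SP (i : ℤ) (q : ℤ × ℤ) : MeasurableSet (sq_SP i q) :=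
  Helper72.BA.P.SF.measurableSet_cub 1 i q

private theorem sq_vol_SP (i : ℤ) (q : ℤ × ℤ) :
    volume (sq_SP i q) = ENNReal.ofReal (((2:ℝ) ^ (-i)) ^ 2) := by
  have := Helper72.BA.P.SF.volume_cub (s := 1) one_pos i q
  rwa [one_mul] at this

private theorem sq_close_SP (i : ℤ) {z w : ℂ} (h : cub 1 i z = cub 1 i w) :
    ‖z - w‖ ≤ 2 * (2:ℝ) ^ (-i) := by
  have h1 := Helper72.BA.P.SFb_close 1 one_pos i z w h
  rw [one_mul] at h1
  have h2 : (0:ℝ) < (2:ℝ) ^ (-i) := by positivity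
  have h3 : ‖z - w‖ ^ 2 ≤ (2 * (2:ℝ) ^ (-i)) ^ 2 := by nlinarith
  exact (sq_le_sq₀ (norm_nonneg _) (by positivity)).1 h3

private theorem sq_nest_SP {i j : ℤ} (hij : i ≤ j) {z w : ℂ} (h : cub 1 j z = cub 1 j w) :
    cub 1 i z = cub 1 i w := by
  rw [Helper72.BA.P.SF.cub_nest hij z, Helper72.BA.P.SF.cub_nest hij w, h]

/-- a set which is a union of squares of generation `i`, is measured square by square -/
private theorem by_squares_SP (i : ℤ) (P : ℤ × ℤ → Prop) {E1 E2 : Set ℂ} (hE2 : MeasurableSet E2)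
    (c : ℝ≥0∞)
    (h : ∀ q, P q → volume (sq_SP i q ∩ E1) ≤ c * volume (sq_SP i q ∩ E2)) :
    volume ({z | P (cub 1 i z)} ∩ E1) ≤ c * volume ({z | P (cub 1 i z)} ∩ E2) := by
  classical
  set A : Set ℂ := {z | P (cub 1 i z)} with hA
  have hAm : MeasurableSet A := by
    have : A = (cub 1 i) ⁻¹' {q | P q} := rfl
    rw [this]
    exact Helper72.BA.P.SF.measurable_cub 1 i (Set.to_countable _).measurableSet
  have hun : ∀ E : Set ℂ, A ∩ E = ⋃ q : ℤ × ℤ, (sq_SP i q ∩ (A ∩ E)) := by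
    intro E
    rw [← Set.iUnion_inter]
    have : (⋃ q : ℤ × ℤ, sq_SP i q) = Set.univ := by
      ext z; simp [sq_SP]
    rw [this, Set.univ_inter]
  have hdis : Pairwise (Function.onFun Disjoint fun q : ℤ × ℤ => (sq_SP i q ∩ (A ∩ E2))) := by
    intro q r hqr
    rw [Function.onFun, Set.disjoint_left]
    intro z hz hz'
    exact hqr (hz.1.symm.trans hz'.1)
  have key : ∀ q, volume (sq_SP i q ∩ (A ∩ E1)) ≤ c * volume (sq_SP i q ∩ (A ∩ E2)) := by
    intro q
    by_cases hq : P q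
    · have hsub : ∀ E : Set ℂ, sq_SP i q ∩ (A ∩ E) = sq_SP i q ∩ E := by
        intro E
        ext z
        constructor
        · intro hz; exact ⟨hz.1, hz.2.2⟩
        · intro hz
          refine ⟨hz.1, ?_, hz.2⟩
          have : cub 1 i z = q := hz.1
          rw [hA, Set.mem_ofPred_eq, this]
          exact hq
      rw [hsub, hsub]
      exact h q hq
    · have : sq_SP i q ∩ (A ∩ E1) = ∅ := by
        ext z
        simp only [Set.mem_inter_iff, Set.mem_empty_iff_false, iff_false, not_and]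
        intro hz hzA
        exfalso
        apply hq
        have h1 : cub 1 i z = q := hz
        rw [hA, Set.mem_ofPred_eq, h1] at hzA
        exact hzA
      rw [this, measure_empty]
      exact zero_le
  rw [hun E1, hun E2, measure_iUnion hdis (fun q => (sq_meas_SP i q).inter (hAm.inter hE2)),
    ← ENNReal.tsum_mul_left]
  exact (measure_iUnion_le _).trans (ENNReal.tsum_le_tsum key)

private theorem gW_split_SP (n : ℕ) {a b c : ℤ} (h1 : a ≤ b) (h2 : b ≤ c) (f : ℂ → ℂ) (z : ℂ) :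
    gW n (Finset.Ico a c) f z = gW n (Finset.Ico a b) f z + gW n (Finset.Ico b c) f z := by
  unfold gW
  rw [← Finset.sum_union (Finset.Ico_disjoint_Ico_consecutive a b c),
    Finset.Ico_union_Ico_eq_Ico h1 h2]

private theorem gW_two_SP (n : ℕ) (a : ℤ) (f : ℂ → ℂ) (z : ℂ) :
    gW n (Finset.Ico a (a + 2)) f z = gj n a f z + gj n (a + 1) f z := by
  unfold gW
  have : Finset.Ico a (a + 2) = {a, a + 1} := by
    ext j; simp only [Finset.mem_Ico, Finset.mem_insert, Finset.mem_singleton]; omega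
  rw [this, Finset.sum_pair (by omega)]

theorem hSP (hO : StOS) (hF : StFA) (hH : StHF) (hL : StLG) : StSP := by
  obtain ⟨CO, hCO, hO⟩ := hO
  obtain ⟨CF, hCF, hF⟩ := hF
  obtain ⟨CH, hCH, hH⟩ := hH
  obtain ⟨CL, hCL, hL⟩ := hL
  set C0 := CO + CF + CH + CL with hC0
  refine ⟨5 * C0, by positivity, ?_⟩
  intro k hk
  obtain ⟨n0, hL⟩ := hL k hk
  refine ⟨max n0 1, ?_⟩
  intro n hn M f hf hf1 t ht
  have hn0 : n0 ≤ n := (le_max_left _ _).trans hn
  have hn1 : 1 ≤ n := (le_max_right _ _).trans hn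
  have hnr : (0:ℝ) < n := by exact_mod_cast hn1
  set ρ : ℝ := 36000 * k ^ 2 * (2 * k).factorial / (2 * k : ℝ) ^ (2 * k) with hρ
  have hρ2 : ENNReal.ofReal (72000 * k ^ 2 * (2 * k).factorial / (2 * k : ℝ) ^ (2 * k)) =
      2 * ENNReal.ofReal ρ := by
    have e3 : (2:ℝ≥0∞) = ENNReal.ofReal 2 := by simp
    rw [e3, ← ENNReal.ofReal_mul (by norm_num)]
    congr 1
    rw [hρ]; ring
  set F : ℂ → ℂ := gW n (Finset.Ico (-M : ℤ) M) f with hFd
  have hFm : Measurable F := (Helper72.BA.P.FL.nice_gW n _ hf).meas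
  set S : ℕ → ℂ → ℂ := fun m => gW n (Finset.Ico (-M : ℤ) (-M + 2 * m)) f with hSd
  set R : ℕ → ℂ → ℂ := fun m => gW n (Finset.Ico (-M + 2 * m : ℤ) M) f with hRd
  set E1 : Set ℂ := {z : ℂ | t + (2 * k + 5 * C0) * n < ‖F z‖} with hE1
  set E2 : Set ℂ := {z : ℂ | t < ‖F z‖} with hE2
  have hE1m : MeasurableSet E1 := measurableSet_lt measurable_const hFm.norm
  have hE2m : MeasurableSet E2 := measurableSet_lt measurable_const hFm.norm
  set l : ℝ := t + 2 * C0 * n with hl
  -- hit squares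
  set hit : ℕ → ℤ × ℤ → Prop := fun m q => ∃ x, cub 1 (-M + 2 * m : ℤ) x = q ∧ l < ‖S m x‖ with hhit
  set A : ℕ → Set ℂ := fun m => {z | hit m (cub 1 (-M + 2 * m : ℤ) z) ∧
    ∀ m' < m, ¬ hit m' (cub 1 (-M + 2 * m' : ℤ) z)} with hAd
  -- a representative description
  set P : ℕ → ℤ × ℤ → Prop := fun m q => ∃ z, cub 1 (-M + 2 * m : ℤ) z = q ∧ z ∈ A m with hP
  have hAP : ∀ m, A m = {z | P m (cub 1 (-M + 2 * m : ℤ) z)} := by
    intro m
    ext z
    constructor
    · intro hz; exact ⟨z, rfl, hz⟩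
    · rintro ⟨w, hw, hwA⟩
      refine ⟨?_, ?_⟩
      · rw [← hw]; exact hwA.1
      · intro m' hm'
        rw [← sq_nest_SP (i := (-M + 2 * m' : ℤ)) (j := (-M + 2 * m : ℤ)) (by omega) hw]
        exact hwA.2 m' hm'
  have hAm : ∀ m, MeasurableSet (A m) := by
    intro m
    rw [hAP m]
    have : {z | P m (cub 1 (-M + 2 * m : ℤ) z)} = (cub 1 (-M + 2 * m : ℤ)) ⁻¹' {q | P m q} := rfl
    rw [this]
    exact Helper72.BA.P.SF.measurable_cub 1 _ (Set.to_countable _).measurableSet
  -- the estimate on one square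
  have hsq : ∀ m, m ≤ M → ∀ q, P m q →
      volume (sq_SP (-M + 2 * m : ℤ) q ∩ E1) ≤
        (2 * ENNReal.ofReal ρ) * volume (sq_SP (-M + 2 * m : ℤ) q ∩ E2) := by
    intro m hm q hq
    obtain ⟨z0, hz0, hz0A⟩ := hq
    obtain ⟨x0, hx0, hx0S⟩ := hz0A.1
    rw [hz0] at hx0
    set Q := sq_SP (-M + 2 * m : ℤ) q with hQ
    have hQm : MeasurableSet Q := sq_meas_SP _ _
    have hQv : volume Q = ENNReal.ofReal (((2:ℝ) ^ (-(-M + 2 * m : ℤ))) ^ 2) := sq_vol_SP _ _
    have hQb : Q ⊆ Metric.closedBall x0 (2 * (2:ℝ) ^ (-(-M + 2 * m : ℤ))) := by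
      intro z hz
      rw [Metric.mem_closedBall, dist_eq_norm]
      refine sq_close_SP _ ?_
      rw [hx0]; exact hz
    have hQt : volume Q ≠ ∞ := by rw [hQv]; exact ENNReal.ofReal_ne_top
    -- m ≥ 1
    have hm1 : 1 ≤ m := by
      by_contra hcon
      have hm0 : m = 0 := by omega
      have : S m x0 = 0 := by
        rw [hSd, hm0]; simp [gW]
      rw [this, norm_zero] at hx0S
      have : 0 ≤ l := by rw [hl]; positivity
      linarith
    -- bounds for S on Q
    have hSlow : ∀ z ∈ Q, l - CO * n < ‖S m z‖ := by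
      intro z hz
      have h1 : ‖x0 - z‖ ≤ 2 * (2:ℝ) ^ (-(-M + 2 * m : ℤ)) := by
        refine sq_close_SP _ ?_
        rw [hx0]; exact hz.symm
      have h2 := hO n hn1 (-M : ℤ) (-M + 2 * m : ℤ) f hf hf1 x0 z h1
      have h3 : ‖S m x0‖ ≤ ‖S m z‖ + ‖S m x0 - S m z‖ := by
        calc ‖S m x0‖ = ‖S m z + (S m x0 - S m z)‖ := by congr 1; ring
          _ ≤ _ := norm_add_le _ _
      have h4 : ‖S m x0 - S m z‖ ≤ CO * n := h2
      linarith
    have hSup : ∀ z ∈ Q, ‖S m z‖ ≤ l + 2 * CF * n := by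
      intro z hz
      have h1 : ‖S (m - 1) z‖ ≤ l := by
        by_contra hcon
        rw [not_le] at hcon
        have h2 := hz0A.2 (m - 1) (by omega)
        apply h2
        refine ⟨z, ?_, hcon⟩
        refine sq_nest_SP (i := (-M + 2 * (m - 1 : ℕ) : ℤ)) (j := (-M + 2 * m : ℤ)) (by omega) ?_
        rw [hz0]; exact hz
      have h2 : S m z = S (m - 1) z + (gj n (-M + 2 * (m - 1 : ℕ) : ℤ) f z +
          gj n (-M + 2 * (m - 1 : ℕ) + 1 : ℤ) f z) := by
        rw [← gW_two_SP]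
        have e : (-M + 2 * m : ℤ) = -M + 2 * (m - 1 : ℕ) + 2 := by omega
        simp only [hSd]
        rw [e]
        exact gW_split_SP n (by omega) (by omega) f z
      have h3 := (hF n hn1 f hf hf1).2 (-M + 2 * (m - 1 : ℕ) : ℤ) z
      have h4 := (hF n hn1 f hf hf1).2 (-M + 2 * (m - 1 : ℕ) + 1 : ℤ) z
      rw [h2]
      calc _ ≤ ‖S (m - 1) z‖ + (‖gj n (-M + 2 * (m - 1 : ℕ) : ℤ) f z‖ +
          ‖gj n (-M + 2 * (m - 1 : ℕ) + 1 : ℤ) f z‖) :=
            (norm_add_le _ _).trans (add_le_add le_rfl (norm_add_le _ _))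
        _ ≤ _ := by linarith
    have hFS : ∀ z, F z = S m z + R m z := fun z => gW_split_SP n (by omega) (by omega) f z
    -- large values
    have hbig : volume (Q ∩ E1) ≤ ENNReal.ofReal ρ * volume Q := by
      refine le_trans (measure_mono ?_) (hL n hn0 f hf hf1 M m hm x0 Q hQm hQb hQv)
      intro z hz
      refine ⟨hz.1, ?_⟩
      have h1 : t + (2 * k + 5 * C0) * n < ‖F z‖ := hz.2
      rw [hFS z] at h1
      have h2 := hSup z hz.1
      have h3 := norm_add_le (S m z) (R m z)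
      have h4 : (2 * k + CL) * n ≤ t + (2 * k + 5 * C0) * n - (l + 2 * CF * n) := by
        rw [hl]
        have : 0 ≤ (CO + CH + CF + CF + CF) * n := by positivity
        have h5 : 0 ≤ (3 * C0 - 2 * CF - CL) * n := by
          apply mul_nonneg _ hnr.le
          rw [hC0]; linarith
        nlinarith
      show (2 * (k:ℝ) + CL) * n < ‖R m z‖
      linarith
    -- half of the square
    have hhalf : volume Q ≤ 2 * volume (Q ∩ E2) := by
      have h1 : 2 * volume (Q \ E2) ≤ volume Q := by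
        refine le_trans ?_ (hH n hn1 f hf hf1 (-M + 2 * m : ℤ) M x0 Q hQm hQb hQv)
        gcongr
        intro z hz
        refine ⟨hz.1, ?_⟩
        have h2 : ¬ (t < ‖F z‖) := hz.2
        rw [not_lt, hFS z] at h2
        have h3 := hSlow z hz.1
        have h4 : ‖S m z‖ ≤ ‖S m z + R m z‖ + ‖R m z‖ := by
          calc ‖S m z‖ = ‖(S m z + R m z) - R m z‖ := by congr 1; ring
            _ ≤ _ := norm_sub_le _ _
        have h5 : 0 ≤ (2 * C0 - CO - CH) * n := by
          apply mul_nonneg _ hnr.le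
          rw [hC0]; linarith
        show CH * (n:ℝ) < ‖R m z‖
        rw [hl] at h3
        nlinarith
      have h2 : volume (Q ∩ E2) + volume (Q \ E2) = volume Q := measure_inter_add_sdiff Q hE2m
      have h3 : volume (Q \ E2) ≠ ∞ := ne_top_of_le_ne_top hQt (measure_mono Set.sdiff_subset)
      have h4 : volume Q + volume Q ≤ 2 * volume (Q ∩ E2) + volume Q := by
        calc volume Q + volume Q = 2 * volume (Q ∩ E2) + 2 * volume (Q \ E2) := by
              rw [← mul_add, h2, two_mul]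
          _ ≤ _ := by gcongr
      exact (ENNReal.add_le_add_iff_right hQt).1 h4
    calc volume (Q ∩ E1) ≤ ENNReal.ofReal ρ * volume Q := hbig
      _ ≤ ENNReal.ofReal ρ * (2 * volume (Q ∩ E2)) := by gcongr
      _ = _ := by ring
  have hgen : ∀ m, m ≤ M → volume (A m ∩ E1) ≤ (2 * ENNReal.ofReal ρ) * volume (A m ∩ E2) := by
    intro m hm
    rw [hAP m]
    exact by_squares_SP _ (P m) hE2m _ (hsq m hm)
  -- cover
  have hcov : E1 ⊆ ⋃ m ∈ Finset.range (M + 1), (A m ∩ E1) := by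
    intro z hz
    have hz1 : t + (2 * k + 5 * C0) * n < ‖F z‖ := hz
    have h1 : hit M (cub 1 (-M + 2 * M : ℤ) z) := by
      refine ⟨z, rfl, ?_⟩
      have : S M z = F z := by
        simp only [hSd, hFd]
        congr 2
        omega
      rw [this]
      have h5 : 0 ≤ (2 * k + 3 * C0) * n := by positivity
      rw [hl]
      nlinarith
    have hex : ∃ m, hit m (cub 1 (-M + 2 * m : ℤ) z) := ⟨M, h1⟩
    classical
    have hle : Nat.find hex ≤ M := Nat.find_min' hex h1
    rw [Set.mem_iUnion₂]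
    refine ⟨Nat.find hex, Finset.mem_range.2 (by omega), ⟨Nat.find_spec hex, ?_⟩, hz⟩
    intro m' hm'
    exact Nat.find_min hex hm'
  have hdis : (↑(Finset.range (M + 1)) : Set ℕ).PairwiseDisjoint fun m => A m ∩ E2 := by
    intro a _ b _ hab
    rw [Function.onFun, Set.disjoint_left]
    rintro z ⟨hza, _⟩ ⟨hzb, _⟩
    rcases lt_or_gt_of_ne hab with h | h
    · exact hzb.2 a h hza.1
    · exact hza.2 b h hzb.1
  rw [hρ2]
  calc volume E1 ≤ volume (⋃ m ∈ Finset.range (M + 1), (A m ∩ E1)) := measure_mono hcov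
    _ ≤ ∑ m ∈ Finset.range (M + 1), volume (A m ∩ E1) := measure_biUnion_finset_le _ _
    _ ≤ ∑ m ∈ Finset.range (M + 1), (2 * ENNReal.ofReal ρ) * volume (A m ∩ E2) :=
        Finset.sum_le_sum fun m hm => hgen m (by rw [Finset.mem_range] at hm; omega)
    _ = (2 * ENNReal.ofReal ρ) * volume (⋃ m ∈ Finset.range (M + 1), (A m ∩ E2)) := by
        rw [← Finset.mul_sum, measure_biUnion_finset hdis fun m _ => (hAm m).inter hE2m]
    _ ≤ (2 * ENNReal.ofReal ρ) * volume E2 := by
        gcongr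
        exact Set.iUnion₂_subset fun m _ => Set.inter_subset_right

end Helper87.UB
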