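import Pool.Agent.Helper87.UB.St
import Pool.Agent.Helper72.BAM.L2
import Pool.Agent.Helper72.BAM.LG
import Pool.Agent.Helper72.BAM.PC4
import Pool.Agent.Helper72.BAM.WF

set_option autoImplicit false

open MeasureTheory Complex FourierTransform Filter Topology
open scoped ENNReal NNReal ComplexConjugate

noncomputable section

namespace Helper87.UB

open Helper72.BA Helper72.BA.P

/-- one function `u` with a pointwise bound of the smoothed Fourier transform -/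
private lemma chain_WB (hD : StCD) (k : ℕ) (hk : 2 ≤ k) (θ : SchwartzMap ℂ ℂ) (hθ : nrm 2 θ = 1)
    (κ : ℝ) (hκ : 0 < κ) (D : ℝ) (hD0 : 0 ≤ D)
    (u : ℂ → ℂ) (hu : Nice u) (huc : Continuous u) (hui : Integrable (𝓕 u))
    (hb : ∀ ξ : ℂ, ENNReal.ofReal (‖ξ‖ ^ 4) *
      ∫⁻ η, ‖((κ : ℝ) : ℂ)⁻¹ * θ ((ξ - η) / κ) * 𝓕 u η‖ₑ ^ 2 ≤ ENNReal.ofReal (D ^ 2)) :
    nrm (2 * k) u ≤
      ENNReal.ofReal (500 * k ^ 2 * (2 * k).factorial * (Real.pi * D) ^ (2 * k - 2)) * nrm 2 u := by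
  have hF : Measurable (fun ξ => ‖𝓕 u ξ‖ₑ) := (fourier_continuous hu.int).measurable.enorm
  have h1 := P.nrm_le_lcp k (by omega) u hu huc hui
  have h2 := P.minkowski_trick (Gd θ κ) (fun ξ => ‖𝓕 u ξ‖ₑ) (meas_Gd θ κ) hF
    (lintegral_Gd θ hθ κ hκ) (k - 1)
  set v : ℂ → ℝ≥0∞ := fun ξ => (∫⁻ η, Gd θ κ (ξ - η) * ‖𝓕 u η‖ₑ ^ 2) ^ (1 / 2 : ℝ) with hvdef
  have hv0 : Measurable (fun ξ => (∫⁻ η, Gd θ κ (ξ - η) * ‖𝓕 u η‖ₑ ^ 2)) := by
    refine Measurable.lintegral_prod_right' (f := fun q : ℂ × ℂ => Gd θ κ (q.1 - q.2) * ‖𝓕 u q.2‖ₑ ^ 2) ?_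
    exact ((meas_Gd θ κ).comp (measurable_fst.sub measurable_snd)).mul
      ((hF.comp measurable_snd).pow_const 2)
  have hv : Measurable v := hv0.pow_const _
  have hvsq : ∀ ξ, v ξ ^ 2 = ∫⁻ η, Gd θ κ (ξ - η) * ‖𝓕 u η‖ₑ ^ 2 := by
    intro ξ
    rw [hvdef]
    simp only
    rw [← ENNReal.rpow_natCast, ← ENNReal.rpow_mul]
    norm_num
  have hb' : ∀ ξ, ‖ξ‖ₑ ^ 2 * v ξ ≤ ENNReal.ofReal D := by
    intro ξ
    have h3 : (‖ξ‖ₑ ^ 2 * v ξ) ^ 2 ≤ ENNReal.ofReal D ^ 2 := by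
      rw [mul_pow, hvsq, ← pow_mul, ← ENNReal.ofReal_pow hD0]
      refine le_trans (le_of_eq ?_) (hb ξ)
      rw [← ofReal_norm, ← ENNReal.ofReal_pow (norm_nonneg _)]
      congr 1
      refine lintegral_congr fun η => ?_
      rw [Gd, ← mul_pow, ← enorm_mul]
    exact (ENNReal.pow_le_pow_left_iff (by norm_num)).1 h3
  have h3 := hD k hk D hD0 v hv hb'
  refine h1.trans (h2.trans (h3.trans ?_))
  gcongr
  refine le_of_eq ?_
  calc ∫⁻ ξ, v ξ ^ 2 = ∫⁻ ξ : ℂ, ∫⁻ η, Gd θ κ (ξ - η) * ‖𝓕 u η‖ₑ ^ 2 := by simp only [hvsq]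
    _ = ∫⁻ η : ℂ, ∫⁻ ξ, Gd θ κ (ξ - η) * ‖𝓕 u η‖ₑ ^ 2 := by
        rw [lintegral_lintegral_swap]
        exact (((meas_Gd θ κ).comp (measurable_fst.sub measurable_snd)).mul
          ((hF.comp measurable_snd).pow_const 2)).aemeasurable
    _ = ∫⁻ η : ℂ, ‖𝓕 u η‖ₑ ^ 2 := by
        refine lintegral_congr fun η => ?_
        have hG : Measurable (fun ξ : ℂ => Gd θ κ (ξ - η)) :=
          (meas_Gd θ κ).comp (measurable_id.sub_const η)
        rw [lintegral_mul_const _ hG,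
          lintegral_sub_right_eq_self (μ := volume) (fun w : ℂ => Gd θ κ w) η,
          lintegral_Gd θ hθ κ hκ, one_mul]
    _ = nrm 2 u := P.plancherel hu

/-- one window -/
private lemma window_WB (hD : StCD) (k : ℕ) (hk : 2 ≤ k) (φ θ : SchwartzMap ℂ ℂ)
    (hφ : ∀ z, ‖φ z‖ ≤ 1) (hθ : nrm 2 θ = 1) (n : ℕ) (W : Finset ℤ) (κ r : ℝ) (hκ : 0 < κ)
    (hr : 0 < r) (D : ℝ) (hD0 : 0 ≤ D) {f : ℂ → ℂ} (hf : Nice f)
    (hb : ∀ z₀ ξ : ℂ, ENNReal.ofReal (‖ξ‖ ^ 4) *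
      ∫⁻ η, ‖((κ : ℝ) : ℂ)⁻¹ * θ ((ξ - η) / κ) * 𝓕 (wu φ r (gW n W f) z₀) η‖ₑ ^ 2
        ≤ ENNReal.ofReal (D ^ 2)) :
    nrm (2 * k) φ * nrm (2 * k) (gW n W f) ≤
      ENNReal.ofReal (500 * k ^ 2 * (2 * k).factorial * (Real.pi * D) ^ (2 * k - 2)) *
        (nrm 2 φ * nrm 2 (gW n W f)) := by
  rw [window_identity (2 * k) φ r hr (nice_gW n W hf).meas,
    window_identity 2 φ r hr (nice_gW n W hf).meas,
    ← lintegral_const_mul' _ _ ENNReal.ofReal_ne_top]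
  refine lintegral_mono fun z₀ => ?_
  have hu := nice_wu φ hφ r (nice_gW n W hf) z₀
  have huc := continuous_wu φ r (continuous_gW n W hf) z₀
  have hui := integrable_fourier_wu φ r hr (nice_gW n W hf) (continuous_gW n W hf)
    (integrable_fourier_gW n W hf) z₀
  have h := chain_WB hD k hk θ hθ κ hκ D hD0 _ hu huc hui (hb z₀)
  calc ENNReal.ofReal ((r ^ 2)⁻¹) * nrm (2 * k) (wu φ r (gW n W f) z₀)
      ≤ ENNReal.ofReal ((r ^ 2)⁻¹) *
        (ENNReal.ofReal (500 * k ^ 2 * (2 * k).factorial * (Real.pi * D) ^ (2 * k - 2)) *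
          nrm 2 (wu φ r (gW n W f) z₀)) := by gcongr
    _ = _ := by ring

theorem hWB (hD : StCD) : StWB := by
  intro k hk B
  -- choice of ε'
  set ε : ℝ := 1 / 5 with hεdef
  have hε : 0 < ε := by norm_num [hεdef]
  set ε' : ℝ := (1 + ε) ^ (1 / (2 * k : ℝ)) - 1 with hε'def
  have hk0 : (0:ℝ) < 2 * k := by
    have : (2:ℝ) ≤ k := by exact_mod_cast hk
    linarith
  have hε' : 0 < ε' := by
    have : (1:ℝ) < (1 + ε) ^ (1 / (2 * k : ℝ)) := Real.one_lt_rpow (by linarith) (by positivity)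
    linarith
  have hpow : (1 + ε') ^ (2 * k) = 1 + ε := by
    have e1 : 1 + ε' = (1 + ε) ^ (1 / (2 * k : ℝ)) := by rw [hε'def]; ring
    rw [e1, ← Real.rpow_natCast, ← Real.rpow_mul (by linarith)]
    have e2 : 1 / (2 * k : ℝ) * ((2 * k : ℕ) : ℝ) = 1 := by
      push_cast
      field_simp
    rw [e2, Real.rpow_one]
  have hpow1 : (1 + ε') ^ (2 * k - 1) ≤ 1 + ε := by
    rw [← hpow]
    exact pow_le_pow_right₀ (by linarith) (by omega)
  obtain ⟨φ, ρ₀, hρ₀, hφ, hφs, hφ0, hφt, hφ2⟩ := P.window_function k (by omega) ε' hε'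
  obtain ⟨θ, hθs, hθ1⟩ := P.theta_exists
  have H : ∀ b : ℕ, ∃ κ r : ℝ, ∃ n0 : ℕ, 0 < κ ∧ 0 < r ∧ (1 ≤ b → ∀ n : ℕ, n0 ≤ n → ∀ a : ℤ,
      ∀ f : ℂ → ℂ, Nice f → (∀ z, ‖f z‖ ≤ 1) → ∀ z₀ ξ : ℂ,
      ENNReal.ofReal (‖ξ‖ ^ 4) * ∫⁻ η, ‖((κ * 2 ^ a : ℝ) : ℂ)⁻¹ * θ ((ξ - η) / (κ * 2 ^ a : ℝ)) *
          𝓕 (fun z => φ ((z - z₀) / (r * 2 ^ (-a) : ℝ)) * gW n (Finset.Ico a (a + b)) f z) η‖ₑ ^ 2
        ≤ ENNReal.ofReal (((1 + ε') * n / Real.pi) ^ 2)) := by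
    intro b
    by_cases hb : 1 ≤ b
    · obtain ⟨κ, r, h1, h2, h3, _, n0, h4⟩ := P.Linf_general b hb φ hφ ρ₀ hφs θ hθs hθ1 ε' hε'
      exact ⟨κ, r, n0, h1, by linarith, fun _ => h4⟩
    · exact ⟨1, 1, 0, one_pos, one_pos, fun h => absurd h hb⟩
  choose κ r n0 hκ hr hL using H
  refine ⟨(Finset.range (B + 1)).sup n0, fun n hn N a b hab f hf hf1 => ?_⟩
  classical
  set A : Finset ℕ := (Finset.range N).filter (fun l => a l < b l) with hA
  set W : ℕ → Finset ℤ := fun l => Finset.Ico (a l) (b l) with hWdef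
  set bl : ℕ → ℕ := fun l => (b l - a l).toNat with hbl
  have hD0 : (0:ℝ) ≤ (1 + ε') * n / Real.pi := by positivity
  have hbl1 : ∀ l, b l = a l + bl l := by
    intro l
    have := (hab l).1
    simp only [hbl]
    omega
  have hblB : ∀ l, bl l ≤ B := by
    intro l
    have := (hab l).2.1
    simp only [hbl]
    omega
  have hblpos : ∀ l ∈ A, 1 ≤ bl l := by
    intro l hl
    have h2 : a l < b l := (Finset.mem_filter.1 hl).2
    simp only [hbl]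
    omega
  have hn0 : ∀ l, n0 (bl l) ≤ n := by
    intro l
    refine le_trans ?_ hn
    exact Finset.le_sup (f := n0) (Finset.mem_range.2 (Nat.lt_succ_of_le (hblB l)))
  have hdisj : ∀ i ∈ A, ∀ j ∈ A, i ≠ j → Disjoint (W i) (W j) := by
    have h3 : ∀ i j, i < j → Disjoint (W i) (W j) := by
      intro i j hij
      obtain ⟨d, rfl⟩ : ∃ d, j = i + 1 + d := ⟨j - (i + 1), by omega⟩
      have h4 := mono_ab (fun l => (hab l).1) (fun l => (hab l).2.2) i d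
      rw [Finset.disjoint_left]
      intro x hx hx'
      simp only [hWdef, Finset.mem_Ico] at hx hx'
      omega
    intro i _ j _ hij
    rcases lt_or_gt_of_ne hij with h | h
    · exact h3 i j h
    · exact (h3 j i h).symm
  set D : ℝ := (1 + ε') * n / Real.pi with hDdef
  have core : ∀ l ∈ A, nrm (2 * k) φ * nrm (2 * k) (gW n (W l) f) ≤
      ENNReal.ofReal (500 * k ^ 2 * (2 * k).factorial * (Real.pi * D) ^ (2 * k - 2)) *
        (nrm 2 φ * nrm 2 (gW n (W l) f)) := by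
    intro l hl
    refine window_WB hD k hk φ θ hφ hθ1 n (W l) (κ (bl l) * 2 ^ (a l)) (r (bl l) * 2 ^ (-(a l)))
      (by have := hκ (bl l); positivity) (by have := hr (bl l); positivity) D hD0 hf ?_
    intro z₀ ξ
    have h5 := hL (bl l) (hblpos l hl) n (hn0 l) (a l) f hf hf1 z₀ ξ
    rw [← hbl1 l] at h5
    exact h5
  -- the sum over the nonempty windows
  have hsum : ∑ l ∈ Finset.range N, nrm (2 * k) (gW n (Finset.Ico (a l) (b l)) f)
      = ∑ l ∈ A, nrm (2 * k) (gW n (W l) f) := by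
    rw [hA, Finset.sum_filter]
    refine Finset.sum_congr rfl fun l _ => ?_
    split_ifs with h
    · rfl
    · have h6 : Finset.Ico (a l) (b l) = ∅ := Finset.Ico_eq_empty (by omega)
      rw [h6, gW_empty, nrm_zero _ (by omega)]
  rw [hsum]
  set Sg := ∑ l ∈ A, nrm (2 * k) (gW n (W l) f) with hSg
  have step : nrm (2 * k) φ * Sg ≤ nrm (2 * k) φ *
      (ENNReal.ofReal (600 * k ^ 2 * (2 * k).factorial * (n:ℝ) ^ (2 * k - 2)) * nrm 2 f) := by
    calc nrm (2 * k) φ * Sg = ∑ l ∈ A, nrm (2 * k) φ * nrm (2 * k) (gW n (W l) f) := by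
          rw [hSg, Finset.mul_sum]
      _ ≤ ∑ l ∈ A, ENNReal.ofReal (500 * k ^ 2 * (2 * k).factorial * (Real.pi * D) ^ (2 * k - 2)) *
        (nrm 2 φ * nrm 2 (gW n (W l) f)) := Finset.sum_le_sum core
      _ = ENNReal.ofReal (500 * k ^ 2 * (2 * k).factorial * (Real.pi * D) ^ (2 * k - 2)) *
        (nrm 2 φ * ∑ l ∈ A, nrm 2 (gW n (W l) f)) := by
          rw [Finset.mul_sum, Finset.mul_sum]
      _ ≤ ENNReal.ofReal (500 * k ^ 2 * (2 * k).factorial * (Real.pi * D) ^ (2 * k - 2)) *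
        ((ENNReal.ofReal (1 + ε') * nrm (2 * k) φ) * nrm 2 f) := by
          gcongr
          exact P.sum_nrm_two_windows n A W hdisj f hf
      _ = nrm (2 * k) φ * ((ENNReal.ofReal (500 * k ^ 2 * (2 * k).factorial *
          (Real.pi * D) ^ (2 * k - 2)) * ENNReal.ofReal (1 + ε')) * nrm 2 f) := by ring
      _ ≤ _ := by
          gcongr
          rw [← ENNReal.ofReal_mul (by positivity)]
          apply ENNReal.ofReal_le_ofReal
          have e0 : Real.pi * D = (1 + ε') * n := by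
            rw [hDdef]
            field_simp
          have e3 : 500 * (k:ℝ) ^ 2 * (2 * k).factorial * (Real.pi * D) ^ (2 * k - 2) * (1 + ε')
              = (1 + ε') ^ (2 * k - 1) * (500 * (k:ℝ) ^ 2 * (2 * k).factorial *
                (n:ℝ) ^ (2 * k - 2)) := by
            rw [e0, mul_pow]
            have e4 : 2 * k - 1 = (2 * k - 2) + 1 := by omega
            rw [e4, pow_succ]
            ring
          rw [e3]
          calc (1 + ε') ^ (2 * k - 1) * (500 * (k:ℝ) ^ 2 * (2 * k).factorial *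
                (n:ℝ) ^ (2 * k - 2))
              ≤ (1 + ε) * (500 * (k:ℝ) ^ 2 * (2 * k).factorial * (n:ℝ) ^ (2 * k - 2)) := by
                gcongr
            _ = 600 * k ^ 2 * (2 * k).factorial * (n:ℝ) ^ (2 * k - 2) := by
                rw [hεdef]; ring
  exact (ENNReal.mul_le_mul_iff_right hφ0.ne' hφt.ne).1 step

end Helper87.UB
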