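import Pool.Agent.Helper87.UB.M_CA
import Pool.Agent.Helper87.UB.M_CB
import Pool.Agent.Helper87.UB.M_CC
import Pool.Agent.Helper87.UB.M_CD
import Pool.Agent.Helper87.UB.M_WB
import Pool.Agent.Helper87.UB.M_BD
import Pool.Agent.Helper87.UB.M_OS
import Pool.Agent.Helper87.UB.M_FA
import Pool.Agent.Helper87.UB.M_HF
import Pool.Agent.Helper87.UB.M_LG
import Pool.Agent.Helper87.UB.M_SP
import Pool.Agent.Helper87.UB.M_GL
import Pool.Agent.Helper87.UB.M_FN

set_option autoImplicit false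

open MeasureTheory Complex FourierTransform Filter Topology
open scoped ENNReal NNReal ComplexConjugate

noncomputable section

namespace Helper87.UB

open Helper72.BA Helper72.BQ

theorem all_CD : StCD := hCD hCA hCB hCC
theorem all_BD : StBD := hBD (hWB all_CD)
theorem all_SP : StSP := hSP hOS hFA (hHF hFA) (hLG hFA all_BD)

/-- `A_p ≥ e^{-η} p` for large `p` -/
theorem Ap_large (η : ℝ) (hη : 0 < η) : ∃ p1 : ℝ, 2 ≤ p1 ∧ ∀ p : ℝ, p1 ≤ p →
    p ≤ Real.exp η * Ap p := by
  have g : ∀ s : ℝ, 0 < s → ContinuousAt Real.Gamma s := fun s hs =>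
    (Real.differentiableAt_Gamma (fun m h => by
      have : (0:ℝ) ≤ m := Nat.cast_nonneg m
      linarith)).continuousAt
  have h1 : Tendsto (fun x : ℝ => Real.exp η * (Real.Gamma (1 + x) / Real.Gamma (1 - x))) (𝓝 0)
      (𝓝 (Real.exp η * (Real.Gamma 1 / Real.Gamma 1))) := by
    have c1 : Tendsto (fun x : ℝ => Real.Gamma (1 + x)) (𝓝 0) (𝓝 (Real.Gamma 1)) := by
      have h := (g 1 one_pos).tendsto
      refine h.comp ?_
      have : Tendsto (fun x : ℝ => 1 + x) (𝓝 0) (𝓝 (1 + 0)) := tendsto_const_nhds.add tendsto_id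
      simpa using this
    have c2 : Tendsto (fun x : ℝ => Real.Gamma (1 - x)) (𝓝 0) (𝓝 (Real.Gamma 1)) := by
      have h := (g 1 one_pos).tendsto
      refine h.comp ?_
      have : Tendsto (fun x : ℝ => 1 - x) (𝓝 0) (𝓝 (1 - 0)) := tendsto_const_nhds.sub tendsto_id
      simpa using this
    exact (c1.div c2 (by rw [Real.Gamma_one]; exact one_ne_zero)).const_mul _
  rw [Real.Gamma_one, div_one, mul_one] at h1
  have h2 := h1.eventually (lt_mem_nhds (Real.one_lt_exp_iff.2 hη))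
  rw [Metric.eventually_nhds_iff] at h2
  obtain ⟨r, hr, hrr⟩ := h2
  refine ⟨max 2 (2 / r), le_max_left _ _, fun p hp => ?_⟩
  have hp2 : 2 ≤ p := (le_max_left _ _).trans hp
  have hp0 : 0 < p := by linarith
  have hpr : 2 / r ≤ p := (le_max_right _ _).trans hp
  have hx : 1 / p < r := by
    rw [div_lt_iff₀ hp0]
    rw [div_le_iff₀ hr] at hpr
    linarith
  have h3 := hrr (y := 1 / p) (by
    rw [Real.dist_eq, sub_zero, abs_of_pos (by positivity)]
    exact hx)
  have h4 : Ap p = p * (Real.Gamma (1 + 1 / p) / Real.Gamma (1 - 1 / p)) := by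
    unfold Ap
    rw [add_comm 1 (1 / p), Real.Gamma_add_one (by positivity : (1:ℝ) / p ≠ 0)]
    field_simp
  rw [h4]
  have h5 : Real.exp η * (p * (Real.Gamma (1 + 1 / p) / Real.Gamma (1 - 1 / p))) =
      p * (Real.exp η * (Real.Gamma (1 + 1 / p) / Real.Gamma (1 - 1 / p))) := by ring
  rw [h5]
  nlinarith

/-- the bound for all large exponents -/
theorem large (ε : ℝ) (hε : 0 < ε) :
    ∃ (p1 : ℝ) (N : ℕ), ∀ n : ℕ, N ≤ n → ∀ p : ℝ, p1 ≤ p → ∀ f : SchwartzMap ℂ ℂ,
      eLpNorm (fun z => Tn n f z) (ENNReal.ofReal p) volume ≤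
        ENNReal.ofReal (Real.exp ε * Helper72.BQ.P.rat p n) *
          eLpNorm (fun z => f z) (ENNReal.ofReal p) volume := by
  set η : ℝ := min (ε / 3) 1 with hη
  have hη0 : 0 < η := lt_min (by positivity) one_pos
  have hη1 : η ≤ ε / 3 := min_le_left _ _
  obtain ⟨p1, N1, h1⟩ := large_FN all_SP hGL η hη0 (min_le_right _ _)
  obtain ⟨p2, hp2, h2⟩ := Ap_large η hη0
  obtain ⟨N2, hN2⟩ := exists_nat_ge (1 / η)
  refine ⟨max p1 p2, max (max N1 N2) 1, fun n hn p hp f => ?_⟩
  have hnN1 : N1 ≤ n := (le_trans (le_max_left _ _) (le_max_left _ _)).trans hn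
  have hnN2 : N2 ≤ n := (le_trans (le_max_right _ _) (le_max_left _ _)).trans hn
  have hn1 : 1 ≤ n := (le_max_right _ _).trans hn
  have hn' : (1:ℝ) ≤ n := by exact_mod_cast hn1
  have hpp1 : p1 ≤ p := (le_max_left _ _).trans hp
  have hpp2 : p2 ≤ p := (le_max_right _ _).trans hp
  have hp2' : 2 ≤ p := hp2.trans hpp2
  have hp0 : 0 < p := by linarith
  have hne : 1 / η ≤ n := hN2.trans (by exact_mod_cast hnN2)
  have hK0 : 0 ≤ (1 + η) * (n:ℝ) ^ (1 - 2 / p) * p := by positivity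
  have h3 := Helper72.BA.P.limit_schwartz n p (by linarith)
    (Real.toNNReal (((1 + η) * (n:ℝ) ^ (1 - 2 / p) * p) ^ p))
    (fun M f hf => h1 n hnN1 p hpp1 M f hf) f
  have h4 := Helper72.BA.P.to_eLpNorm _ _ p _ hp0 hK0 h3
  refine h4.trans ?_
  refine mul_le_mul_left (ENNReal.ofReal_le_ofReal ?_) _
  have h5 := (Helper72.BQ.P.poch_ratio p hp2' n hn1).1
  have h6 := h2 p hpp2
  have hAp := Helper72.BQ.P.Ap_pos p (by linarith)
  have hnn : 0 ≤ (n:ℝ) ^ (1 - 2 / p) := by positivity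
  have hE : (1 - 2 / p) / n ≤ η := by
    have e1 : 1 - 2 / p ≤ 1 := by
      have : 0 ≤ 2 / p := by positivity
      linarith
    rw [div_le_iff₀ hη0] at hne
    rw [div_le_iff₀ (by positivity)]
    linarith
  unfold Helper72.BQ.P.rat
  set r := (∏ i ∈ Finset.range n, ((1 - 1 / p) + i)) / (∏ i ∈ Finset.range n, (1 / p + (i:ℝ)))
  have hr : Ap p * (n:ℝ) ^ (1 - 2 / p) ≤ Real.exp η * r := by
    calc Ap p * (n:ℝ) ^ (1 - 2 / p)
        = Real.exp ((1 - 2 / p) / n) * (Ap p * (n:ℝ) ^ (1 - 2 / p) * Real.exp (-((1 - 2 / p) / n))) := by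
          rw [Real.exp_neg]
          have := (Real.exp_pos ((1 - 2 / p) / n)).ne'
          field_simp
      _ ≤ Real.exp ((1 - 2 / p) / n) * r := mul_le_mul_of_nonneg_left h5 (Real.exp_pos _).le
      _ ≤ Real.exp η * r := by
          have hr0 : 0 ≤ r := le_trans (by positivity) h5
          exact mul_le_mul_of_nonneg_right (Real.exp_le_exp.2 hE) hr0
  have h7 : 1 + η ≤ Real.exp η := by linarith [Real.add_one_le_exp η]
  calc (1 + η) * (n:ℝ) ^ (1 - 2 / p) * p
      ≤ Real.exp η * (n:ℝ) ^ (1 - 2 / p) * (Real.exp η * Ap p) := by gcongr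
    _ = Real.exp η * Real.exp η * (Ap p * (n:ℝ) ^ (1 - 2 / p)) := by ring
    _ ≤ Real.exp η * Real.exp η * (Real.exp η * r) := by gcongr
    _ = Real.exp (3 * η) * r := by
        rw [← Real.exp_add, ← mul_assoc, ← Real.exp_add]
        congr 2
        ring
    _ ≤ Real.exp ε * r := by
        have hr0 : 0 ≤ r := le_trans (by positivity) h5
        exact mul_le_mul_of_nonneg_right (Real.exp_le_exp.2 (by linarith)) hr0

/-- the sharp asymptotic bound, uniformly in all `p ≥ 2` -/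
theorem uniform (ε : ℝ) (hε : 0 < ε) :
    ∃ N : ℕ, ∀ n : ℕ, N ≤ n → ∀ p : ℝ, 2 ≤ p → ∀ f : SchwartzMap ℂ ℂ,
      eLpNorm (fun z => Tn n f z) (ENNReal.ofReal p) volume ≤
        ENNReal.ofReal (Real.exp (ε * min (p - 2) 1) * Helper72.BQ.P.rat p n) *
          eLpNorm (fun z => f z) (ENNReal.ofReal p) volume := by
  obtain ⟨p1, N1, h1⟩ := large ε hε
  set P : ℝ := max p1 3 with hP
  have hP3 : 3 ≤ P := le_max_right _ _
  obtain ⟨N2, h2⟩ := Helper72.BQ.P.sharp_all (ε / P) (by positivity) P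
  refine ⟨max N1 N2, fun n hn p hp f => ?_⟩
  have hn1 : N1 ≤ n := (le_max_left _ _).trans hn
  have hn2 : N2 ≤ n := (le_max_right _ _).trans hn
  have hp0 : 0 < p := by linarith
  have hr0 : 0 ≤ Helper72.BQ.P.rat p n := by
    unfold Helper72.BQ.P.rat
    apply div_nonneg
    · refine Finset.prod_nonneg fun i _ => ?_
      have : 1 / p ≤ 1 / 2 := one_div_le_one_div_of_le (by norm_num) hp
      have : (0:ℝ) ≤ i := Nat.cast_nonneg i
      linarith
    · exact Finset.prod_nonneg fun i _ => by positivity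
  rcases le_total p P with hpP | hpP
  · refine (h2 n hn2 p ⟨hp, hpP⟩ hp f).trans ?_
    refine mul_le_mul_left (ENNReal.ofReal_le_ofReal ?_) _
    apply mul_le_mul_of_nonneg_right _ hr0
    apply Real.exp_le_exp.2
    have hP0 : 0 < P := by linarith
    rw [div_mul_eq_mul_div, mul_div_assoc]
    apply mul_le_mul_of_nonneg_left _ hε.le
    apply le_min
    · exact div_le_self (by linarith) (by linarith)
    · rw [div_le_one hP0]; linarith
  · refine (h1 n hn1 p ((le_max_left _ _).trans hpP) f).trans ?_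
    refine mul_le_mul_left (ENNReal.ofReal_le_ofReal ?_) _
    apply mul_le_mul_of_nonneg_right _ hr0
    apply Real.exp_le_exp.2
    rw [min_eq_right (by linarith), mul_one]

end Helper87.UB
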