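import Pool.Agent.Helper72.BA.Defs

/-!
# Project UB (MP_3dd6d4_an, helper87): norms of T^n, uniformly in ALL p >= 2

Goal: for every eps > 0 there is N such that for all n >= N, all real p >= 2 and all Schwartz f
`‖T^n f‖_p ≤ exp (eps * min (p - 2) 1) * (1/q)_n/(1/p)_n * ‖f‖_p`.
(On main: the same for p in a bounded interval, with N depending on the interval.)

Method: for one fixed large even exponent 2k the windows of T^n f are compared with the explicit majorant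
(only an L^infinity bound of the local Fourier transform is used), which gives
`‖g_A‖_{2k}^{2k} ≤ C k^2 (2k)! n^{2k-2} ‖f‖_2^2` for |f| ≤ 1; a stopping time argument turns this into
`|{|T^n f| > t + (2k+C) n}| ≤ C k^2 ((2k)!/(2k)^{2k}) |{|T^n f| > t}|` for |f| ≤ 1, and a good-lambda
argument gives all p at once.

Definitions `Nice, gj, gW, nrm, lc, lcp, KK, kap, cub, mult, Tn, ...`: Pool/Agent/Helper72/BA/Defs.lean; the proved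
modules are in Pool/Agent/Helper72/BAM/*.lean (namespace Helper72.BA.P).
Module XX proves `theorem hXX : StXX` in the file Pool/Agent/Helper87/UB/M_XX.lean.
-/

set_option autoImplicit false

open MeasureTheory Complex FourierTransform
open scoped ENNReal NNReal

noncomputable section

namespace Helper87.UB

open Helper72.BA

/-- truncation to the closed disc of radius `R` -/
def tr (v : ℂ → ℝ≥0∞) (R : ℝ) : ℂ → ℝ≥0∞ := Set.indicator (Metric.closedBall (0:ℂ) R) v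

/-- pairing of the (k-1)-fold convolution power (shifted by `ξ`) and the k-fold convolution power of `w` -/
def Tp (w : ℂ → ℝ≥0∞) (k : ℕ) (ξ : ℂ) : ℝ≥0∞ := ∫⁻ s, lcp w (k - 2) (s - ξ) * lcp w (k - 1) s

/-- CA (blocks).  `lc` is commutative and associative on measurable functions (see BAM/MT.lean, BAM/PT1.lean for
such lemmas), `lcp a (j+1) = lc (lcp a j) a`.
(1) Let `R < R'`, `x = tr v R`, `x' = tr v R'`, `y` = `v` on the annulus `R < ‖ξ‖ ≤ R'`, so `x' = x + y`. For `m ≥ 1`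
`lcp x' m s ≤ lcp x m s + (m+1) * lc y (lcp x' (m-1)) s`: `m = 1`: `lc x' x' = lc x x + lc x y + lc y x'`; step:
`lcp x' (m+1) = lc (lcp x' m) x' ≤ lc (lcp x m) x' + (m+1) lc (lc y (lcp x' (m-1))) x'`,
`lc (lcp x m) x' = lcp x (m+1) + lc (lcp x m) y`, `lc (lcp x m) y ≤ lc y (lcp x' m)`, associativity.
(2) `m = k-1`, `A = lcp x' (k-1)`, `B = lcp x (k-1)`, `D = k * lc y (lcp x' (k-2))`: `B ≤ A ≤ B + D`, hence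
`A^2 ≤ A B + A D ≤ (B + D) B + A D ≤ B^2 + 2 A D`, and `∫ A D = k ∫ y(ξ) Tp x' k ξ dξ` (Tonelli). So
`W(R') ≤ W(R) + 2k ∫_{R<‖ξ‖≤R'} v(ξ) Tp (tr v R') k ξ`, `W(R) = ∫ lcp (tr v R) (k-1) s ^ 2`.
(3) `R_j = (r1/b) b^j`: `W(R_0) = 0` as `tr v (r1/b) = 0`; `tr v R_J = v` for large `J`; on `R_j < ‖ξ‖ ≤ R_{j+1}` we have
`R_{j+1} ≤ b ‖ξ‖`, `Tp (tr v R_{j+1}) k ξ ≤ Tp (tr v (b ‖ξ‖)) k ξ` by monotonicity; sum over `j < J` (disjoint annuli). -/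
def StCA : Prop := ∀ k : ℕ, 2 ≤ k → ∀ b r1 r2 : ℝ, 1 < b → 0 < r1 → ∀ v : ℂ → ℝ≥0∞, Measurable v →
  (∀ ξ, v ξ ≠ 0 → r1 ≤ ‖ξ‖ ∧ ‖ξ‖ ≤ r2) →
  ∫⁻ s, lcp v (k - 1) s ^ 2 ≤ 2 * (k : ℝ≥0∞) * ∫⁻ ξ, v ξ * Tp (tr v (b * ‖ξ‖)) k ξ

/-- CB (bound of `Tp`).  Let `r = ‖ξ‖`, `τ = r/(2k-1)`, `s` = `w` on `‖η‖ < τ`, `w = s + b`; `b ≤ β := (2k-1)^2 c/r^2` pointwise;
`M = ∫ w`, so `∫ lcp w m = M^(m+1)`, `∫ lcp s m ≤ M^(m+1)`.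
(1) `lcp w m x ≤ lcp s m x + (m+1) β M^m`: `m = 0`: `w ≤ s + β`; step: `lcp w (m+1) ≤ lc (lcp s m) w + (m+1) β M^m M`,
`lc (lcp s m) w = lc (lcp s m) s + lc (lcp s m) b ≤ lcp s (m+1) + β M^(m+1)`.
(2) `Tp w k ξ ≤ ∫ lcp w (k-2) (x-ξ) lcp s (k-1) x + k β M^(k-1) M^(k-1)` and
`∫ lcp w (k-2) (x-ξ) lcp s (k-1) x ≤ ∫ lcp s (k-2) (x-ξ) lcp s (k-1) x + (k-1) β M^(k-2) M^k`.
(3) `lcp s m x ≠ 0` implies `‖x‖ < (m+1) τ`, so the product `lcp s (k-2) (x-ξ) lcp s (k-1) x` is 0 everywhere (otherwise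
`‖ξ‖ < (2k-1) τ = r`). Total: `(2k-1) β M^(2k-2)`. -/
def StCB : Prop := ∀ k : ℕ, 2 ≤ k → ∀ c : ℝ≥0∞, ∀ w : ℂ → ℝ≥0∞, Measurable w → (∀ η, ‖η‖ₑ ^ 2 * w η ≤ c) →
  ∀ ξ : ℂ, ξ ≠ 0 → Tp w k ξ ≤ ((2 * k - 1 : ℕ) : ℝ≥0∞) ^ 3 * (c / ‖ξ‖ₑ ^ 2) * (∫⁻ η, w η) ^ (2 * k - 2)

/-- CC (one dimensional recursion).  `G(R) = ∫ tr v R`, `J_m` = left side.
(1) `G(R)^m ≤ m ∫_{‖η‖≤R} v(η) G(b‖η‖)^(m-1)` for `m ≥ 1`: `(x+y)^m ≤ x^m + m y (x+y)^(m-1)` with `x = G(R b^(-j-1))`, `x + y = G(R b^(-j))`,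
`y = ∫_{R b^(-j-1) < ‖η‖ ≤ R b^(-j)} v` (where `R b^(-j) ≤ b ‖η‖`); sum over `j < J`, `G(R b^(-J)) = 0` as soon as `R b^(-J) < r1`.
(2) for `m ≥ 2`: `v ≤ c ‖ξ‖^(-2)` gives `J_m ≤ c ∫ ‖ξ‖^(-4) G(b‖ξ‖)^m ≤ c m ∫ v(η) G(b‖η‖)^(m-1) ∫_{‖ξ‖ ≥ ‖η‖/b} ‖ξ‖^(-4) dξ dη = c m π b^2 J_(m-1)`.
(3) `J_1 = ∫∫_{‖η‖ ≤ b‖ξ‖} v(ξ) v(η) ‖ξ‖^(-2) ≤ (1/2) ∫∫ (v(ξ)^2 ‖ξ‖^(-1) ‖η‖^(-1) + v(η)^2 ‖η‖ ‖ξ‖^(-3)) = 2 π b ∫ v^2`, by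
`∫_{‖η‖≤R} ‖η‖^(-1) = 2πR`, `∫_{‖ξ‖≥R} ‖ξ‖^(-3) = 2π/R`, `∫_{‖ξ‖≥R} ‖ξ‖^(-4) = π/R^2` (polar coordinates). -/
def StCC : Prop := ∀ b c r1 : ℝ, 1 < b → 0 ≤ c → 0 < r1 → ∀ v : ℂ → ℝ≥0∞, Measurable v →
  (∀ ξ, ‖ξ‖ₑ ^ 2 * v ξ ≤ ENNReal.ofReal c) → (∀ ξ, v ξ ≠ 0 → r1 ≤ ‖ξ‖) → ∀ m : ℕ, 1 ≤ m →
  ∫⁻ ξ, v ξ / ‖ξ‖ₑ ^ 2 * (∫⁻ η, tr v (b * ‖ξ‖) η) ^ m ≤
    ENNReal.ofReal (2 * Real.pi * b * m.factorial * (Real.pi * c * b ^ 2) ^ (m - 1)) * ∫⁻ ξ, v ξ ^ 2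

/-- CD (assembly of CA, CB, CC: prove `theorem hCD (hA : StCA) (hB : StCB) (hC : StCC) : StCD`).  For `v` supported in `1/N ≤ ‖ξ‖ ≤ N`:
`StCA` with `b = 1 + 1/k`, `StCB` with `w = tr v (b‖ξ‖)`, `StCC` with `m = 2k-2`:
`∫ lcp v (k-1)^2 ≤ 2k (2k-1)^3 c * 2πb (2k-2)! (π c b^2)^(2k-3) ∫ v^2 = 2 (2k-1)^2 (2k)! (πc)^(2k-2) b^(4k-5) ∫ v^2`,
`b^(4k-5) ≤ e^4 ≤ 55`. General `v`: `v_N` = `v` on `1/N ≤ ‖ξ‖ ≤ N` (else 0); `lcp v_N j` increases to `lcp v' j`, `v'` = `v` off 0 (induction, monotone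
convergence), and `lcp v' j = lcp v j` for `j ≥ 1`; monotone convergence. -/
def StCD : Prop := ∀ k : ℕ, 2 ≤ k → ∀ c : ℝ, 0 ≤ c → ∀ v : ℂ → ℝ≥0∞, Measurable v →
  (∀ ξ, ‖ξ‖ₑ ^ 2 * v ξ ≤ ENNReal.ofReal c) →
  ∫⁻ s, lcp v (k - 1) s ^ 2 ≤
    ENNReal.ofReal (500 * k ^ 2 * (2 * k).factorial * (Real.pi * c) ^ (2 * k - 2)) * ∫⁻ ξ, v ξ ^ 2

/-- WB (windows for bounded `f`), from StCD. -/
def StWB : Prop := ∀ k : ℕ, 2 ≤ k → ∀ B : ℕ, ∃ n0 : ℕ, ∀ n : ℕ, n0 ≤ n → ∀ (N : ℕ) (a b : ℕ → ℤ),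
  (∀ l, a l ≤ b l ∧ b l ≤ a l + B ∧ b l ≤ a (l + 1)) → ∀ f : ℂ → ℂ, Nice f → (∀ z, ‖f z‖ ≤ 1) →
  ∑ l ∈ Finset.range N, nrm (2 * k) (gW n (Finset.Ico (a l) (b l)) f) ≤
    ENNReal.ofReal (600 * k ^ 2 * (2 * k).factorial * (n:ℝ) ^ (2 * k - 2)) * nrm 2 f

/-- BD (bounded `f`, all windows, even length), from StWB and `reduction`. -/
def StBD : Prop := ∀ k : ℕ, 2 ≤ k → ∃ n0 : ℕ, ∀ n : ℕ, n0 ≤ n → ∀ M m : ℕ, m ≤ M → ∀ f : ℂ → ℂ, Nice f →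
  (∀ z, ‖f z‖ ≤ 1) →
  nrm (2 * k) (gW n (Finset.Ico (-M + 2 * m : ℤ) M) f) ≤
    ENNReal.ofReal (700 * k ^ 2 * (2 * k).factorial * (n:ℝ) ^ (2 * k - 2)) * nrm 2 f

/-- OS (oscillation of a low frequency window).  `gj n j f = cv (kap (j+1)) (gj n j f)` (as `Psi (j+1) = 1` on the support of `chi j`; see BAM/NL.lean),
`‖gj n j f‖_∞ ≤ C n` (`kernel_L1` in BAM/KE4.lean) and
`∫ ‖kap i (x - w) - kap i (y - w)‖ dw ≤ C 2^i ‖x - y‖` (by `kap_scale` this is the case `i = 0`, where `kap 0` is a Schwartz function: mean value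
inequality, or see BPM/R4b.lean); sum over `j < b`. -/
def StOS : Prop := ∃ C : ℝ, 0 < C ∧ ∀ n : ℕ, 1 ≤ n → ∀ a b : ℤ, ∀ f : ℂ → ℂ, Nice f → (∀ z, ‖f z‖ ≤ 1) →
  ∀ x y : ℂ, ‖x - y‖ ≤ 2 * (2:ℝ) ^ (-b) →
  ‖gW n (Finset.Ico a b) f x - gW n (Finset.Ico a b) f y‖ ≤ C * n

/-- FA (far part and single annulus).  First part: `f w ≠ 0` implies `‖y - w‖ > n 2^(-a) = L n 2^(-j)` with `L = 2^(j-a)`, so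
`‖gj n j f y‖ ≤ ∫_{‖u‖ > L n 2^(-j)} ‖KK n j u‖ ≤ C n 2^(a-j)` by `kernel_tail`; sum over `j ≥ a`. Second part: `kernel_L1`. -/
def StFA : Prop := ∃ C : ℝ, 0 < C ∧ ∀ n : ℕ, 1 ≤ n → ∀ f : ℂ → ℂ, Nice f → (∀ z, ‖f z‖ ≤ 1) →
  (∀ (a b : ℤ) (x0 : ℂ), (∀ w, ‖w - x0‖ ≤ 4 * n * (2:ℝ) ^ (-a) → f w = 0) →
    ∀ y : ℂ, ‖y - x0‖ ≤ 2 * (2:ℝ) ^ (-a) → ‖gW n (Finset.Ico a b) f y‖ ≤ C * n) ∧
  (∀ (j : ℤ) (y : ℂ), ‖gj n j f y‖ ≤ C * n)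

/-- HF (half: prove `theorem hHF (hF : StFA) : StHF`).  `f = f1 + f2`, `f1` = `f` on the closed ball `B` of centre `x0` and radius `4 n 2^(-a)`, 0 elsewhere. On `Q`:
`‖gW f‖ ≤ ‖gW f1‖ + C n` (`StFA`, additivity `gW_add` in BAM/PC0.lean). `nrm 2 (gW f1) ≤ nrm 2 f1 ≤ volume B = 16 π n^2 4^(-a)`
(`sum_nrm_two_windows` in BAM/L2.lean with one window), so by Chebyshev `volume {‖gW f1‖ > 11 n} ≤ (16 π / 121) 4^(-a) ≤ 4^(-a) / 2`. -/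
def StHF : Prop := ∃ C : ℝ, 0 < C ∧ ∀ n : ℕ, 1 ≤ n → ∀ f : ℂ → ℂ, Nice f → (∀ z, ‖f z‖ ≤ 1) →
  ∀ (a b : ℤ) (x0 : ℂ) (Q : Set ℂ), MeasurableSet Q → Q ⊆ Metric.closedBall x0 (2 * (2:ℝ) ^ (-a)) →
  volume Q = ENNReal.ofReal (((2:ℝ) ^ (-a)) ^ 2) →
  2 * volume {z : ℂ | z ∈ Q ∧ C * n < ‖gW n (Finset.Ico a b) f z‖} ≤ volume Q

/-- LG (large values: prove `theorem hLG (hF : StFA) (hB : StBD) : StLG`).  As HF with `a = -M + 2m`, `b = M`: on `Q` `‖gW f‖ ≤ ‖gW f1‖ + C n`, and by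
`StBD` for `f1` and Chebyshev
`volume {‖gW f1‖ > 2 k n} ≤ (2kn)^(-2k) * 700 k^2 (2k)! n^(2k-2) * 16 π n^2 4^(-a)`, `700 * 16 * π ≤ 36000`. The constant `C` must not depend on `k`. -/
def StLG : Prop := ∃ C : ℝ, 0 < C ∧ ∀ k : ℕ, 2 ≤ k → ∃ n0 : ℕ, ∀ n : ℕ, n0 ≤ n → ∀ f : ℂ → ℂ, Nice f →
  (∀ z, ‖f z‖ ≤ 1) → ∀ M m : ℕ, m ≤ M → ∀ (x0 : ℂ) (Q : Set ℂ), MeasurableSet Q →
  Q ⊆ Metric.closedBall x0 (2 * (2:ℝ) ^ (-(-M + 2 * m : ℤ))) →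
  volume Q = ENNReal.ofReal (((2:ℝ) ^ (-(-M + 2 * m : ℤ))) ^ 2) →
  volume {z : ℂ | z ∈ Q ∧ (2 * k + C) * n < ‖gW n (Finset.Ico (-M + 2 * m : ℤ) M) f z‖} ≤
    ENNReal.ofReal (36000 * k ^ 2 * (2 * k).factorial / (2 * k : ℝ) ^ (2 * k)) * volume Q

/-- SP (stopping squares: prove `theorem hSP (hO : StOS) (hF : StFA) (hH : StHF) (hL : StLG) : StSP`).
Squares: `cub 1 i z` (lemmas in BAM/SF.lean: measurable, volume `4^(-i)`, nested). `i_m = -M + 2m`, `S_m = gW n (Ico (-M) i_m) f`,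
`R_m = gW n (Ico i_m M) f`, `F = S_m + R_m = gW n (Ico (-M) M) f` for `m ≤ M`; `S_0 = 0`, `S_M = F`. Let `C` be larger than the
constants of the four hypotheses, `λ = t + 2 C n`. A square `q` of generation `i_m` (`m ≤ M`) is hit if `λ < ‖S_m x‖` for some `x` in it.
For `y` with `λ < ‖F y‖` let `m(y)` be the least `m ≤ M` such that the square of generation `i_m` of `y` is hit (`m = M` qualifies;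
`m ≥ 1` as `S_0 = 0 ≤ λ`). The set of `(m, q)` such that `q` of generation `i_m` is hit and none of its ancestors of generation `i_m'`, `m' < m`, is hit
gives pairwise disjoint squares which cover `{λ < ‖F‖}`. On such a square `Q` (it lies in the closed ball of radius `2 * 2^(-i_m)` around every `x0 ∈ Q`):
 `‖S_m‖ > λ - C n` (`StOS`), `‖S_(m-1)‖ ≤ λ` (its ancestor of generation `i_(m-1)` is not hit), so `‖S_m‖ ≤ λ + 2 C n` (`StFA`, two annuli). Hence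
 `Q ∩ {‖F‖ > λ + 2 C n + (2k + C) n} ⊆ {z ∈ Q | ‖R_m z‖ > (2k+C) n}` has volume at most `ρ volume Q` (`StLG`, `ρ` = its constant) and
 `Q ∩ {‖F‖ > t} ⊇ {z ∈ Q | ‖R_m z‖ ≤ C n}` has volume at least `volume Q / 2` (`StHF`). Sum over the squares:
 `volume {‖F‖ > t + 5 C n + 2 k n} ≤ 2 ρ volume {‖F‖ > t}`. -/
def StSP : Prop := ∃ C : ℝ, 0 < C ∧ ∀ k : ℕ, 2 ≤ k → ∃ n0 : ℕ, ∀ n : ℕ, n0 ≤ n → ∀ (M : ℕ) (f : ℂ → ℂ), Nice f →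
  (∀ z, ‖f z‖ ≤ 1) → ∀ t : ℝ, 0 ≤ t →
  volume {z : ℂ | t + (2 * k + C) * n < ‖gW n (Finset.Ico (-M : ℤ) M) f z‖} ≤
    ENNReal.ofReal (72000 * k ^ 2 * (2 * k).factorial / (2 * k : ℝ) ^ (2 * k)) *
      volume {z : ℂ | t < ‖gW n (Finset.Ico (-M : ℤ) M) f z‖}

/-- GL (good lambda).  `D(λ) = volume {λ < ‖T f‖}`. For `λ > 0` let `a = λ/θ`, `f = f⁻ + f⁺`, `f⁻` = `f` where `‖f‖ ≤ a`. `T f = T f⁻ + T f⁺`,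
`T f⁻ = a • T (f⁻/a)`, so with `a t = λ (1 - 1/p) - a σ ≥ 0`
`volume {‖T f⁻‖ > λ (1-1/p)} ≤ ρ volume {‖T f⁻‖ > λ (1-1/p) - a σ}`, hence
`D(λ) ≤ volume {‖T f⁺‖ > λ/p} + volume {‖T f⁻‖ > λ(1-1/p)} ≤ 2 Y(λ) + ρ D((1-δ) λ)`, `δ = 2/p + σ/θ`, where by Chebyshev
`volume {‖T f⁺‖ > λ/p} ≤ Y(λ) := (p/λ)^q C1 ∫_{‖f‖ > λ/θ} ‖f‖^q`. Multiply by `p λ^(p-1)` and integrate over `λ > 0`
(`lintegral_rpow_eq_lintegral_meas_lt_mul`, change of variables `λ ↦ (1-δ) λ`): `I ≤ 2 X + ρ (1-δ)^(-p) I ≤ 2 X + I/2`, `I = ∫ ‖T f‖^p < ∞`, so `I ≤ 4 X`,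
`X = ∫ p λ^(p-1) Y(λ) = C1 p^q p ∫ ‖f‖^q ∫_0^(θ‖f‖) λ^(p-1-q) dλ = C1 p^q (p/(p-q)) θ^(p-q) ∫ ‖f‖^p ≤ 2 C1 p^q θ^(p-q) ∫ ‖f‖^p`. -/
def StGL : Prop := ∀ T : (ℂ → ℂ) → ℂ → ℂ, (∀ f, Nice f → Measurable (T f)) →
  (∀ f g, Nice f → Nice g → T (f + g) = T f + T g) → (∀ (c : ℂ) (f : ℂ → ℂ), Nice f → T (c • f) = c • T f) →
  ∀ (q : ℕ) (σ ρ C1 : ℝ), 2 ≤ q → 0 < σ → 0 ≤ ρ → ρ ≤ 1 → 0 ≤ C1 →
  (∀ f, Nice f → (∀ z, ‖f z‖ ≤ 1) → ∀ t : ℝ, 0 ≤ t →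
    volume {z : ℂ | t + σ < ‖T f z‖} ≤ ENNReal.ofReal ρ * volume {z : ℂ | t < ‖T f z‖}) →
  (∀ f, Nice f → nrm q (T f) ≤ ENNReal.ofReal C1 * nrm q f) →
  ∀ p θ : ℝ, 2 * q ≤ p → 0 < θ → 2 / p + σ / θ < 1 → ρ * (1 - (2 / p + σ / θ)) ^ (-p) ≤ 1 / 2 →
  ∀ f, Nice f → ∫⁻ z, ‖T f z‖ₑ ^ p ≠ ∞ →
  ∫⁻ z, ‖T f z‖ₑ ^ p ≤ ENNReal.ofReal (8 * C1 * p ^ q * θ ^ (p - q)) * ∫⁻ z, ‖f z‖ₑ ^ p

end Helper87.UB
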